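import Pool.Agent.Lib.BFC.Defs

/-!
# Affine interpolation of the constants

`chord`: every term of the functional is affine in `l`, or a square with leading coefficient at
most that of `curv`, or the cubic `(1 - l^2) l`.
-/

set_option autoImplicit false

open Complex Metric Set
open scoped ComplexConjugate

namespace Pool.Agent.BFC

/-- Affine interpolation of the constants. -/
noncomputable def mixL (t : ℝ) (xs ys : List ℝ) : List ℝ :=
  List.zipWith (fun x y => (1 - t) * x + t * y) xs ys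

noncomputable def mixE (t : ℝ) (e1 e2 : EndC) : EndC :=
  ⟨(1 - t) * e1.l + t * e2.l, mixL t e1.rho e2.rho, mixL t e1.kap e2.kap,
    (1 - t) * e1.tau + t * e2.tau⟩

namespace AnaCAux

theorem mixL_length {t : ℝ} {xs ys : List ℝ} {n : ℕ} (hx : xs.length = n) (hy : ys.length = n) :
    (mixL t xs ys).length = n := by
  simp [mixL, hx, hy]

theorem pow_mix_le {t x y : ℝ} (ht0 : 0 ≤ t) (ht1 : t ≤ 1) (hx : 0 ≤ x) (hy : 0 ≤ y) (n : ℕ) :
    ((1 - t) * x + t * y) ^ n ≤ (1 - t) * x ^ n + t * y ^ n := by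
  have h := (convexOn_pow (𝕜 := ℝ) n).2 (mem_Ici.2 hx) (mem_Ici.2 hy)
    (sub_nonneg.2 ht1) ht0 (by ring)
  simpa [smul_eq_mul] using h

theorem inv_mix_le {t A B : ℝ} (ht0 : 0 ≤ t) (ht1 : t ≤ 1) (hA : 0 < A) (hB : 0 < B) :
    ((1 - t) * A + t * B)⁻¹ ≤ (1 - t) * A⁻¹ + t * B⁻¹ := by
  have hC : 0 < (1 - t) * A + t * B := by
    rcases eq_or_lt_of_le ht0 with h | h
    · rw [← h]; linarith
    · nlinarith [mul_nonneg (sub_nonneg.2 ht1) hA.le, mul_pos h hB]
  rw [inv_eq_one_div, div_le_iff₀ hC]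
  have h1 : ((1 - t) * A⁻¹ + t * B⁻¹) * ((1 - t) * A + t * B) =
      1 + t * (1 - t) * ((A - B) ^ 2 / (A * B)) := by
    field_simp
    ring
  rw [h1]
  have h2 : 0 ≤ t * (1 - t) * ((A - B) ^ 2 / (A * B)) :=
    mul_nonneg (mul_nonneg ht0 (by linarith)) (by positivity)
  linarith

theorem tail_mix_le {t x y : ℝ} (ht0 : 0 ≤ t) (ht1 : t ≤ 1) (hx : 0 ≤ x) (hx1 : x < 1)
    (hy : 0 ≤ y) (hy1 : y < 1) (n : ℕ) :
    ((1 - t) * x + t * y) ^ n / (1 - ((1 - t) * x + t * y) ^ 2) ≤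
      (1 - t) * (x ^ n / (1 - x ^ 2)) + t * (y ^ n / (1 - y ^ 2)) := by
  have hA : 0 < 1 - x ^ 2 := by nlinarith
  have hB : 0 < 1 - y ^ 2 := by nlinarith
  have hz0 : 0 ≤ (1 - t) * x + t * y :=
    add_nonneg (mul_nonneg (by linarith) hx) (mul_nonneg ht0 hy)
  have h1 := pow_mix_le ht0 ht1 hx hy n
  have h2 := pow_mix_le ht0 ht1 hx hy 2
  have hC : 0 < (1 - t) * (1 - x ^ 2) + t * (1 - y ^ 2) := by
    rcases eq_or_lt_of_le ht0 with h | h
    · rw [← h]; linarith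
    · nlinarith [mul_nonneg (sub_nonneg.2 ht1) hA.le, mul_pos h hB]
  have h3 : (1 - t) * (1 - x ^ 2) + t * (1 - y ^ 2) ≤ 1 - ((1 - t) * x + t * y) ^ 2 := by
    nlinarith
  have h4 : (1 - ((1 - t) * x + t * y) ^ 2)⁻¹ ≤ (1 - t) * (1 - x ^ 2)⁻¹ + t * (1 - y ^ 2)⁻¹ :=
    le_trans (inv_anti₀ hC h3) (inv_mix_le ht0 ht1 hA hB)
  rw [div_eq_mul_inv, div_eq_mul_inv, div_eq_mul_inv]
  have h5 : ((1 - t) * x + t * y) ^ n * (1 - ((1 - t) * x + t * y) ^ 2)⁻¹ ≤
      ((1 - t) * x ^ n + t * y ^ n) * ((1 - t) * (1 - x ^ 2)⁻¹ + t * (1 - y ^ 2)⁻¹) :=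
    mul_le_mul h1 h4 (inv_nonneg.2 (le_trans hC.le h3)) (le_trans (pow_nonneg hz0 n) h1)
  have h6 : 0 ≤ (x ^ n - y ^ n) * ((1 - x ^ 2)⁻¹ - (1 - y ^ 2)⁻¹) := by
    rcases le_total x y with h | h
    · have e1 : x ^ n ≤ y ^ n := pow_le_pow_left₀ hx h n
      have e2 : (1 - x ^ 2)⁻¹ ≤ (1 - y ^ 2)⁻¹ := inv_anti₀ hB (by nlinarith)
      exact mul_nonneg_of_nonpos_of_nonpos (by linarith) (by linarith)
    · have e1 : y ^ n ≤ x ^ n := pow_le_pow_left₀ hy h n
      have e2 : (1 - y ^ 2)⁻¹ ≤ (1 - x ^ 2)⁻¹ := inv_anti₀ hA (by nlinarith)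
      exact mul_nonneg (by linarith) (by linarith)
  have h7 : 0 ≤ t * (1 - t) * ((x ^ n - y ^ n) * ((1 - x ^ 2)⁻¹ - (1 - y ^ 2)⁻¹)) :=
    mul_nonneg (mul_nonneg ht0 (by linarith)) h6
  refine le_trans h5 (sub_nonneg.1 ?_)
  have e : (1 - t) * (x ^ n * (1 - x ^ 2)⁻¹) + t * (y ^ n * (1 - y ^ 2)⁻¹) -
      ((1 - t) * x ^ n + t * y ^ n) * ((1 - t) * (1 - x ^ 2)⁻¹ + t * (1 - y ^ 2)⁻¹) =
      t * (1 - t) * ((x ^ n - y ^ n) * ((1 - x ^ 2)⁻¹ - (1 - y ^ 2)⁻¹)) := by ring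
  rw [e]
  exact h7

theorem linP_mix (a : ℕ → ℂ) {t : ℝ} : ∀ (x y : List ℝ) (_ : x.length = y.length) (nu : List ℂ)
    (n : ℕ), linP a n (mixL t x y) nu = (1 - t) * linP a n x nu + t * linP a n y nu
  | [], [], _, nu, n => by simp [mixL, linP]
  | x :: xs, y :: ys, h, [], n => by simp [mixL, linP]
  | x :: xs, y :: ys, h, v :: vs, n => by
    have ih := linP_mix a (t := t) xs ys (by simpa using h) vs (n + 1)
    simp only [mixL] at ih
    simp only [mixL, List.zipWith_cons_cons, linP, ih]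
    ring
  | [], _ :: _, h, _, _ => by simp at h
  | _ :: _, [], h, _, _ => by simp at h

theorem quadD_mix (a : ℕ → ℂ) {t : ℝ} : ∀ (x y : List ℝ) (_ : x.length = y.length) (D : List ℝ)
    (n : ℕ), quadD a n (mixL t x y) D = (1 - t) * quadD a n x D + t * quadD a n y D
  | [], [], _, D, n => by simp [mixL, quadD]
  | x :: xs, y :: ys, h, [], n => by simp [mixL, quadD]
  | x :: xs, y :: ys, h, v :: vs, n => by
    have ih := quadD_mix a (t := t) xs ys (by simpa using h) vs (n + 1)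
    simp only [mixL] at ih
    simp only [mixL, List.zipWith_cons_cons, quadD, ih]
    ring
  | [], _ :: _, h, _, _ => by simp at h
  | _ :: _, [], h, _, _ => by simp at h

theorem nsq_revl (a : ℕ → ℂ) (l : ℝ) (N : ℕ) : nsq (revl l a N) = nsq (revl 0 a N) + l ^ 2 := by
  induction N with
  | zero => simp [revl, nsq]
  | succ n ih => simp only [revl, nsq, ih]; ring

theorem dot_nil (xs : List ℂ) : dot xs [] = 0 := by
  cases xs <;> rfl

theorem dot_revl (a : ℕ → ℂ) (l : ℝ) : ∀ (psi : List ℂ) (N : ℕ),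
    dot psi (revl l a N) = dot psi (revl 0 a N) + psi.getD N 0 * (l : ℂ)
  | [], N => by simp [dot]
  | x :: xs, 0 => by simp [revl, dot, dot_nil]
  | x :: xs, N + 1 => by
    have ih := dot_revl a l xs N
    simp only [revl, dot, ih, List.getD_cons_succ]
    ring

/-- sum of the squares of the first entries -/
noncomputable def SS (psi : List ℂ) (M : ℕ) : ℝ := ∑ j ∈ Finset.range M, ‖psi.getD j 0‖ ^ 2

theorem SS_le : ∀ (psi : List ℂ) (M : ℕ), SS psi M ≤ nsq psi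
  | [], M => by simp [SS, nsq]
  | x :: xs, 0 => by
    simp only [SS, Finset.range_zero, Finset.sum_empty, nsq]
    have := SS_le xs 0
    simp only [SS, Finset.range_zero, Finset.sum_empty] at this
    positivity
  | x :: xs, M + 1 => by
    have ih := SS_le xs M
    simp only [SS] at ih
    simp only [SS, Finset.sum_range_succ', List.getD_cons_succ, List.getD_cons_zero, nsq]
    linarith

theorem sq_mix (b c : ℂ) (t x y : ℝ) :
    ‖b + c * (((1 - t) * x + t * y : ℝ) : ℂ)‖ ^ 2 =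
      (1 - t) * ‖b + c * (x : ℂ)‖ ^ 2 + t * ‖b + c * (y : ℂ)‖ ^ 2 -
        t * (1 - t) * (y - x) ^ 2 * ‖c‖ ^ 2 := by
  rw [← normSq_eq_norm_sq, ← normSq_eq_norm_sq, ← normSq_eq_norm_sq, ← normSq_eq_norm_sq]
  simp only [normSq_apply, add_re, add_im, mul_re, mul_im, ofReal_re, ofReal_im]
  ring

theorem GG_mix (a : ℕ → ℂ) (psi : List ℂ) (t x y : ℝ) : ∀ N : ℕ,
    GG psi (revl ((1 - t) * x + t * y) a N) =
      (1 - t) * GG psi (revl x a N) + t * GG psi (revl y a N) -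
        t * (1 - t) * (y - x) ^ 2 * SS psi (N + 1)
  | 0 => by
    have h1 := dot_revl a ((1 - t) * x + t * y) psi 0
    have h2 := dot_revl a x psi 0
    have h3 := dot_revl a y psi 0
    have e : ∀ l : ℝ, GG psi (revl l a 0) = ‖dot psi (revl l a 0)‖ ^ 2 := by
      intro l
      simp [revl, GG]
    rw [e, e, e, h1, h2, h3, sq_mix]
    simp [SS]
  | N + 1 => by
    have ih := GG_mix a psi t x y N
    have h1 := dot_revl a ((1 - t) * x + t * y) psi (N + 1)
    have h2 := dot_revl a x psi (N + 1)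
    have h3 := dot_revl a y psi (N + 1)
    have e : ∀ l : ℝ, GG psi (revl l a (N + 1)) =
        ‖dot psi (revl l a (N + 1))‖ ^ 2 + GG psi (revl l a N) := by
      intro l
      rfl
    rw [e, e, e, h1, h2, h3, sq_mix, ih]
    simp only [SS]
    rw [Finset.sum_range_succ _ (N + 1)]
    ring

end AnaCAux

open AnaCAux

theorem mixE_good {t : ℝ} (ht0 : 0 ≤ t) (ht1 : t ≤ 1) {NP N : ℕ} {R1 R2 : ℝ} (h1 : 0 ≤ R1)
    (h1' : R1 < 1) (h2 : 0 ≤ R2) (h2' : R2 < 1) {e1 e2 : EndC} (he1 : e1.Good NP N R1)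
    (he2 : e2.Good NP N R2) : (mixE t e1 e2).Good NP N ((1 - t) * R1 + t * R2) := by
  have ht1' : 0 ≤ 1 - t := by linarith
  refine ⟨mixL_length he1.rho_len he2.rho_len, mixL_length he1.kap_len he2.kap_len, ?_, ?_, ?_⟩
  · intro i h
    have hl : (mixL t e1.rho e2.rho).length = NP := mixL_length he1.rho_len he2.rho_len
    have hi : i < NP := by
      have : i < (mixL t e1.rho e2.rho).length := h
      omega
    have g1 := he1.rho_le i (by rw [he1.rho_len]; exact hi)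
    have g2 := he2.rho_le i (by rw [he2.rho_len]; exact hi)
    have e : (mixE t e1 e2).rho[i] = (1 - t) * e1.rho[i]'(by rw [he1.rho_len]; exact hi) +
        t * e2.rho[i]'(by rw [he2.rho_len]; exact hi) := by
      simp [mixE, mixL]
    rw [e]
    refine le_trans (pow_mix_le ht0 ht1 h1 h2 (i + 1)) ?_
    exact add_le_add (mul_le_mul_of_nonneg_left g1 ht1') (mul_le_mul_of_nonneg_left g2 ht0)
  · intro i h
    have hl : (mixL t e1.kap e2.kap).length = N - NP := mixL_length he1.kap_len he2.kap_len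
    have hi : i < N - NP := by
      have : i < (mixL t e1.kap e2.kap).length := h
      omega
    have g1 := he1.kap_le i (by rw [he1.kap_len]; exact hi)
    have g2 := he2.kap_le i (by rw [he2.kap_len]; exact hi)
    have e : (mixE t e1 e2).kap[i] = (1 - t) * e1.kap[i]'(by rw [he1.kap_len]; exact hi) +
        t * e2.kap[i]'(by rw [he2.kap_len]; exact hi) := by
      simp [mixE, mixL]
    rw [e]
    refine le_trans (pow_mix_le ht0 ht1 h1 h2 (2 * (NP + 1 + i))) ?_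
    exact add_le_add (mul_le_mul_of_nonneg_left g1 ht1') (mul_le_mul_of_nonneg_left g2 ht0)
  · refine le_trans (tail_mix_le ht0 ht1 h1 h1' h2 h2' (2 * (N + 1))) ?_
    exact add_le_add (mul_le_mul_of_nonneg_left he1.tau_le ht1')
      (mul_le_mul_of_nonneg_left he2.tau_le ht0)

theorem chord {t : ℝ} (ht0 : 0 ≤ t) (ht1 : t ≤ 1) {s1 s2 : ℝ} {NP N : ℕ} {e1 e2 : EndC}
    (hl1 : 0 ≤ e1.l) (hl12 : e1.l ≤ e2.l) (hl2 : e2.l ≤ 1 / 2) (hs1 : 0 ≤ s1) (hs1' : s1 ≤ 1)
    (hs2 : 0 ≤ s2)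
    (hr : e1.rho.length = e2.rho.length) (hk : e1.kap.length = e2.kap.length)
    {c : Cert} (hc : c.Good (N - NP)) (nu : List ℂ) (a : ℕ → ℂ) :
    FF c s1 s2 N (mixE t e1 e2) nu a ≤
      (1 - t) * FF c s1 s2 N e1 nu a + t * FF c s1 s2 N e2 nu a +
        c.curv * (e2.l - e1.l) ^ 2 / 8 := by
  have hrl : (mixL t e1.rho e2.rho).length = e1.rho.length := mixL_length rfl hr.symm
  have E1 := linP_mix a (t := t) e1.rho e2.rho hr nu 1
  have E2 := quadD_mix a (t := t) e1.kap e2.kap hk c.D (e1.rho.length + 1)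
  have E3 := nsq_revl a ((1 - t) * e1.l + t * e2.l) N
  have E4 := nsq_revl a e1.l N
  have E5 := nsq_revl a e2.l N
  have E6 := GG_mix a c.psi t e1.l e2.l N
  have hS := SS_le c.psi (N + 1)
  have hS0 : 0 ≤ nsq c.psi := le_trans (by
    simp only [SS]
    exact Finset.sum_nonneg (fun _ _ => by positivity)) hS
  have hK : |c.k.re| ≤ c.K := le_trans (abs_re_le_norm _) hc.k_le
  have hK0 : 0 ≤ c.K := le_trans (abs_nonneg _) hK
  have hk1 := hc.k1_nonneg
  have hq := hc.q_pos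
  set x := e1.l with hx
  set y := e2.l with hy
  set w := t * (1 - t) * (y - x) ^ 2 with hw
  have hw0 : 0 ≤ w := mul_nonneg (mul_nonneg ht0 (by linarith)) (sq_nonneg _)
  have hw1 : w ≤ (y - x) ^ 2 / 4 := by
    have : t * (1 - t) ≤ 1 / 4 := by nlinarith [sq_nonneg (t - 1 / 2)]
    rw [hw]
    have g := mul_le_mul_of_nonneg_right this (sq_nonneg (y - x))
    linarith
  have hm0 : 0 ≤ (1 - t) * x + t * y := add_nonneg (mul_nonneg (by linarith) hl1)
    (mul_nonneg ht0 (by linarith))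
  have hm1 : (1 - t) * x + t * y ≤ 1 / 2 := by
    have g1 := mul_le_mul_of_nonneg_left (show x ≤ 1 / 2 by linarith) (show 0 ≤ 1 - t by linarith)
    have g2 := mul_le_mul_of_nonneg_left hl2 ht0
    linarith
  set m := (1 - t) * x + t * y with hm
  -- the exact identity
  have key : FF c s1 s2 N (mixE t e1 e2) nu a =
      (1 - t) * FF c s1 s2 N e1 nu a + t * FF c s1 s2 N e2 nu a +
        w * (c.q + SS c.psi (N + 1) + 2 * ((1 - s1) * c.K) + 2 * ((1 - s1) * c.K) * c.a0 ^ 2 +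
          2 * c.a0 ^ 2 * c.k.re * (x + y + m) + 2 * c.k1 * (1 - s2)) := by
    have F0 : (mixE t e1 e2).l = m := rfl
    have F1 : (mixE t e1 e2).rho = mixL t e1.rho e2.rho := rfl
    have F2 : (mixE t e1 e2).kap = mixL t e1.kap e2.kap := rfl
    have F3 : (mixE t e1 e2).tau = (1 - t) * e1.tau + t * e2.tau := rfl
    unfold FF
    rw [F0, F1, F2, F3, hrl, E1, E2, E3, E6, ← hx, ← hy, E4, E5, ← hr]
    simp only [Cert.m]
    rw [hw, hm]
    ring
  rw [key]
  have b1 : SS c.psi (N + 1) ≤ nsq c.psi := hS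
  have b2 : 2 * ((1 - s1) * c.K) ≤ 2 * c.K := by
    have := mul_nonneg hs1 hK0
    linarith
  have b3 : 2 * ((1 - s1) * c.K) * c.a0 ^ 2 ≤ 2 * c.K * c.a0 ^ 2 :=
    mul_le_mul_of_nonneg_right b2 (sq_nonneg _)
  have b4 : 2 * c.a0 ^ 2 * c.k.re * (x + y + m) ≤ 3 * (c.K * c.a0 ^ 2) := by
    have g1 : 0 ≤ x + y + m := by linarith
    have g2 : x + y + m ≤ 3 / 2 := by linarith
    have g3 : c.k.re ≤ c.K := le_trans (le_abs_self _) hK
    have g4 : c.k.re * (x + y + m) ≤ c.K * (3 / 2) := by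
      calc c.k.re * (x + y + m) ≤ c.K * (x + y + m) := mul_le_mul_of_nonneg_right g3 g1
        _ ≤ c.K * (3 / 2) := mul_le_mul_of_nonneg_left g2 hK0
    have g5 := mul_le_mul_of_nonneg_left g4 (show 0 ≤ 2 * c.a0 ^ 2 by positivity)
    linarith
  have b5 : 2 * c.k1 * (1 - s2) ≤ 2 * c.k1 := by
    have := mul_nonneg hk1 hs2
    linarith
  have b6 : c.q + SS c.psi (N + 1) + 2 * ((1 - s1) * c.K) + 2 * ((1 - s1) * c.K) * c.a0 ^ 2 +
      2 * c.a0 ^ 2 * c.k.re * (x + y + m) + 2 * c.k1 * (1 - s2) ≤ c.curv / 2 := by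
    unfold Cert.curv
    linarith
  have hcv : 0 ≤ c.curv := by
    unfold Cert.curv
    have : 0 ≤ c.K * c.a0 ^ 2 := mul_nonneg hK0 (sq_nonneg _)
    linarith
  have b7 : w * (c.q + SS c.psi (N + 1) + 2 * ((1 - s1) * c.K) +
      2 * ((1 - s1) * c.K) * c.a0 ^ 2 + 2 * c.a0 ^ 2 * c.k.re * (x + y + m) +
      2 * c.k1 * (1 - s2)) ≤ (y - x) ^ 2 / 4 * (c.curv / 2) :=
    le_trans (mul_le_mul_of_nonneg_left b6 hw0)
      (mul_le_mul_of_nonneg_right hw1 (by linarith))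
  linarith

end Pool.Agent.BFC
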