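import Pool.Agent.Lib.BFC.Defs
import Pool.Agent.Lib.BFC.AnaC
import Pool.Agent.Lib.P187o.Func

/-!
# The quadratic functional bounds the weighted sum of the coefficients

`GG_le`: the function `psi f` has mean square at most that of the polynomial `psi`, since
`|f| ≤ 1`; its `k`-th coefficient is `∑_{j ≤ k} psi_j a_{k-j}`.

`main_ineq`: termwise, `2 r^n |a_n| ≤ 2 ρ_n Re (conj ν_n a_n)` for `n ≤ NP`,
`2 r^n |a_n| ≤ D_n |a_n|^2 + r^(2n) / D_n` for `NP < n ≤ N`, and the same with `q` for `n > N`,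
where the terms `q |a_n|^2` cancel against Parseval; `h ≥ 0` by `K ≥ |k|` and the tangent of
`α ^ 2` at `a0`.
-/

set_option autoImplicit false

open Complex Metric Set
open scoped ComplexConjugate
open Pool.Agent.P187f6b

namespace Pool.Agent.BFC

namespace AnaAux

/-- The polynomial with the given coefficients. -/
noncomputable def pev : List ℂ → ℂ → ℂ
  | [], _ => 0
  | x :: xs, z => x + z * pev xs z

theorem pev_diff : ∀ psi : List ℂ, DifferentiableOn ℂ (pev psi) (ball 0 1)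
  | [] => by
    have : pev [] = fun _ => (0 : ℂ) := by funext z; rfl
    rw [this]
    exact differentiableOn_const _
  | x :: xs => by
    have : pev (x :: xs) = fun z => x + z * pev xs z := by funext z; rfl
    rw [this]
    exact (differentiableOn_const _).add (differentiableOn_id.mul (pev_diff xs))

theorem pev_hasSum (z : ℂ) : ∀ psi : List ℂ, HasSum (fun n => psi.getD n 0 * z ^ n) (pev psi z)
  | [] => by simp [pev]
  | x :: xs => by
    have h1 := P187o.hasSum_sh 1 (pev_hasSum z xs)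
    have h2 : HasSum (fun n : ℕ => (if n = 0 then x else 0) * z ^ n) x := by
      have h := hasSum_single (f := fun n : ℕ => (if n = 0 then x else 0) * z ^ n) 0
        (fun n hn => by simp [hn])
      simpa using h
    have h3 := h2.add h1
    rw [pow_one] at h3
    refine h3.congr_fun (fun n => ?_)
    cases n with
    | zero => simp [P187o.sh]
    | succ n => simp [P187o.sh]

theorem nsq_hasSum : ∀ psi : List ℂ, HasSum (fun n => ‖psi.getD n 0‖ ^ 2) (nsq psi)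
  | [] => by simp [nsq]
  | x :: xs => by
    have h1 := nsq_hasSum xs
    rw [← hasSum_nat_add_iff' 1]
    simpa [nsq] using h1

theorem dot_nil (xs : List ℂ) : dot xs [] = 0 := by
  cases xs <;> rfl

theorem prod_hasSum {l : ℝ} {f : ℂ → ℂ} (hf : DifferentiableOn ℂ f (ball 0 1))
    (h0 : f 0 = (l : ℂ)) {z : ℂ} (hz : ‖z‖ < 1) : ∀ psi : List ℂ,
    HasSum (fun n => dot psi (revl l (tc f) n) * z ^ n) (pev psi z * f z)
  | [] => by simp [pev, dot]
  | x :: xs => by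
    have h1 := P187o.hasSum_sh 1 (prod_hasSum hf h0 hz xs)
    have h2 := (tc_hasSum hf hz).mul_left x
    have h3 := h2.add h1
    have e : x * f z + z ^ 1 * (pev xs z * f z) = pev (x :: xs) z * f z := by
      simp only [pev]; ring
    rw [e] at h3
    refine h3.congr_fun (fun n => ?_)
    cases n with
    | zero => simp [P187o.sh, revl, dot, dot_nil, tc_zero, h0]
    | succ n =>
      simp only [P187o.sh, revl, dot, Nat.le_add_left, if_true, Nat.add_sub_cancel]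
      ring

theorem GG_eq (psi : List ℂ) (l : ℝ) (a : ℕ → ℂ) : ∀ N : ℕ,
    GG psi (revl l a N) = ∑ n ∈ Finset.range (N + 1), ‖dot psi (revl l a n)‖ ^ 2
  | 0 => by simp [revl, GG]
  | N + 1 => by
    rw [Finset.sum_range_succ, ← GG_eq psi l a N]
    simp only [revl, GG]
    ring

theorem nsq_eq (l : ℝ) (a : ℕ → ℂ) (h0 : a 0 = (l : ℂ)) : ∀ N : ℕ,
    nsq (revl l a N) = ∑ n ∈ Finset.range (N + 1), ‖a n‖ ^ 2
  | 0 => by simp [revl, nsq, h0]
  | N + 1 => by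
    rw [Finset.sum_range_succ, ← nsq_eq l a h0 N]
    simp only [revl, nsq]
    ring

theorem lin_bound (a : ℕ → ℂ) {r : ℝ} (hr : 0 ≤ r) : ∀ (rho : List ℝ) (nu : List ℂ) (n : ℕ)
    (_ : rho.length = nu.length) (_ : ∀ i (h : i < rho.length), r ^ (n + i) ≤ rho[i])
    (_ : ∀ i (h : i < nu.length), ‖a (n + i)‖ ≤ (conj nu[i] * a (n + i)).re),
    ∑ i ∈ Finset.range rho.length, ‖a (n + i)‖ * r ^ (n + i) ≤ linP a n rho nu
  | [], [], n, _, _, _ => by simp [linP]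
  | x :: xs, v :: vs, n, hl, h1, h2 => by
    have ih := lin_bound a hr xs vs (n + 1) (by simpa using hl)
      (fun i h => by
        have := h1 (i + 1) (by simpa using h)
        rw [show n + 1 + i = n + (i + 1) by ring]
        simpa using this)
      (fun i h => by
        have := h2 (i + 1) (by simpa using h)
        rw [show n + 1 + i = n + (i + 1) by ring]
        simpa using this)
    have g1 : r ^ n ≤ x := h1 0 (Nat.succ_pos _)
    have g2 : ‖a n‖ ≤ (conj v * a n).re := h2 0 (Nat.succ_pos _)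
    rw [List.length_cons, Finset.sum_range_succ']
    have e : ∀ i ∈ Finset.range xs.length, ‖a (n + (i + 1))‖ * r ^ (n + (i + 1)) =
        ‖a (n + 1 + i)‖ * r ^ (n + 1 + i) :=
      fun i _ => by rw [show n + (i + 1) = n + 1 + i by ring]
    rw [Finset.sum_congr rfl e, add_zero, linP]
    have g3 : ‖a n‖ * r ^ n ≤ x * (conj v * a n).re := by
      have g4 : 0 ≤ r ^ n := pow_nonneg hr n
      calc ‖a n‖ * r ^ n ≤ ‖a n‖ * x := mul_le_mul_of_nonneg_left g1 (norm_nonneg _)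
        _ ≤ (conj v * a n).re * x := mul_le_mul_of_nonneg_right g2 (g4.trans g1)
        _ = _ := mul_comm _ _
    linarith
  | [], _ :: _, _, h, _, _ => by simp at h
  | _ :: _, [], _, h, _, _ => by simp at h

theorem two_mul_le {x y D k : ℝ} (hD : 0 < D) (hk : y ^ 2 ≤ k) :
    2 * (x * y) ≤ D * x ^ 2 + k / D := by
  have h1 : y ^ 2 / D ≤ k / D := div_le_div_of_nonneg_right hk hD.le
  have h2 : D * x ^ 2 + y ^ 2 / D - 2 * (x * y) = (D * x - y) ^ 2 / D := by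
    field_simp
    ring
  have h3 : 0 ≤ (D * x - y) ^ 2 / D := by positivity
  linarith

theorem quad_bound (a : ℕ → ℂ) {r : ℝ} : ∀ (kap D : List ℝ) (n : ℕ)
    (_ : D.length = kap.length) (_ : ∀ i (h : i < kap.length), r ^ (2 * (n + i)) ≤ kap[i])
    (_ : ∀ x ∈ D, 0 < x),
    ∑ i ∈ Finset.range kap.length, 2 * (‖a (n + i)‖ * r ^ (n + i)) ≤ quadD a n kap D
  | [], [], n, _, _, _ => by simp [quadD]
  | x :: xs, v :: vs, n, hl, h1, h2 => by
    have ih := quad_bound a xs vs (n + 1) (by simpa using hl)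
      (fun i h => by
        have := h1 (i + 1) (by simpa using h)
        rw [show n + 1 + i = n + (i + 1) by ring]
        simpa using this)
      (fun y hy => h2 y (List.mem_cons_of_mem _ hy))
    have g1 : (r ^ n) ^ 2 ≤ x := by
      rw [← pow_mul, mul_comm]
      exact h1 0 (Nat.succ_pos _)
    have g2 : 0 < v := h2 v (by simp)
    rw [List.length_cons, Finset.sum_range_succ']
    have e : ∀ i ∈ Finset.range xs.length, 2 * (‖a (n + (i + 1))‖ * r ^ (n + (i + 1))) =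
        2 * (‖a (n + 1 + i)‖ * r ^ (n + 1 + i)) :=
      fun i _ => by rw [show n + (i + 1) = n + 1 + i by ring]
    rw [Finset.sum_congr rfl e, add_zero, quadD]
    have g3 := two_mul_le (x := ‖a n‖) (y := r ^ n) g2 g1
    linarith
  | [], _ :: _, _, h, _, _ => by simp at h
  | _ :: _, [], _, h, _, _ => by simp at h

theorem tail_bound {r R : ℝ} (hr0 : 0 ≤ r) (hr : r ≤ R) (hR1 : R < 1) (N M : ℕ) :
    ∑ n ∈ Finset.range M, r ^ (2 * (N + 1 + n)) ≤ R ^ (2 * (N + 1)) / (1 - R ^ 2) := by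
  have hr1 : r < 1 := lt_of_le_of_lt hr hR1
  have hR0 : 0 ≤ R := hr0.trans hr
  have hRR : 0 < 1 - R ^ 2 := by nlinarith
  rw [le_div_iff₀ hRR]
  have h1 : ∑ n ∈ Finset.range M, r ^ (2 * (N + 1 + n)) ≤
      ∑ n ∈ Finset.range M, R ^ (2 * (N + 1)) * (R ^ 2) ^ n := by
    refine Finset.sum_le_sum (fun n _ => ?_)
    rw [← pow_mul, ← pow_add, show 2 * (N + 1) + 2 * n = 2 * (N + 1 + n) by ring]
    exact pow_le_pow_left₀ hr0 hr _
  rw [← Finset.mul_sum] at h1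
  have h2 := geom_sum_mul (R ^ 2) M
  have h3 : (∑ n ∈ Finset.range M, (R ^ 2) ^ n) * (1 - R ^ 2) ≤ 1 := by
    have h4 : (∑ n ∈ Finset.range M, (R ^ 2) ^ n) * (1 - R ^ 2) = 1 - (R ^ 2) ^ M := by
      linear_combination -h2
    rw [h4]
    have : 0 ≤ (R ^ 2) ^ M := by positivity
    linarith
  calc (∑ n ∈ Finset.range M, r ^ (2 * (N + 1 + n))) * (1 - R ^ 2)
      ≤ R ^ (2 * (N + 1)) * (∑ n ∈ Finset.range M, (R ^ 2) ^ n) * (1 - R ^ 2) :=
        mul_le_mul_of_nonneg_right h1 hRR.le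
    _ = R ^ (2 * (N + 1)) * ((∑ n ∈ Finset.range M, (R ^ 2) ^ n) * (1 - R ^ 2)) := by ring
    _ ≤ R ^ (2 * (N + 1)) * 1 := mul_le_mul_of_nonneg_left h3 (by positivity)
    _ = _ := mul_one _

/-- Splitting a sum at `NP` and `N`. -/
theorem sum_split (F : ℕ → ℝ) {NP N : ℕ} (hN : NP ≤ N) (M : ℕ) :
    ∑ n ∈ Finset.range (N + M), F (n + 1) =
      ∑ i ∈ Finset.range NP, F (1 + i) + ∑ i ∈ Finset.range (N - NP), F (NP + 1 + i) +
        ∑ i ∈ Finset.range M, F (N + 1 + i) := by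
  rw [Finset.sum_range_add]
  obtain ⟨d, rfl⟩ := Nat.exists_eq_add_of_le hN
  rw [Finset.sum_range_add, Nat.add_sub_cancel_left]
  congr 1
  · congr 1
    · exact Finset.sum_congr rfl (fun i _ => by rw [add_comm])
    · exact Finset.sum_congr rfl (fun i _ => by rw [show NP + i + 1 = NP + 1 + i by ring])
  · exact Finset.sum_congr rfl (fun i _ => by rw [show NP + d + i + 1 = NP + d + 1 + i by ring])

theorem h_nonneg {l s1 α : ℝ} {c : Cert} (hl0 : 0 ≤ l) (hl1 : l ≤ 1 / 2)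
    (hs1 : s1 ≤ 1 / 2) (hk : ‖c.k‖ ≤ c.K) {a1 a2 : ℂ}
    (ha1 : a1 = (((1 - l ^ 2) * α : ℝ) : ℂ))
    (ha2 : ‖a2 + ((l * (1 - l ^ 2) * α ^ 2 : ℝ) : ℂ)‖ ≤ (1 - l ^ 2) * (1 - s1) * (1 - α ^ 2)) :
    0 ≤ (1 - l ^ 2) * ((1 - s1) * c.K + c.m s1 l * c.a0 ^ 2) -
      2 * c.m s1 l * c.a0 * a1.re - (conj c.k * a2).re := by
  have hl2 : 0 < 1 - l ^ 2 := by nlinarith
  have hK : |c.k.re| ≤ c.K := le_trans (abs_re_le_norm _) hk
  have hK0 : 0 ≤ c.K := le_trans (abs_nonneg _) hK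
  have hkr : -c.K ≤ c.k.re := by
    have := neg_abs_le c.k.re
    linarith
  have hm : 0 ≤ c.m s1 l := by
    unfold Cert.m
    have g1 : (1 / 2) * c.K ≤ (1 - s1) * c.K := mul_le_mul_of_nonneg_right (by linarith) hK0
    have g2 : l * (-c.K) ≤ l * c.k.re := mul_le_mul_of_nonneg_left hkr hl0
    have g3 : l * c.K ≤ (1 / 2) * c.K := mul_le_mul_of_nonneg_right hl1 hK0
    linarith
  have e1 : a1.re = (1 - l ^ 2) * α := by rw [ha1, ofReal_re]
  obtain ⟨w, hw⟩ : ∃ w : ℂ, w = a2 + ((l * (1 - l ^ 2) * α ^ 2 : ℝ) : ℂ) := ⟨_, rfl⟩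
  rw [← hw] at ha2
  have e2 : (conj c.k * a2).re = (conj c.k * w).re - l * (1 - l ^ 2) * α ^ 2 * c.k.re := by
    rw [hw, mul_add, add_re]
    have : (conj c.k * ((l * (1 - l ^ 2) * α ^ 2 : ℝ) : ℂ)).re =
        l * (1 - l ^ 2) * α ^ 2 * c.k.re := by
      rw [re_mul_ofReal, conj_re]
      ring
    rw [this]
    ring
  have e3 : (conj c.k * w).re ≤ c.K * ((1 - l ^ 2) * (1 - s1) * (1 - α ^ 2)) := by
    calc (conj c.k * w).re ≤ ‖conj c.k * w‖ := re_le_norm _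
      _ = ‖c.k‖ * ‖w‖ := by rw [norm_mul, RCLike.norm_conj]
      _ ≤ c.K * ((1 - l ^ 2) * (1 - s1) * (1 - α ^ 2)) :=
        mul_le_mul hk ha2 (norm_nonneg _) hK0
  have e4 : 0 ≤ (1 - l ^ 2) * (c.m s1 l * (c.a0 - α) ^ 2) :=
    mul_nonneg hl2.le (mul_nonneg hm (sq_nonneg _))
  rw [e1, e2]
  have e5 : (1 - l ^ 2) * ((1 - s1) * c.K + c.m s1 l * c.a0 ^ 2) -
      2 * c.m s1 l * c.a0 * ((1 - l ^ 2) * α) -
      (c.K * ((1 - l ^ 2) * (1 - s1) * (1 - α ^ 2)) - l * (1 - l ^ 2) * α ^ 2 * c.k.re) =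
      (1 - l ^ 2) * (c.m s1 l * (c.a0 - α) ^ 2) := by
    unfold Cert.m
    ring
  linarith

end AnaAux

open AnaAux

theorem GG_le {l : ℝ} {f : ℂ → ℂ} (hf : f ∈ FClass l) (psi : List ℂ) (N : ℕ) :
    GG psi (revl l (tc f) N) ≤ nsq psi := by
  obtain ⟨hfd, hfb, hf0⟩ := hf
  have hh : DifferentiableOn ℂ (pev psi) (ball 0 1) := pev_diff psi
  have hg : DifferentiableOn ℂ (fun z => pev psi z * f z) (ball 0 1) := hh.mul hfd
  have e1 : ∀ n, tc (fun z => pev psi z * f z) n = dot psi (revl l (tc f) n) :=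
    tc_eq (fun z hz => prod_hasSum hfd hf0 hz psi)
  have e2 : ∀ n, tc (pev psi) n = psi.getD n 0 := tc_eq (fun z _ => pev_hasSum z psi)
  have e3 : HasSum (fun n => ‖tc (pev psi) n‖ ^ 2) (nsq psi) := by
    simp_rw [e2]
    exact nsq_hasSum psi
  have h := P187o.sum_sq_le_of_norm_le hg hh (fun z hz => by
    rw [norm_mul]
    exact mul_le_of_le_one_right (norm_nonneg _) (hfb z (by simpa using hz)).le) e3.summable
    (N + 1)
  rw [e3.tsum_eq] at h
  simp_rw [e1] at h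
  rw [GG_eq]
  exact h

theorem main_ineq {l R s1 s2 : ℝ} {NP N : ℕ} (hl0 : 0 ≤ l) (hl1 : l ≤ 1 / 2) (hs0 : 0 ≤ s1)
    (hs1 : s1 ≤ 1 / 2) (hNP : 1 ≤ NP) (hN : NP ≤ N) (hN2 : 2 ≤ N) (hR0 : 0 ≤ R) (hR1 : R < 1)
    {e : EndC} (hel : e.l = l) (he : e.Good NP N R) {c : Cert} (hc : c.Good (N - NP))
    {nus : List ℂ} (hnu : nus.length + 1 = NP) {f : ℂ → ℂ} (hf : f ∈ FClass l) {α : ℝ}
    (hα0 : 0 ≤ α) (hα1 : α ≤ 1 - s2) (ha1 : tc f 1 = (((1 - l ^ 2) * α : ℝ) : ℂ))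
    (ha2 : ‖tc f 2 + ((l * (1 - l ^ 2) * α ^ 2 : ℝ) : ℂ)‖ ≤ (1 - l ^ 2) * (1 - s1) * (1 - α ^ 2))
    (hcell : ∀ (i : ℕ) (h : i < nus.length),
      ‖tc f (i + 2)‖ ≤ (conj nus[i] * tc f (i + 2)).re)
    {r : ℝ} (hr0 : 0 ≤ r) (hr : r ≤ R) :
    2 * (maj l f r - l) ≤ FF c s1 s2 N e (1 :: nus) (tc f) := by
  have hGG := GG_le hf c.psi N
  obtain ⟨hfd, hfb, hf0⟩ := hf
  have hl2 : 0 < 1 - l ^ 2 := by nlinarith
  have hr1 : r < 1 := lt_of_le_of_lt hr hR1
  have hcoef : ∀ M, ∑ n ∈ Finset.range M, ‖tc f n‖ ^ 2 ≤ 1 :=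
    fun M => sum_sq_le hfd (fun z hz => (hfb z (by simpa using hz)).le) M
  have h0 : tc f 0 = (l : ℂ) := by rw [tc_zero, hf0]
  -- the three ranges
  have hrl := he.rho_len
  have hkl := he.kap_len
  have b1 : ∑ i ∈ Finset.range NP, ‖tc f (1 + i)‖ * r ^ (1 + i) ≤
      linP (tc f) 1 e.rho (1 :: nus) := by
    have h := lin_bound (tc f) hr0 e.rho (1 :: nus) 1 (by simp [hrl, hnu])
      (fun i h => by
        have g := he.rho_le i h
        rw [add_comm 1 i]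
        exact (pow_le_pow_left₀ hr0 hr _).trans g)
      (fun i h => by
        cases i with
        | zero =>
          simp only [add_zero, List.getElem_cons_zero, map_one, one_mul]
          rw [ha1, norm_real, Real.norm_eq_abs, ofReal_re,
            abs_of_nonneg (mul_nonneg hl2.le hα0)]
        | succ i =>
          have g := hcell i (by simpa using h)
          rw [show 1 + (i + 1) = i + 2 by ring]
          simpa using g)
    rw [hrl] at h
    exact h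
  have b2 : ∑ i ∈ Finset.range (N - NP), 2 * (‖tc f (NP + 1 + i)‖ * r ^ (NP + 1 + i)) ≤
      quadD (tc f) (NP + 1) e.kap c.D := by
    have h := quad_bound (tc f) (r := r) e.kap c.D (NP + 1) (by rw [hc.len, hkl])
      (fun i h => (pow_le_pow_left₀ hr0 hr _).trans (he.kap_le i h)) hc.D_pos
    rw [hkl] at h
    exact h
  have hq := hc.q_pos
  have b3 : ∀ M, ∑ i ∈ Finset.range M, 2 * (‖tc f (N + 1 + i)‖ * r ^ (N + 1 + i)) ≤
      c.q * (1 - nsq (revl l (tc f) N)) + e.tau / c.q := by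
    intro M
    have g1 : ∑ i ∈ Finset.range M, 2 * (‖tc f (N + 1 + i)‖ * r ^ (N + 1 + i)) ≤
        ∑ i ∈ Finset.range M, (c.q * ‖tc f (N + 1 + i)‖ ^ 2 + r ^ (2 * (N + 1 + i)) / c.q) := by
      refine Finset.sum_le_sum (fun i _ => two_mul_le hq ?_)
      rw [← pow_mul, mul_comm]
    have g2 : ∑ i ∈ Finset.range M, (c.q * ‖tc f (N + 1 + i)‖ ^ 2 +
        r ^ (2 * (N + 1 + i)) / c.q) = c.q * (∑ i ∈ Finset.range M, ‖tc f (N + 1 + i)‖ ^ 2) +
          (∑ i ∈ Finset.range M, r ^ (2 * (N + 1 + i))) / c.q := by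
      rw [Finset.sum_add_distrib, Finset.mul_sum, Finset.sum_div]
    have g3 : (∑ i ∈ Finset.range M, ‖tc f (N + 1 + i)‖ ^ 2) ≤ 1 - nsq (revl l (tc f) N) := by
      have g := hcoef (N + 1 + M)
      rw [Finset.sum_range_add] at g
      rw [nsq_eq l (tc f) h0 N]
      linarith
    have g4 : (∑ i ∈ Finset.range M, r ^ (2 * (N + 1 + i))) / c.q ≤ e.tau / c.q :=
      div_le_div_of_nonneg_right ((tail_bound hr0 hr hR1 N M).trans he.tau_le) hq.le
    have g5 := mul_le_mul_of_nonneg_left g3 hq.le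
    rw [g2] at g1
    linarith
  have b4 := h_nonneg (c := c) (α := α) hl0 hl1 hs1 hc.k_le ha1 ha2
  have b5 : 0 ≤ 2 * c.k1 * ((1 - l ^ 2) * (1 - s2) - (tc f 1).re) := by
    rw [ha1, ofReal_re]
    have g : 0 ≤ (1 - l ^ 2) * ((1 - s2) - α) := mul_nonneg hl2.le (by linarith)
    have g' := mul_nonneg (mul_nonneg (by norm_num : (0 : ℝ) ≤ 2) hc.k1_nonneg) g
    have : 2 * c.k1 * ((1 - l ^ 2) * (1 - s2) - (1 - l ^ 2) * α) =
        2 * c.k1 * ((1 - l ^ 2) * ((1 - s2) - α)) := by ring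
    rw [this]
    exact g'
  -- the sum
  have hsum : ∀ M, ∑ n ∈ Finset.range M, ‖tc f (n + 1)‖ * r ^ (n + 1) ≤
      FF c s1 s2 N e (1 :: nus) (tc f) / 2 := by
    intro M
    have g1 : ∑ n ∈ Finset.range M, ‖tc f (n + 1)‖ * r ^ (n + 1) ≤
        ∑ n ∈ Finset.range (N + M), ‖tc f (n + 1)‖ * r ^ (n + 1) :=
      Finset.sum_le_sum_of_subset_of_nonneg
        (Finset.range_subset_range.2 (Nat.le_add_left _ _))
        (fun n _ _ => mul_nonneg (norm_nonneg _) (pow_nonneg hr0 _))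
    have g2 := sum_split (fun n => ‖tc f n‖ * r ^ n) hN M
    rw [g2] at g1
    have g3 := b3 M
    rw [← Finset.mul_sum] at g3 b2
    unfold FF
    rw [hel, hrl]
    linarith
  rw [show maj l f r = l + ∑' n : ℕ, ‖tc f (n + 1)‖ * r ^ (n + 1) from rfl]
  have hts : ∑' n : ℕ, ‖tc f (n + 1)‖ * r ^ (n + 1) ≤ FF c s1 s2 N e (1 :: nus) (tc f) / 2 :=
    Real.tsum_le_of_sum_range_le (fun n => mul_nonneg (norm_nonneg _) (pow_nonneg hr0 _)) hsum
  linarith

theorem far_of_ends {R1 R2 s1 s2 : ℝ} {NP N : ℕ} (hs0 : 0 ≤ s1)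
    (hs1 : s1 ≤ 1 / 2) (hs2 : 0 ≤ s2) (hNP : 1 ≤ NP) (hN : NP ≤ N) (hN2 : 2 ≤ N)
    (h1 : 0 ≤ R1) (h1' : R1 < 1) (h2 : 0 ≤ R2) (h2' : R2 < 1)
    {e1 e2 : EndC} (hl1 : 0 ≤ e1.l) (hl12 : e1.l < e2.l) (hl2 : e2.l ≤ 1 / 2)
    (he1 : e1.Good NP N R1) (he2 : e2.Good NP N R2) {c : Cert} (hc : c.Good (N - NP))
    {nus : List ℂ} (hnu : nus.length + 1 = NP) {l : ℝ} (hll : e1.l ≤ l) (hlr : l ≤ e2.l)
    {f : ℂ → ℂ} (hf : f ∈ FClass l) {α : ℝ}
    (hα0 : 0 ≤ α) (hα1 : α ≤ 1 - s2) (ha1 : tc f 1 = (((1 - l ^ 2) * α : ℝ) : ℂ))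
    (ha2 : ‖tc f 2 + ((l * (1 - l ^ 2) * α ^ 2 : ℝ) : ℂ)‖ ≤ (1 - l ^ 2) * (1 - s1) * (1 - α ^ 2))
    (hcell : ∀ (i : ℕ) (h : i < nus.length),
      ‖tc f (i + 2)‖ ≤ (conj nus[i] * tc f (i + 2)).re)
    (hF1 : FF c s1 s2 N e1 (1 :: nus) (tc f) + c.curv * (e2.l - e1.l) ^ 2 / 8 < 2 * (1 - e1.l))
    (hF2 : FF c s1 s2 N e2 (1 :: nus) (tc f) + c.curv * (e2.l - e1.l) ^ 2 / 8 < 2 * (1 - e2.l))
    {r : ℝ} (hr0 : 0 ≤ r) (hr : r ≤ R1 + (R2 - R1) * ((l - e1.l) / (e2.l - e1.l))) :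
    maj l f r < 1 := by
  have hd : 0 < e2.l - e1.l := sub_pos.2 hl12
  obtain ⟨t, ht⟩ : ∃ t, t = (l - e1.l) / (e2.l - e1.l) := ⟨_, rfl⟩
  rw [← ht] at hr
  have ht0 : 0 ≤ t := by rw [ht]; exact div_nonneg (by linarith) hd.le
  have ht1 : t ≤ 1 := by rw [ht, div_le_one hd]; linarith
  have hlt : (1 - t) * e1.l + t * e2.l = l := by
    have : t * (e2.l - e1.l) = l - e1.l := by rw [ht, div_mul_cancel₀ _ hd.ne']
    linarith
  have hg := mixE_good ht0 ht1 h1 h1' h2 h2' he1 he2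
  have hR0 : 0 ≤ (1 - t) * R1 + t * R2 :=
    add_nonneg (mul_nonneg (by linarith) h1) (mul_nonneg ht0 h2)
  have hR1 : (1 - t) * R1 + t * R2 < 1 := by
    rcases eq_or_lt_of_le ht0 with h | h
    · rw [← h]; linarith
    · have g1 : (1 - t) * R1 ≤ (1 - t) * 1 := mul_le_mul_of_nonneg_left h1'.le (by linarith)
      have g2 : t * R2 < t * 1 := mul_lt_mul_of_pos_left h2' h
      linarith
  have hm := main_ineq (e := mixE t e1 e2) (hl1.trans hll) (hlr.trans hl2) hs0 hs1 hNP hN hN2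
    hR0 hR1 hlt hg hc hnu hf hα0 hα1 ha1 ha2 hcell hr0 (hr.trans (by linarith))
  have hch := chord ht0 ht1 hl1 hl12.le hl2 hs0 (by linarith) hs2
    (by rw [he1.rho_len, he2.rho_len]) (by rw [he1.kap_len, he2.kap_len]) hc (1 :: nus) (tc f)
  have key : (1 - t) * FF c s1 s2 N e1 (1 :: nus) (tc f) +
      t * FF c s1 s2 N e2 (1 :: nus) (tc f) + c.curv * (e2.l - e1.l) ^ 2 / 8 <
      2 * (1 - l) := by
    rcases eq_or_lt_of_le ht0 with h | h
    · have : l = e1.l := by rw [← hlt, ← h]; ring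
      rw [← h, this]
      linarith
    · have g1 := mul_le_mul_of_nonneg_left hF1.le (sub_nonneg.2 ht1)
      have g2 := mul_lt_mul_of_pos_left hF2 h
      rw [← hlt]
      nlinarith
  linarith

end Pool.Agent.BFC
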