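import Mathlib

set_option autoImplicit false

/-!
# BFC.Cone: cones with integer rays and the soundness of the cone tree

A complex number `a` lies in the cone `(p, p')` if `0 ≤ cross p a` and `cross p' a ≤ 0`.  The checker `okCone` computes a
functional `nu` (scale `2^20`) with `2^20 |a| ≤ nu · a` on the cone.  `walk leaf T cs` goes through a tree of subdivisions of
the cones `cs`; `walk_sound` transfers the soundness of the leaf predicate to the whole cell.  `rootCells` are the quadrants.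
-/

namespace Pool.Agent.Lib.BFC

/-- cross product of two integer rays -/
def crossZ (p q : ℤ × ℤ) : ℤ := p.1 * q.2 - p.2 * q.1

/-- dot product of two integer rays -/
def dotZ (p q : ℤ × ℤ) : ℤ := p.1 * q.1 + p.2 * q.2

/-- cross product of an integer ray and a complex number -/
noncomputable def crossR (p : ℤ × ℤ) (a : ℂ) : ℝ := (p.1 : ℝ) * a.im - (p.2 : ℝ) * a.re

/-- a cone with two integer rays, in positive order -/
structure Cone where
  p : ℤ × ℤ
  p' : ℤ × ℤ
deriving DecidableEq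

/-- membership in a cone -/
def Cone.Mem (c : Cone) (a : ℂ) : Prop := 0 ≤ crossR c.p a ∧ crossR c.p' a ≤ 0

/-- the functional of a cone at scale `2^20`: a multiple of `p + p'`, rounded; it is good for rays with `|p|` close to
`2^16` (`|p| ≤ (|p|^2 + 2^32) / 2^17`) -/
def nuOf (c : Cone) : ℤ × ℤ :=
  let w : ℤ × ℤ := (c.p.1 + c.p'.1, c.p.2 + c.p'.2)
  let s : ℤ := 2 ^ 40 * ((dotZ c.p c.p + 2 ^ 32) / 2 ^ 17 + 2) / dotZ w c.p
  let s' : ℤ := 2 ^ 40 * ((dotZ c.p' c.p' + 2 ^ 32) / 2 ^ 17 + 2) / dotZ w c.p'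
  let t : ℤ := if s ≤ s' then s' else s
  (w.1 * t / 2 ^ 20, w.2 * t / 2 ^ 20)

/-- `2^20 |p| ≤ n · p` -/
def okRay (n p : ℤ × ℤ) : Bool :=
  let t := dotZ n p
  decide (0 ≤ t) && decide (2 ^ 40 * dotZ p p ≤ t * t)

/-- the cone is nondegenerate and `n` dominates the absolute value on both rays -/
def okCone (c : Cone) (n : ℤ × ℤ) : Bool :=
  decide (0 < crossZ c.p c.p') && okRay n c.p && okRay n c.p'

lemma okRay_sound {n p : ℤ × ℤ} (h : okRay n p = true) :
    2 ^ 20 * Real.sqrt ((dotZ p p : ℤ) : ℝ) ≤ ((dotZ n p : ℤ) : ℝ) := by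
  unfold okRay at h
  simp only [Bool.and_eq_true, decide_eq_true_eq] at h
  obtain ⟨h1, h2⟩ := h
  have h1' : (0:ℝ) ≤ ((dotZ n p : ℤ) : ℝ) := by exact_mod_cast h1
  have h2' : (2:ℝ) ^ 40 * ((dotZ p p : ℤ) : ℝ) ≤ ((dotZ n p : ℤ) : ℝ) * ((dotZ n p : ℤ) : ℝ) := by
    exact_mod_cast h2
  have h3 : (0:ℝ) ≤ ((dotZ p p : ℤ) : ℝ) := by
    have : 0 ≤ dotZ p p := by unfold dotZ; nlinarith [mul_self_nonneg p.1, mul_self_nonneg p.2]
    exact_mod_cast this
  rw [← Real.sqrt_sq h1']
  have h4 : (2:ℝ) ^ 20 * Real.sqrt ((dotZ p p : ℤ) : ℝ) = Real.sqrt (2 ^ 40 * ((dotZ p p : ℤ) : ℝ)) := by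
    rw [Real.sqrt_mul (by norm_num)]
    congr 1
    rw [show (2:ℝ) ^ 40 = (2 ^ 20) ^ 2 by norm_num, Real.sqrt_sq (by norm_num)]
  rw [h4]
  apply Real.sqrt_le_sqrt
  rw [sq]
  exact h2'

/-- the functional dominates the absolute value on the cone -/
theorem okCone_sound {c : Cone} {n : ℤ × ℤ} (h : okCone c n = true) {a : ℂ} (ha : c.Mem a) :
    2 ^ 20 * ‖a‖ ≤ (n.1 : ℝ) * a.re + (n.2 : ℝ) * a.im := by
  unfold okCone at h
  simp only [Bool.and_eq_true, decide_eq_true_eq] at h
  obtain ⟨⟨h0, h1⟩, h2⟩ := h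
  have k1 := okRay_sound h1
  have k2 := okRay_sound h2
  obtain ⟨a1, a2⟩ := ha
  set X : ℝ := ((crossZ c.p c.p' : ℤ) : ℝ) with hX
  have hX0 : 0 < X := by rw [hX]; exact_mod_cast h0
  have hXe : X = (c.p.1 : ℝ) * c.p'.2 - (c.p.2 : ℝ) * c.p'.1 := by rw [hX]; unfold crossZ; push_cast; ring
  set al : ℝ := - crossR c.p' a / X with hal
  set be : ℝ := crossR c.p a / X with hbe
  have hal0 : 0 ≤ al := div_nonneg (by linarith) hX0.le
  have hbe0 : 0 ≤ be := div_nonneg a1 hX0.le
  have e1 : X * a.re = - crossR c.p' a * c.p.1 + crossR c.p a * c.p'.1 := by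
    unfold crossR; rw [hXe]; ring
  have e2 : X * a.im = - crossR c.p' a * c.p.2 + crossR c.p a * c.p'.2 := by
    unfold crossR; rw [hXe]; ring
  have r1 : a.re = al * c.p.1 + be * c.p'.1 := by
    rw [hal, hbe]; field_simp; linarith
  have r2 : a.im = al * c.p.2 + be * c.p'.2 := by
    rw [hal, hbe]; field_simp; linarith
  have hz : a = (al : ℂ) * ⟨c.p.1, c.p.2⟩ + (be : ℂ) * ⟨c.p'.1, c.p'.2⟩ := by
    apply Complex.ext
    · simp only [Complex.add_re, Complex.re_ofReal_mul]; exact r1
    · simp only [Complex.add_im, Complex.im_ofReal_mul]; exact r2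
  have nrm : ∀ p : ℤ × ℤ, ‖(⟨(p.1 : ℝ), (p.2 : ℝ)⟩ : ℂ)‖ = Real.sqrt ((dotZ p p : ℤ) : ℝ) := by
    intro p
    rw [Complex.norm_def, Complex.normSq_mk]
    unfold dotZ
    push_cast
    ring_nf
  have hb : ‖a‖ ≤ al * Real.sqrt ((dotZ c.p c.p : ℤ) : ℝ) + be * Real.sqrt ((dotZ c.p' c.p' : ℤ) : ℝ) := by
    calc ‖a‖ = ‖(al : ℂ) * ⟨c.p.1, c.p.2⟩ + (be : ℂ) * ⟨c.p'.1, c.p'.2⟩‖ := by rw [← hz]
      _ ≤ ‖(al : ℂ) * ⟨c.p.1, c.p.2⟩‖ + ‖(be : ℂ) * ⟨c.p'.1, c.p'.2⟩‖ := norm_add_le _ _
      _ = _ := by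
        rw [norm_mul, norm_mul, Complex.norm_real, Complex.norm_real, Real.norm_of_nonneg hal0,
          Real.norm_of_nonneg hbe0, nrm, nrm]
  have k1' := mul_le_mul_of_nonneg_left k1 hal0
  have k2' := mul_le_mul_of_nonneg_left k2 hbe0
  have e3 : (n.1 : ℝ) * a.re + (n.2 : ℝ) * a.im =
      al * ((dotZ n c.p : ℤ) : ℝ) + be * ((dotZ n c.p' : ℤ) : ℝ) := by
    rw [r1, r2]; unfold dotZ; push_cast; ring
  rw [e3]
  nlinarith [hb]

/-- trees of subdivisions; a node splits the cone number `i` by the ray `(x, y)` -/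
inductive Tree where
  | leaf (code : ℕ) : Tree
  | node (i : ℕ) (x y : ℤ) (l r : Tree) : Tree

/-- the walk through a tree -/
def walk (leaf : List Cone → ℕ → Bool) : Tree → List Cone → Bool
  | .leaf code, cs => leaf cs code
  | .node i x y l r, cs =>
    match cs[i]? with
    | none => false
    | some c => walk leaf l (cs.set i ⟨c.p, (x, y)⟩) && walk leaf r (cs.set i ⟨(x, y), c.p'⟩)

/-- the cell of a list of cones -/
def InCell (cs : List Cone) (a : ℕ → ℂ) : Prop :=
  ∀ (i : ℕ) (c : Cone), cs[i]? = some c → c.Mem (a i)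

lemma InCell.set {cs : List Cone} {a : ℕ → ℂ} (h : InCell cs a) {i : ℕ} {c : Cone}
    (hc : c.Mem (a i)) : InCell (cs.set i c) a := by
  intro j d hj
  rw [List.getElem?_set] at hj
  by_cases hij : i = j
  · subst hij
    rw [if_pos rfl] at hj
    split_ifs at hj with hl
    · simp only [Option.some.injEq] at hj
      rw [← hj]; exact hc
  · rw [if_neg hij] at hj
    exact h j d hj

/-- soundness of the walk for a sound leaf predicate -/
theorem walk_sound {leaf : List Cone → ℕ → Bool} {P : (ℕ → ℂ) → Prop}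
    (hleaf : ∀ cs code, leaf cs code = true → ∀ a, InCell cs a → P a) :
    ∀ (T : Tree) (cs : List Cone), walk leaf T cs = true → ∀ a, InCell cs a → P a := by
  intro T
  induction T with
  | leaf code => intro cs h a ha; exact hleaf cs code h a ha
  | node i x y l r ihl ihr =>
    intro cs h a ha
    unfold walk at h
    split at h
    · exact absurd h (by simp)
    · rename_i c hc
      rw [Bool.and_eq_true] at h
      have hm := ha i c hc
      rcases le_total 0 (crossR (x, y) (a i)) with hx | hx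
      · exact ihr _ h.2 a (ha.set ⟨hx, hm.2⟩)
      · exact ihl _ h.1 a (ha.set ⟨hm.1, hx⟩)

/-- the walk through a list of trees on a list of cells -/
def walkAll (leaf : List Cone → ℕ → Bool) : List Tree → List (List Cone) → Bool
  | _, [] => true
  | [], _ :: _ => false
  | T :: Ts, cs :: css => walk leaf T cs && walkAll leaf Ts css

theorem walkAll_sound {leaf : List Cone → ℕ → Bool} {P : (ℕ → ℂ) → Prop}
    (hleaf : ∀ cs code, leaf cs code = true → ∀ a, InCell cs a → P a) :
    ∀ (css : List (List Cone)) (Ts : List Tree), walkAll leaf Ts css = true →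
      ∀ cs ∈ css, ∀ a, InCell cs a → P a := by
  intro css
  induction css with
  | nil => intro Ts _ cs hcs; exact absurd hcs (by simp)
  | cons c css ih =>
    intro Ts h cs hcs a ha
    cases Ts with
    | nil => simp [walkAll] at h
    | cons T Ts =>
      unfold walkAll at h
      rw [Bool.and_eq_true] at h
      rcases List.mem_cons.1 hcs with rfl | hcs
      · exact walk_sound hleaf T _ h.1 a ha
      · exact ih Ts h.2 cs hcs a ha

/-! the quadrants -/

/-- the four quadrants -/
def quads : List Cone :=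
  [⟨(65536, 0), (0, 65536)⟩, ⟨(0, 65536), (-65536, 0)⟩, ⟨(-65536, 0), (0, -65536)⟩,
    ⟨(0, -65536), (65536, 0)⟩]

/-- the two upper quadrants -/
def upper : List Cone := [⟨(65536, 0), (0, 65536)⟩, ⟨(0, 65536), (-65536, 0)⟩]

/-- all products of `n` quadrants -/
def prods : ℕ → List (List Cone)
  | 0 => [[]]
  | n + 1 => quads.flatMap fun q => (prods n).map fun cs => q :: cs

/-- the root cells: an upper quadrant and `n` quadrants -/
def rootCells (n : ℕ) : List (List Cone) := upper.flatMap fun q => (prods n).map fun cs => q :: cs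

lemma crossR_mk (x y : ℤ) (a : ℂ) : crossR (x, y) a = (x : ℝ) * a.im - (y : ℝ) * a.re := rfl

lemma exists_upper {a : ℂ} (h : 0 ≤ a.im) : ∃ q ∈ upper, q.Mem a := by
  rcases le_total 0 a.re with h1 | h1
  · refine ⟨⟨(65536, 0), (0, 65536)⟩, by simp [upper], ?_, ?_⟩
    · rw [crossR_mk]; push_cast; nlinarith
    · rw [crossR_mk]; push_cast; nlinarith
  · refine ⟨⟨(0, 65536), (-65536, 0)⟩, by simp [upper], ?_, ?_⟩
    · rw [crossR_mk]; push_cast; nlinarith
    · rw [crossR_mk]; push_cast; nlinarith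

lemma exists_quad (a : ℂ) : ∃ q ∈ quads, q.Mem a := by
  rcases le_total 0 a.im with h | h
  · obtain ⟨q, hq, hm⟩ := exists_upper h
    refine ⟨q, ?_, hm⟩
    simp only [upper, List.mem_cons, List.not_mem_nil, or_false] at hq
    rcases hq with rfl | rfl <;> simp [quads]
  · rcases le_total 0 a.re with h1 | h1
    · refine ⟨⟨(0, -65536), (65536, 0)⟩, by simp [quads], ?_, ?_⟩
      · rw [crossR_mk]; push_cast; nlinarith
      · rw [crossR_mk]; push_cast; nlinarith
    · refine ⟨⟨(-65536, 0), (0, -65536)⟩, by simp [quads], ?_, ?_⟩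
      · rw [crossR_mk]; push_cast; nlinarith
      · rw [crossR_mk]; push_cast; nlinarith

lemma inCell_nil (a : ℕ → ℂ) : InCell [] a := by
  intro i c h; simp at h

lemma inCell_cons {c : Cone} {cs : List Cone} {a : ℕ → ℂ} (h0 : c.Mem (a 0))
    (h : InCell cs fun n => a (n + 1)) : InCell (c :: cs) a := by
  intro i d hd
  cases i with
  | zero =>
    rw [List.getElem?_cons_zero, Option.some.injEq] at hd
    rw [← hd]; exact h0
  | succ i =>
    rw [List.getElem?_cons_succ] at hd
    exact h i d hd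

lemma exists_prods (n : ℕ) (a : ℕ → ℂ) : ∃ cs ∈ prods n, InCell cs a := by
  induction n generalizing a with
  | zero => exact ⟨[], by simp [prods], inCell_nil a⟩
  | succ n ih =>
    obtain ⟨q, hq, hm⟩ := exists_quad (a 0)
    obtain ⟨cs, hcs, hin⟩ := ih fun n => a (n + 1)
    refine ⟨q :: cs, ?_, inCell_cons hm hin⟩
    unfold prods
    rw [List.mem_flatMap]
    exact ⟨q, hq, List.mem_map.2 ⟨cs, hcs, rfl⟩⟩

/-- the root cells cover the sequences with `0 ≤ Im a₀` -/
theorem exists_root (n : ℕ) {a : ℕ → ℂ} (h : 0 ≤ (a 0).im) : ∃ cs ∈ rootCells n, InCell cs a := by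
  obtain ⟨q, hq, hm⟩ := exists_upper h
  obtain ⟨cs, hcs, hin⟩ := exists_prods n fun n => a (n + 1)
  refine ⟨q :: cs, ?_, inCell_cons hm hin⟩
  unfold rootCells
  rw [List.mem_flatMap]
  exact ⟨q, hq, List.mem_map.2 ⟨cs, hcs, rfl⟩⟩

/-- the check on the root cells gives the property for `0 ≤ Im a₀` -/
theorem roots_sound {leaf : List Cone → ℕ → Bool} {P : (ℕ → ℂ) → Prop}
    (hleaf : ∀ cs code, leaf cs code = true → ∀ a, InCell cs a → P a) (n : ℕ) {Ts : List Tree}
    (h : walkAll leaf Ts (rootCells n) = true) {a : ℕ → ℂ} (ha : 0 ≤ (a 0).im) : P a := by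
  obtain ⟨cs, hcs, hin⟩ := exists_root n ha
  exact walkAll_sound hleaf _ Ts h cs hcs a hin

/-- the same without the condition, if the property is invariant under conjugation -/
theorem roots_sound_conj {leaf : List Cone → ℕ → Bool} {P : (ℕ → ℂ) → Prop}
    (hleaf : ∀ cs code, leaf cs code = true → ∀ a, InCell cs a → P a)
    (hconj : ∀ a, P (fun n => (starRingEnd ℂ) (a n)) → P a) (n : ℕ) {Ts : List Tree}
    (h : walkAll leaf Ts (rootCells n) = true) (a : ℕ → ℂ) : P a := by
  rcases le_total 0 (a 0).im with ha | ha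
  · exact roots_sound hleaf n h ha
  · refine hconj a (roots_sound hleaf n h ?_)
    rw [Complex.conj_im]
    linarith

/-- splitting the list of cells over several modules -/
theorem walkAll_append {leaf : List Cone → ℕ → Bool} :
    ∀ (css css' : List (List Cone)) (Ts Ts' : List Tree), Ts.length = css.length →
      walkAll leaf Ts css = true → walkAll leaf Ts' css' = true →
      walkAll leaf (Ts ++ Ts') (css ++ css') = true := by
  intro css
  induction css with
  | nil =>
    intro css' Ts Ts' hl _ h'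
    rw [List.length_nil, List.length_eq_zero_iff] at hl
    subst hl
    exact h'
  | cons c css ih =>
    intro css' Ts Ts' hl h h'
    cases Ts with
    | nil => simp at hl
    | cons T Ts =>
      unfold walkAll at h
      rw [Bool.and_eq_true] at h
      simp only [List.cons_append]
      unfold walkAll
      rw [Bool.and_eq_true]
      exact ⟨h.1, ih css' Ts Ts' (by simpa using hl) h.2 h'⟩

end Pool.Agent.Lib.BFC
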