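import Pool.Agent.Lib.P187f6b.Basic
import Pool.Agent.Lib.P187f6b.Defs

set_option autoImplicit false

/-!
# BFC.Conj: the symmetry `f ↦ conj (f (conj z))`
-/

open Complex Metric Set
open scoped ComplexConjugate
open Pool.Agent.P187f6b

namespace Pool.Agent.Lib.BFC

/-- `f*(z) = conj (f (conj z))` -/
noncomputable def fstar (f : ℂ → ℂ) : ℂ → ℂ := fun z => conj (f (conj z))

lemma conj_mem_ball {z : ℂ} (hz : z ∈ ball (0 : ℂ) 1) : conj z ∈ ball (0 : ℂ) 1 := by
  rw [mem_ball_zero_iff] at hz ⊢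
  rwa [Complex.norm_conj]

lemma fstar_diff {f : ℂ → ℂ} (hf : DifferentiableOn ℂ f (ball 0 1)) :
    DifferentiableOn ℂ (fstar f) (ball 0 1) := by
  intro z hz
  have h1 : DifferentiableAt ℂ f (conj z) :=
    hf.differentiableAt (isOpen_ball.mem_nhds (conj_mem_ball hz))
  have h2 := h1.conj_conj
  rw [Complex.conj_conj] at h2
  exact (show DifferentiableAt ℂ (fstar f) z from h2).differentiableWithinAt

lemma tc_fstar {f : ℂ → ℂ} (hf : DifferentiableOn ℂ f (ball 0 1)) (n : ℕ) :
    tc (fstar f) n = conj (tc f n) := by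
  refine tc_eq (c := fun k => conj (tc f k)) (fun z hz => ?_) n
  have h1 := tc_hasSum hf (z := conj z) (by rwa [Complex.norm_conj])
  have h2 := h1.map (starRingEnd ℂ) Complex.continuous_conj
  refine h2.congr_fun fun k => ?_
  simp only [Function.comp, map_mul, map_pow, Complex.conj_conj]

lemma fstar_mem {l : ℝ} {f : ℂ → ℂ} (hf : f ∈ FClass l) : fstar f ∈ FClass l := by
  obtain ⟨h1, h2, h3⟩ := hf
  refine ⟨fstar_diff h1, fun z hz => ?_, ?_⟩
  · unfold fstar
    rw [Complex.norm_conj]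
    exact h2 _ (conj_mem_ball hz)
  · unfold fstar
    rw [map_zero, h3, Complex.conj_ofReal]

lemma maj_fstar {l : ℝ} {f : ℂ → ℂ} (hf : f ∈ FClass l) (r : ℝ) :
    maj l (fstar f) r = maj l f r := by
  unfold maj
  congr 1
  refine tsum_congr fun n => ?_
  have h := tc_fstar hf.1 (n + 1)
  unfold tc at h
  rw [h, Complex.norm_conj]

lemma fstar_fstar (f : ℂ → ℂ) : fstar (fstar f) = f := by
  funext z
  unfold fstar
  rw [Complex.conj_conj, Complex.conj_conj]

end Pool.Agent.Lib.BFC
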