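import Pool.Agent.Lib.BFC.Ident

/-!
# The part of the form which contains the constant term of the function
-/

set_option autoImplicit false

open scoped ComplexConjugate

namespace Pool.Agent.BFC

/-- `[a n, ..., a 1]` -/
def dn (a : ℕ → ℂ) : ℕ → List ℂ
  | 0 => []
  | n + 1 => a (n + 1) :: dn a n

/-- `[conj (a n), ..., conj (a (n + k - 1))]` -/
noncomputable def ua (a : ℕ → ℂ) (n : ℕ) : ℕ → List ℂ
  | 0 => []
  | k + 1 => conj (a n) :: ua a (n + 1) k

lemma dn_length (a : ℕ → ℂ) (n : ℕ) : (dn a n).length = n := by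
  induction n with
  | zero => rfl
  | succ n ih => simp [dn, ih]

lemma ua_length (a : ℕ → ℂ) (k : ℕ) : ∀ n, (ua a n k).length = k := by
  induction k with
  | zero => intro n; rfl
  | succ k ih => intro n; simp [ua, ih]

lemma revl_eq (l : ℝ) (a : ℕ → ℂ) (n : ℕ) : revl l a n = dn a n ++ [(l : ℂ)] := by
  induction n with
  | zero => rfl
  | succ n ih => simp [revl, dn, ih]

lemma gt_nil (i : ℕ) : (gt [] i).toC = 0 := by
  simp [gt, ZN.toC, Complex.ext_iff]

lemma gt_zero (p : ZN) (pt : List ZN) : gt (p :: pt) 0 = p := rfl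
lemma gt_succ (p : ZN) (pt : List ZN) (i : ℕ) : gt (p :: pt) (i + 1) = gt pt i := rfl

lemma gt_default (z : List ZN) (i : ℕ) (h : z.length ≤ i) : (gt z i).toC = 0 := by
  unfold gt
  rw [List.getD_eq_default _ _ h]
  simp [ZN.toC, Complex.ext_iff]

lemma dotZ_append (y : ℂ) : ∀ (z : List ZN) (xs : List ℂ),
    dotZ z (xs ++ [y]) = dotZ z xs + (gt z xs.length).toC * y := by
  intro z
  induction z with
  | nil =>
    intro xs
    rw [dotZ_nil, dotZ_nil, gt_nil]
    ring
  | cons p pt ih =>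
    intro xs
    cases xs with
    | nil =>
      rw [List.nil_append, dotZ_cons, dotZ_nil', dotZ_nil', List.length_nil, gt_zero]
      ring
    | cons x xs =>
      rw [List.cons_append, dotZ_cons, dotZ_cons, ih xs, List.length_cons, gt_succ]
      ring

lemma GGz_append (z : List ZN) (a : ℕ → ℂ) (y : ℂ) (n : ℕ) :
    GGz z (dn a n ++ [y]) = GGz z (dn a n) +
      2 * (y * ∑ k ∈ Finset.range (n + 1), conj (dotZ z (dn a k)) * (gt z k).toC).re +
      ‖y‖ ^ 2 * ∑ k ∈ Finset.range (n + 1), ‖(gt z k).toC‖ ^ 2 := by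
  have step : ∀ D g : ℂ, ‖D + g * y‖ ^ 2 =
      ‖D‖ ^ 2 + 2 * (y * (conj D * g)).re + ‖y‖ ^ 2 * ‖g‖ ^ 2 := by
    intro D g
    rw [← Complex.normSq_eq_norm_sq, Complex.normSq_add, Complex.normSq_mul,
      Complex.normSq_eq_norm_sq, Complex.normSq_eq_norm_sq, Complex.normSq_eq_norm_sq]
    have : (y * (conj D * g)).re = (D * conj (g * y)).re := by
      rw [← Complex.conj_re (D * conj (g * y))]
      congr 1
      simp only [map_mul, Complex.conj_conj]
      ring
    rw [this]
    ring
  induction n with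
  | zero =>
    have h1 : dotZ z [y] = (gt z 0).toC * y := by
      have := dotZ_append y z []
      rw [List.nil_append, dotZ_nil', List.length_nil] at this
      rw [this]
      ring
    simp only [dn, List.nil_append, GGz, h1, dotZ_nil', zero_add, Finset.range_one,
      Finset.sum_singleton]
    rw [norm_mul]
    simp
    ring
  | succ n ih =>
    have h1 : dotZ z (dn a (n + 1) ++ [y]) = dotZ z (dn a (n + 1)) + (gt z (n + 1)).toC * y := by
      rw [dotZ_append, dn_length]
    have h2 : GGz z (dn a (n + 1) ++ [y]) = ‖dotZ z (dn a (n + 1) ++ [y])‖ ^ 2 +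
        GGz z (dn a n ++ [y]) := rfl
    have h3 : GGz z (dn a (n + 1)) = ‖dotZ z (dn a (n + 1))‖ ^ 2 + GGz z (dn a n) := rfl
    rw [h2, h3, h1, step, ih, Finset.sum_range_succ _ (n + 1), Finset.sum_range_succ _ (n + 1),
      mul_add, Complex.add_re]
    ring

lemma dotZ_ua : ∀ (u : List ZN) (a : ℕ → ℂ) (n k : ℕ), 
    dotZ u (ua a n k) = ∑ i ∈ Finset.range k, (gt u i).toC * conj (a (n + i)) := by
  intro u a n k
  induction k generalizing u n with
  | zero => simp [ua, dotZ_nil']
  | succ k ih =>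
    cases u with
    | nil =>
      rw [dotZ_nil]
      simp [gt_nil]
    | cons p pt =>
      rw [ua, dotZ_cons, ih pt (n + 1), Finset.sum_range_succ']
      simp only [gt_zero, gt_succ, Nat.add_zero]
      have : ∀ i, n + 1 + i = n + (i + 1) := by intro i; ring
      simp only [this]
      ring

lemma dotZ_ua_le (u : List ZN) (a : ℕ → ℂ) (n : ℕ) {k k' : ℕ} (h : u.length ≤ k)
    (h' : u.length ≤ k') : dotZ u (ua a n k) = dotZ u (ua a n k') := by
  have key : ∀ m, u.length ≤ m → dotZ u (ua a n m) =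
      ∑ i ∈ Finset.range u.length, (gt u i).toC * conj (a (n + i)) := by
    intro m hm
    rw [dotZ_ua]
    symm
    apply Finset.sum_subset (Finset.range_subset_range.2 hm)
    intro i _ hi
    rw [gt_default u i (by simpa using hi), zero_mul]
  rw [key k h, key k' h']

lemma conv (a : ℕ → ℂ) : ∀ (z : List ZN) (n : ℕ),
    ∑ k ∈ Finset.range (n + 1), conj (dotZ z (dn a k)) * (gt z k).toC =
      ∑ i ∈ Finset.range (n + 1),
        conj (gt z i).toC * dotZ (z.drop (i + 1)) (ua a 1 (n - i)) := by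
  intro z
  induction z with
  | nil =>
    intro n
    simp [gt_nil]
  | cons p pt ih =>
    intro n
    rw [Finset.sum_range_succ', Finset.sum_range_succ']
    have h0 : conj (dotZ (p :: pt) (dn a 0)) * (gt (p :: pt) 0).toC = 0 := by
      show conj (dotZ (p :: pt) []) * _ = 0
      rw [dotZ_nil']
      simp
    rw [h0, add_zero]
    have h1 : ∀ k, conj (dotZ (p :: pt) (dn a (k + 1))) * (gt (p :: pt) (k + 1)).toC =
        conj p.toC * ((gt pt k).toC * conj (a (k + 1))) +
          conj (dotZ pt (dn a k)) * (gt pt k).toC := by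
      intro k
      rw [gt_succ]
      show conj (dotZ (p :: pt) (a (k + 1) :: dn a k)) * _ = _
      rw [dotZ_cons, map_add, map_mul]
      ring
    rw [Finset.sum_congr rfl (fun k _ => h1 k), Finset.sum_add_distrib, ← Finset.mul_sum]
    have h2 : ∑ k ∈ Finset.range n, (gt pt k).toC * conj (a (k + 1)) =
        dotZ pt (ua a 1 n) := by
      rw [dotZ_ua]
      refine Finset.sum_congr rfl (fun i _ => ?_)
      rw [add_comm 1 i]
    rw [h2, gt_zero]
    cases n with
    | zero =>
      simp [ua, dotZ_nil']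
    | succ n =>
      rw [ih n]
      have h3 : ∀ i, conj (gt (p :: pt) (i + 1)).toC *
          dotZ ((p :: pt).drop (i + 1 + 1)) (ua a 1 (n + 1 - (i + 1))) =
          conj (gt pt i).toC * dotZ (pt.drop (i + 1)) (ua a 1 (n - i)) := by
        intro i
        rw [gt_succ, List.drop_succ_cons]
        congr 3
        omega
      rw [Finset.sum_congr rfl (fun i _ => h3 i)]
      simp only [List.drop_succ_cons, List.drop_zero, Nat.sub_zero]
      ring

/-- The last state. -/
def finZ : List ZN → ℤ → List ZN → ℤ × List ZN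
  | [], c0, acc => (c0, acc)
  | p :: pt, c0, acc =>
    finZ pt (c0 + 4096 * (p.re * p.re + p.im * p.im)) (accumZ p pt acc)

lemma finZ_eq (z : List ZN) (d : ℕ) (hz : z.length = d + 1) : ∀ (j s : ℕ) (c0 : ℤ)
    (acc : List ZN), s + j = d + 1 → acc.length = d →
    ((c0 : ℝ) = 4096 * ∑ i ∈ Finset.range s, ‖(gt z i).toC‖ ^ 2) →
    (∀ ys : List ℂ, dotZ acc ys =
      4096 * ∑ i ∈ Finset.range s, conj (gt z i).toC * dotZ (z.drop (i + 1)) ys) →
    (((finZ (z.drop s) c0 acc).1 : ℝ) =
      4096 * ∑ i ∈ Finset.range (d + 1), ‖(gt z i).toC‖ ^ 2) ∧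
    (finZ (z.drop s) c0 acc).2.length = d ∧
    (∀ ys : List ℂ, dotZ (finZ (z.drop s) c0 acc).2 ys =
      4096 * ∑ i ∈ Finset.range (d + 1), conj (gt z i).toC * dotZ (z.drop (i + 1)) ys) := by
  intro j
  induction j with
  | zero =>
    intro s c0 acc hs hacc hc hA
    have hs' : s = d + 1 := by omega
    subst hs'
    rw [List.drop_eq_nil_of_le hz.le]
    exact ⟨hc, hacc, hA⟩
  | succ j ih =>
    intro s c0 acc hs hacc hc hA
    have hs' : s < z.length := by omega
    rw [List.drop_eq_getElem_cons hs']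
    have hg : gt z s = z[s] := List.getD_eq_getElem _ _ hs'
    have hl : (z.drop (s + 1)).length ≤ acc.length := by
      rw [List.length_drop]
      omega
    have hc' : ((c0 + 4096 * (z[s].re * z[s].re + z[s].im * z[s].im) : ℤ) : ℝ) =
        4096 * ∑ i ∈ Finset.range (s + 1), ‖(gt z i).toC‖ ^ 2 := by
      rw [Finset.sum_range_succ, hg, norm_toC_sq]
      push_cast
      rw [hc]
      ring
    have hA' : ∀ ys : List ℂ, dotZ (accumZ z[s] (z.drop (s + 1)) acc) ys =
        4096 * ∑ i ∈ Finset.range (s + 1),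
          conj (gt z i).toC * dotZ (z.drop (i + 1)) ys := by
      intro ys
      rw [dotZ_accumZ _ _ _ _ hl, hA ys, Finset.sum_range_succ, hg]
      ring
    exact ih (s + 1) _ _ (by omega) (by rw [accumZ_length _ _ _ hl]; exact hacc) hc' hA'

/-- Zeros. -/
def zer (d : ℕ) : List ZN := List.replicate d ⟨0, 0⟩

lemma dotZ_zer (d : ℕ) : ∀ ys : List ℂ, dotZ (zer d) ys = 0 := by
  induction d with
  | zero => intro ys; exact dotZ_nil ys
  | succ d ih =>
    intro ys
    cases ys with
    | nil => exact dotZ_nil' _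
    | cons y ys =>
      show dotZ (⟨0, 0⟩ :: zer d) (y :: ys) = 0
      rw [dotZ_cons, ih ys]
      simp [ZN.toC, Complex.ext_iff]

/-- The complex coefficients. -/
noncomputable def psiC (z : List ZN) : List ℂ := z.map (fun u => u.toC / 2 ^ 16)

lemma dot_psiC : ∀ (z : List ZN) (xs : List ℂ), dot (psiC z) xs = dotZ z xs / 2 ^ 16 := by
  intro z
  induction z with
  | nil =>
    intro xs
    rw [dotZ_nil]
    cases xs <;> simp [psiC, dot]
  | cons p pt ih =>
    intro xs
    cases xs with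
    | nil => rw [dotZ_nil']; simp [psiC, dot]
    | cons x xs =>
      have h1 : dot (psiC (p :: pt)) (x :: xs) = p.toC / 2 ^ 16 * x + dot (psiC pt) xs := rfl
      rw [h1, ih xs, dotZ_cons]
      ring

lemma GG_psiC (z : List ZN) (xs : List ℂ) : 2 ^ 32 * GG (psiC z) xs = GGz z xs := by
  induction xs with
  | nil => simp [GG, GGz]
  | cons x xs ih =>
    simp only [GG, GGz]
    rw [mul_add, ih, dot_psiC, norm_div, div_pow]
    have h : (‖(2 : ℂ) ^ 16‖ : ℝ) ^ 2 = 2 ^ 32 := by norm_num
    rw [h]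
    ring

lemma nsq_psiC : ∀ z : List ZN,
    2 ^ 32 * nsq (psiC z) = ∑ i ∈ Finset.range z.length, ‖(gt z i).toC‖ ^ 2 := by
  intro z
  induction z with
  | nil => simp [psiC, nsq]
  | cons p pt ih =>
    have h1 : nsq (psiC (p :: pt)) = ‖p.toC / 2 ^ 16‖ ^ 2 + nsq (psiC pt) := rfl
    rw [h1, mul_add, ih, List.length_cons, Finset.sum_range_succ']
    simp only [gt_zero, gt_succ]
    rw [norm_div, div_pow]
    have h : (‖(2 : ℂ) ^ 16‖ : ℝ) ^ 2 = 2 ^ 32 := by norm_num
    rw [h]
    ring

/-- The truncated product as a Hermitian form. -/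
theorem GG_form (z : List ZN) (d N : ℕ) (hz : z.length = d + 1) (hN : d ≤ N) (ds : List ℤ)
    (hds : ds.length = N) (l : ℝ) (a : ℕ → ℂ) :
    2 ^ 44 * GG (psiC z) (revl l a N) + DQ ds (dn a N) =
      Qf (bldZ z 0 (zer d) ds) (dn a N) +
      2 * (l * (dotZ (finZ z 0 (zer d)).2 (ua a 1 d)).re) + (finZ z 0 (zer d)).1 * l ^ 2 ∧
    2 ^ 44 * nsq (psiC z) = (finZ z 0 (zer d)).1 ∧ (finZ z 0 (zer d)).2.length = d := by
  have h0 : ((0 : ℤ) : ℝ) = 4096 * ∑ i ∈ Finset.range 0, ‖(gt z i).toC‖ ^ 2 := by simp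
  have h0' : ∀ ys : List ℂ, dotZ (zer d) ys =
      4096 * ∑ i ∈ Finset.range 0, conj (gt z i).toC * dotZ (z.drop (i + 1)) ys := by
    intro ys
    rw [dotZ_zer]
    simp
  have hzl : (zer d).length = d := by simp [zer]
  have hb := bldZ_eq z d hz ds (dn a N) 0 0 (zer d) (by rw [dn_length, hds]) hzl h0 h0'
  obtain ⟨f1, f2, f3⟩ := finZ_eq z d hz (d + 1) 0 0 (zer d) (by omega) hzl h0 h0'
  rw [List.drop_zero] at hb f1 f2 f3
  have hn := nsq_psiC z
  rw [hz] at hn
  refine ⟨?_, ?_, f2⟩
  · rw [revl_eq]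
    have h1 : (2 : ℝ) ^ 44 * GG (psiC z) (dn a N ++ [(l : ℂ)]) =
        4096 * GGz z (dn a N ++ [(l : ℂ)]) := by
      rw [← GG_psiC]
      ring
    rw [h1, GGz_append, conv]
    have h2 : ∑ i ∈ Finset.range (N + 1),
        conj (gt z i).toC * dotZ (z.drop (i + 1)) (ua a 1 (N - i)) =
        ∑ i ∈ Finset.range (d + 1), conj (gt z i).toC * dotZ (z.drop (i + 1)) (ua a 1 d) := by
      symm
      have h3 : Finset.range (d + 1) ⊆ Finset.range (N + 1) :=
        Finset.range_subset_range.2 (by omega)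
      rw [← Finset.sum_subset h3 (f := fun i => conj (gt z i).toC *
        dotZ (z.drop (i + 1)) (ua a 1 (N - i)))]
      · refine Finset.sum_congr rfl (fun i hi => ?_)
        have hi' : i < d + 1 := Finset.mem_range.1 hi
        have h4 : (z.drop (i + 1)).length = d - i := by
          rw [List.length_drop, hz]
          omega
        rw [dotZ_ua_le (z.drop (i + 1)) a 1 (k := d) (k' := N - i) (by omega) (by omega)]
      · intro i _ hi
        rw [gt_default z i (by simpa [hz] using hi)]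
        simp
    have h3 : ∑ k ∈ Finset.range (N + 1), ‖(gt z k).toC‖ ^ 2 =
        ∑ k ∈ Finset.range (d + 1), ‖(gt z k).toC‖ ^ 2 := by
      symm
      apply Finset.sum_subset (Finset.range_subset_range.2 (by omega))
      intro i _ hi
      rw [gt_default z i (by simpa [hz] using hi)]
      simp
    rw [h2, h3]
    simp only [Finset.range_zero, Finset.sum_empty, zero_add] at hb
    rw [hb, f1, f3]
    have h5 : ((l : ℂ) * ∑ i ∈ Finset.range (d + 1), conj (gt z i).toC *
        dotZ (z.drop (i + 1)) (ua a 1 d)).re =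
        l * (∑ i ∈ Finset.range (d + 1), conj (gt z i).toC *
          dotZ (z.drop (i + 1)) (ua a 1 d)).re := Complex.re_ofReal_mul _ _
    have h6 : ((4096 : ℂ) * ∑ i ∈ Finset.range (d + 1), conj (gt z i).toC *
        dotZ (z.drop (i + 1)) (ua a 1 d)).re =
        4096 * (∑ i ∈ Finset.range (d + 1), conj (gt z i).toC *
          dotZ (z.drop (i + 1)) (ua a 1 d)).re := by
      have : ((4096 : ℂ)) = ((4096 : ℝ) : ℂ) := by norm_num
      rw [this, Complex.re_ofReal_mul]
    rw [h5, h6]
    have h7 : ‖(l : ℂ)‖ ^ 2 = l ^ 2 := by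
      rw [Complex.norm_real, Real.norm_eq_abs, sq_abs]
    rw [h7]
    ring
  · rw [f1, ← hn]
    ring

end Pool.Agent.BFC
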