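import Mathlib
import Pool.Agent.Lib.P187f6b.Defs
import Pool.Agent.Lib.P187s.Schur

/-!
# Phase certificates: the quadratic functional

`a` is a sequence of complex numbers, of which only `a 1, ..., a N` are used; the value at `0` is
the real number `l`, which is a separate argument.
-/

set_option autoImplicit false

open scoped ComplexConjugate

namespace Pool.Agent.BFC

/-- `∑ xᵢ yᵢ`. -/
def dot : List ℂ → List ℂ → ℂ
  | x :: xs, y :: ys => x * y + dot xs ys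
  | _, _ => 0

/-- `∑ |xᵢ| ^ 2`. -/
noncomputable def nsq : List ℂ → ℝ
  | [] => 0
  | x :: xs => ‖x‖ ^ 2 + nsq xs

/-- The sum of `|dot psi ys| ^ 2` over the nonempty suffixes `ys` of the list. -/
noncomputable def GG (psi : List ℂ) : List ℂ → ℝ
  | [] => 0
  | x :: xs => ‖dot psi (x :: xs)‖ ^ 2 + GG psi xs

/-- `[a n, ..., a 1, l]`. -/
noncomputable def revl (l : ℝ) (a : ℕ → ℂ) : ℕ → List ℂ
  | 0 => [(l : ℂ)]
  | n + 1 => a (n + 1) :: revl l a n

/-- `∑ ρᵢ Re (conj νᵢ a (n + i))`. -/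
noncomputable def linP (a : ℕ → ℂ) : ℕ → List ℝ → List ℂ → ℝ
  | n, ρ :: ρs, ν :: νs => ρ * (conj ν * a n).re + linP a (n + 1) ρs νs
  | _, _, _ => 0

/-- `∑ (Dᵢ |a (n + i)| ^ 2 + κᵢ / Dᵢ)`. -/
noncomputable def quadD (a : ℕ → ℂ) : ℕ → List ℝ → List ℝ → ℝ
  | n, κ :: κs, D :: Ds => D * ‖a n‖ ^ 2 + κ / D + quadD a (n + 1) κs Ds
  | _, _, _ => 0

/-- The multipliers of a certificate. -/
structure Cert where
  psi : List ℂ
  q : ℝ
  K : ℝ
  k : ℂ
  k1 : ℝ
  a0 : ℝ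
  D : List ℝ

/-- The constants of one value of `l`: `R ^ n ≤ ρ`, `R ^ (2 n) ≤ κ`, and the tail. -/
structure EndC where
  l : ℝ
  rho : List ℝ
  kap : List ℝ
  tau : ℝ

/-- The tangent value `(1 - s1) K + l Re k`. -/
noncomputable def Cert.m (c : Cert) (s1 l : ℝ) : ℝ := (1 - s1) * c.K + l * c.k.re

/-- The functional of a certificate; `NP = rho.length`, `N = NP + kap.length`. -/
noncomputable def FF (c : Cert) (s1 s2 : ℝ) (N : ℕ) (e : EndC) (nu : List ℂ) (a : ℕ → ℂ) : ℝ :=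
  2 * linP a 1 e.rho nu + quadD a (e.rho.length + 1) e.kap c.D + e.tau / c.q +
    c.q * (1 - nsq (revl e.l a N)) + (nsq c.psi - GG c.psi (revl e.l a N)) +
    2 * ((1 - e.l ^ 2) * ((1 - s1) * c.K + c.m s1 e.l * c.a0 ^ 2) -
      2 * c.m s1 e.l * c.a0 * (a 1).re - (conj c.k * a 2).re) +
    2 * c.k1 * ((1 - e.l ^ 2) * (1 - s2) - (a 1).re)

/-- A bound for minus the second derivative of the functional in `l`. -/
noncomputable def Cert.curv (c : Cert) : ℝ :=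
  2 * c.q + 2 * nsq c.psi + 4 * c.K + 10 * (c.K * c.a0 ^ 2) + 4 * c.k1

/-- Signs and lengths. -/
structure Cert.Good (c : Cert) (n : ℕ) : Prop where
  q_pos : 0 < c.q
  k_le : ‖c.k‖ ≤ c.K
  k1_nonneg : 0 ≤ c.k1
  len : c.D.length = n
  D_pos : ∀ D ∈ c.D, 0 < D

/-- The constants belong to the radius `R`. -/
structure EndC.Good (e : EndC) (NP N : ℕ) (R : ℝ) : Prop where
  rho_len : e.rho.length = NP
  kap_len : e.kap.length = N - NP
  rho_le : ∀ i (h : i < e.rho.length), R ^ (i + 1) ≤ e.rho[i]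
  kap_le : ∀ i (h : i < e.kap.length), R ^ (2 * (NP + 1 + i)) ≤ e.kap[i]
  tau_le : R ^ (2 * (N + 1)) / (1 - R ^ 2) ≤ e.tau

end Pool.Agent.BFC
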