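import Pool.Agent.Lib.BFC.Res
import Pool.Agent.Lib.BFC.Defs

/-!
# Elimination of the variables of a Hermitian form with integer coefficients

The matrix has the scale `2 ^ 44`, the linear terms have the scale `2 ^ 54`, all divisions are
rounded down; `|xᵢ| ≤ 1` pays for the rounding errors.
-/

set_option autoImplicit false

open scoped ComplexConjugate

namespace Pool.Agent.BFC

/-- A Gaussian integer given by residues. -/
structure CN where
  re : ℕ
  im : ℕ

/-- A row of the matrix: the diagonal entry and the entries to the right of it. -/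
structure Row where
  d : ℕ
  off : List CN

/-- `2 ^ 80` -/
def Cc : ℕ := 1208925819614629174706176
/-- `2 ^ 256 - 2 ^ 80` -/
def MC : ℕ := 115792089237316195423570985008687907853269984665640562830531764393283954933760
/-- `2 ^ 48` -/
def Bd : ℕ := 281474976710656
/-- `2 ^ 49` -/
def Bd2 : ℕ := 562949953421312
/-- `2 ^ 256 + 2 ^ 48` -/
def MpB : ℕ := 115792089237316195423570985008687907853269984665640564039457584289388106350592
/-- `2 ^ 58` -/
def Bb : ℕ := 288230376151711744
/-- `2 ^ 59` -/
def Bb2 : ℕ := 576460752303423488
/-- `2 ^ 34` -/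
def Pm : ℕ := 17179869184

/-- `m + x / P` for residues. -/
def upc (P CP m x : ℕ) : ℕ :=
  Nat.add (Nat.add m (Nat.div (Nat.mod (Nat.add x CP) M) P)) MC

/-- `m + v u / P` with `v = (na, b)` and `nb = -b`. -/
def upe (P CP na b nb : ℕ) (m u : CN) : CN :=
  ⟨upc P CP m.re (Nat.add (Nat.mul na u.re) (Nat.mul nb u.im)),
   upc P CP m.im (Nat.add (Nat.mul na u.im) (Nat.mul b u.re))⟩

/-- Update of the entries of a row. -/
noncomputable def upl (P CP na b nb : ℕ) (us : List CN) : List CN → List CN :=
  @List.rec CN (fun _ => List CN → List CN) (fun ms => ms)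
    (fun u _ ih ms => @List.casesOn CN (fun _ => List CN) ms []
      (fun m ms => upe P CP na b nb m u :: ih ms)) us

/-- The negative of a residue of an integer between `-2 ^ 48` and `2 ^ 48`. -/
def ngr (x : ℕ) : ℕ := Nat.sub MpB (Nat.mod (Nat.add x Bd) M)

/-- Update of the rows after the elimination of a variable with pivot `P` and row `us`. -/
noncomputable def upr (P CP : ℕ) (us : List CN) : List Row → List Row :=
  @List.rec CN (fun _ => List Row → List Row) (fun rs => rs)
    (fun u us ih rs => @List.casesOn Row (fun _ => List Row) rs []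
      (fun r rs =>
        (fun na nb =>
          (⟨upc P CP r.d (Nat.add (Nat.mul na u.re) (Nat.mul nb u.im)),
            upl P CP na u.im nb us r.off⟩ : Row) :: ih rs) (ngr u.re) (ngr u.im))) us

/-- Update of the linear terms. -/
noncomputable def upb (P CP : ℕ) (b : CN) (us : List CN) : List CN → List CN :=
  @List.rec CN (fun _ => List CN → List CN) (fun bs => bs)
    (fun u _ ih bs => @List.casesOn CN (fun _ => List CN) bs []
      (fun c bs => upe P CP (ngr u.re) u.im (ngr u.im) c b :: ih bs)) us

/-- `|x| ≤ 2 ^ 48` -/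
def inr (x : ℕ) : Bool := Nat.ble (Nat.mod (Nat.add x Bd) M) Bd2
/-- `|x| ≤ 2 ^ 58` -/
def inb (x : ℕ) : Bool := Nat.ble (Nat.mod (Nat.add x Bb) M) Bb2

/-- All entries are bounded by `2 ^ 48`. -/
noncomputable def inl (l : List CN) : Bool :=
  @List.rec CN (fun _ => Bool) true
    (fun x _ ih => cond (inr x.re) (cond (inr x.im) ih false) false) l

/-- The pivot test. -/
def okP (P : ℕ) : Bool := cond (Nat.ble P Bd2) (Nat.ble Pm P) false

/-- Elimination of `n` variables, no linear terms. -/
noncomputable def runA (n : ℕ) : List Row → (List Row → Bool) → Bool :=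
  @Nat.rec (fun _ => List Row → (List Row → Bool) → Bool) (fun rs k => k rs)
    (fun _ ih rs k => @List.casesOn Row (fun _ => Bool) rs false
      (fun r rs =>
        (fun P CP => cond (okP P) (cond (inl r.off) (ih (upr P CP r.off rs) k) false) false)
          (Nat.mod r.d M) (Nat.mul Cc (Nat.mod r.d M)))) n

/-- `|b| ^ 2 / P + 1` -/
def sqP (P : ℕ) (b : CN) : ℕ :=
  Nat.add (Nat.div (Nat.mod (Nat.add (Nat.mul b.re b.re) (Nat.mul b.im b.im)) M) P) 1

/-- Elimination of `n` variables with two columns of linear terms. -/
noncomputable def runB (n : ℕ) :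
    List Row → List CN → List CN → ℕ → ℕ → (ℕ → ℕ → Bool) → Bool :=
  @Nat.rec (fun _ => List Row → List CN → List CN → ℕ → ℕ → (ℕ → ℕ → Bool) → Bool)
    (fun _ _ _ e1 e2 k => k e1 e2)
    (fun _ ih rs bs cs e1 e2 k => @List.casesOn Row (fun _ => Bool) rs false
      (fun r rs => @List.casesOn CN (fun _ => Bool) bs false
        (fun b bs => @List.casesOn CN (fun _ => Bool) cs false
          (fun c cs =>
        (fun P CP => cond (okP P) (cond (inl r.off) (cond (inb b.re) (cond (inb b.im)
          (cond (inb c.re) (cond (inb c.im)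
            (ih (upr P CP r.off rs) (upb P CP b r.off bs) (upb P CP c r.off cs)
              (Nat.add e1 (sqP P b)) (Nat.add e2 (sqP P c)) k) false) false) false) false)
                false) false)
          (Nat.mod r.d M) (Nat.mul Cc (Nat.mod r.d M)))))) n

end Pool.Agent.BFC
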