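import Pool.Agent.Lib.BFC.RayTab

set_option autoImplicit false

/-!
# BFC.Roots: the root cells (products of quadrants) and the walk over all of them
-/

namespace Pool.Agent.Lib.BFC

lemma quadCover : QuadCover T0 T1 T2 T3 := by
  intro z
  rcases le_total 0 z.im with h | h <;> rcases le_total 0 z.re with h1 | h1
  · exact Or.inl (In_T0 h1 h)
  · exact Or.inr (Or.inl (In_T1 h1 h))
  · exact Or.inr (Or.inr (Or.inr (In_T3 h1 h)))
  · exact Or.inr (Or.inr (Or.inl (In_T2 h1 h)))

/-- the walk with the tables of arcs -/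
noncomputable def walkC (leaf : List RT → ℕ → Bool) (T : CT) (cs : List RT) : Bool :=
  walkQ T0 T1 T2 T3 leaf T cs

/-- soundness of the walk -/
theorem walkC_sound {leaf : List RT → ℕ → Bool} {T : CT} {cs : List RT} {a : ℕ → ℂ}
    (h : walkC leaf T cs = true) (ha : InT cs a) : ∃ cs' code, leaf cs' code = true ∧ InT cs' a :=
  walkQ_sound quadCover T cs a h ha

/-- the four quadrants -/
def QT : List RT := [T0, T1, T2, T3]

/-- products of `n` quadrants, lexicographic order -/
def prodsT : ℕ → List (List RT)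
  | 0 => [[]]
  | n + 1 => QT.flatMap fun q => (prodsT n).map fun cs => q :: cs

/-- the root cells: an upper quadrant and `n` quadrants, lexicographic order -/
def rootsT (n : ℕ) : List (List RT) := [T0, T1].flatMap fun q => (prodsT n).map fun cs => q :: cs

lemma exists_prodsT : ∀ (n : ℕ) (a : ℕ → ℂ), ∃ cs ∈ prodsT n, InT cs a := by
  intro n
  induction n with
  | zero => intro a; exact ⟨[], by simp [prodsT], trivial⟩
  | succ n ih =>
    intro a
    have hq : ∃ q ∈ QT, q.In (a 0) := by
      rcases quadCover (a 0) with h | h | h | h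
      · exact ⟨T0, by simp [QT], h⟩
      · exact ⟨T1, by simp [QT], h⟩
      · exact ⟨T2, by simp [QT], h⟩
      · exact ⟨T3, by simp [QT], h⟩
    obtain ⟨q, hq, hz⟩ := hq
    obtain ⟨cs, hcs, hb⟩ := ih fun n => a (n + 1)
    refine ⟨q :: cs, ?_, hz, hb⟩
    unfold prodsT
    rw [List.mem_flatMap]
    exact ⟨q, hq, List.mem_map.2 ⟨cs, hcs, rfl⟩⟩

/-- the root cells cover all sequences whose first entry has nonnegative imaginary part -/
theorem exists_rootsT (n : ℕ) (a : ℕ → ℂ) (h : 0 ≤ (a 0).im) : ∃ cs ∈ rootsT n, InT cs a := by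
  obtain ⟨cs, hcs, hb⟩ := exists_prodsT n fun n => a (n + 1)
  have hq : ∃ q ∈ [T0, T1], q.In (a 0) := by
    rcases le_total 0 (a 0).re with h1 | h1
    · exact ⟨T0, by simp, In_T0 h1 h⟩
    · exact ⟨T1, by simp, In_T1 h1 h⟩
  obtain ⟨q, hq, hz⟩ := hq
  refine ⟨q :: cs, ?_, hz, hb⟩
  unfold rootsT
  rw [List.mem_flatMap]
  exact ⟨q, hq, List.mem_map.2 ⟨cs, hcs, rfl⟩⟩

/-- the walk through a list of trees on a list of cells, as a Boolean function -/
noncomputable def walkB (leaf : List RT → ℕ → Bool) (ts : List CT) : List (List RT) → Bool :=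
  List.rec (motive := fun _ => List (List RT) → Bool)
    (fun css => List.casesOn (motive := fun _ => Bool) css true fun _ _ => false)
    (fun T _ w css => List.casesOn (motive := fun _ => Bool) css false fun cs css' =>
      cond (walkC leaf T cs) (w css') false) ts

theorem walkB_sound {leaf : List RT → ℕ → Bool} : ∀ (ts : List CT) (css : List (List RT)),
    walkB leaf ts css = true → ∀ cs ∈ css, ∃ T, walkC leaf T cs = true := by
  intro ts
  induction ts with
  | nil =>
    intro css h cs hcs
    cases css with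
    | nil => exact absurd hcs (by simp)
    | cons c css => exact absurd h (by simp [walkB])
  | cons T ts ih =>
    intro css h cs hcs
    cases css with
    | nil => exact absurd hcs (by simp)
    | cons c css =>
      have h' : cond (walkC leaf T c) (walkB leaf ts css) false = true := h
      have h1 := cond_true h'
      rcases List.mem_cons.1 hcs with rfl | hcs
      · exact ⟨T, h1.1⟩
      · exact ih css h1.2 cs hcs

/-- the walk over all root cells, `n + 1` phases -/
noncomputable def walkAllT (leaf : List RT → ℕ → Bool) (n : ℕ) (ts : List CT) : Bool :=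
  walkB leaf ts (rootsT n)

theorem roots_sound_of {leaf : List RT → ℕ → Bool} {n : ℕ}
    (h : ∀ cs ∈ rootsT n, ∃ T, walkC leaf T cs = true) {a : ℕ → ℂ} (ha : 0 ≤ (a 0).im) :
    ∃ cs' code, leaf cs' code = true ∧ InT cs' a := by
  obtain ⟨cs, hcs, hin⟩ := exists_rootsT n a ha
  obtain ⟨T, hT⟩ := h cs hcs
  exact walkC_sound hT hin

theorem walkAllT_sound {leaf : List RT → ℕ → Bool} {n : ℕ} {ts : List CT}
    (h : walkAllT leaf n ts = true) {a : ℕ → ℂ} (ha : 0 ≤ (a 0).im) :
    ∃ cs' code, leaf cs' code = true ∧ InT cs' a :=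
  roots_sound_of (walkB_sound ts _ h) ha

/-- the root cells, three phases, explicitly -/
theorem rootsT_two : rootsT 2 = [
    [T0, T0, T0], [T0, T0, T1], [T0, T0, T2], [T0, T0, T3],
    [T0, T1, T0], [T0, T1, T1], [T0, T1, T2], [T0, T1, T3],
    [T0, T2, T0], [T0, T2, T1], [T0, T2, T2], [T0, T2, T3],
    [T0, T3, T0], [T0, T3, T1], [T0, T3, T2], [T0, T3, T3],
    [T1, T0, T0], [T1, T0, T1], [T1, T0, T2], [T1, T0, T3],
    [T1, T1, T0], [T1, T1, T1], [T1, T1, T2], [T1, T1, T3],
    [T1, T2, T0], [T1, T2, T1], [T1, T2, T2], [T1, T2, T3],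
    [T1, T3, T0], [T1, T3, T1], [T1, T3, T2], [T1, T3, T3]] := rfl

end Pool.Agent.Lib.BFC
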