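import Pool.Agent.Lib.BFC.Ana
import Pool.Agent.Lib.BFC.Roots
import Pool.Agent.Lib.BFC.Conj

/-!
# BFC.Far: the far zone on one slice

`LeafOK`: what an accepted leaf gives. `far_slice`: if the trees over all root cells are accepted,
then `maj l f r < 1` for all `l` of the slice and all `f` of the far zone. The reflection
`f ↦ fstar f` reduces to `0 ≤ Im a_2`.
-/

set_option autoImplicit false

open Complex Metric Set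
open scoped ComplexConjugate
open Pool.Agent.P187f6b Pool.Agent.Lib.BFC

namespace Pool.Agent.BFC

/-- An accepted leaf for the cell `cs` of the phases of `a_2, a_3, ...` gives a certificate whose
functional is small at both ends of the slice. -/
def LeafOK (leaf : List RT → ℕ → Bool) (N : ℕ) (L1 L2 R1 R2 s1 s2 : ℝ) : Prop :=
  ∀ (cs : List RT) (code : ℕ), leaf cs code = true →
    ∃ (e1 e2 : EndC) (c : Cert), cs.length + 1 ≤ N ∧ e1.l = L1 ∧ e2.l = L2 ∧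
      e1.Good (cs.length + 1) N R1 ∧ e2.Good (cs.length + 1) N R2 ∧
      c.Good (N - (cs.length + 1)) ∧ ∀ a : ℕ → ℂ, (∀ n, ‖a n‖ ≤ 1) →
        FF c s1 s2 N e1 (1 :: cs.map RT.nu) a + c.curv * (L2 - L1) ^ 2 / 8 < 2 * (1 - L1) ∧
        FF c s1 s2 N e2 (1 :: cs.map RT.nu) a + c.curv * (L2 - L1) ^ 2 / 8 < 2 * (1 - L2)

theorem leafOK_of {leaf : List RT → ℕ → Bool} {N d : ℕ} {L1 L2 R1 R2 s1 s2 : ℝ}
    {E1 E2 : ℕ → EndC} (hl1 : ∀ NP, (E1 NP).l = L1) (hl2 : ∀ NP, (E2 NP).l = L2)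
    (hE1 : ∀ NP, 4 ≤ NP → NP ≤ d → (E1 NP).Good NP N R1)
    (hE2 : ∀ NP, 4 ≤ NP → NP ≤ d → (E2 NP).Good NP N R2) (hd : d ≤ N)
    (hleaf : ∀ (cs : List RT) (code : ℕ), leaf cs code = true → 3 ≤ cs.length ∧
      cs.length + 1 ≤ d ∧ ∃ c : Cert, c.Good (N - (cs.length + 1)) ∧
        ∀ a : ℕ → ℂ, (∀ n, ‖a n‖ ≤ 1) →
          FF c s1 s2 N (E1 (cs.length + 1)) (1 :: cs.map RT.nu) a +
            c.curv * (L2 - L1) ^ 2 / 8 < 2 * (1 - L1) ∧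
          FF c s1 s2 N (E2 (cs.length + 1)) (1 :: cs.map RT.nu) a +
            c.curv * (L2 - L1) ^ 2 / 8 < 2 * (1 - L2)) :
    LeafOK leaf N L1 L2 R1 R2 s1 s2 := by
  intro cs code h
  obtain ⟨h3, h4, c, hc, hF⟩ := hleaf cs code h
  exact ⟨E1 _, E2 _, c, h4.trans hd, hl1 _, hl2 _, hE1 _ (by omega) h4, hE2 _ (by omega) h4, hc, hF⟩

namespace FarAux

theorem tc_norm_le {l : ℝ} {f : ℂ → ℂ} (hf : f ∈ FClass l) (n : ℕ) : ‖tc f n‖ ≤ 1 := by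
  have h := sum_sq_le hf.1 (fun z hz => (hf.2.1 z (by simpa using hz)).le) (n + 1)
  have h1 : ‖tc f n‖ ^ 2 ≤ ∑ k ∈ Finset.range (n + 1), ‖tc f k‖ ^ 2 :=
    Finset.single_le_sum (f := fun k => ‖tc f k‖ ^ 2) (fun k _ => by positivity)
      (Finset.mem_range.2 (Nat.lt_succ_self n))
  have h2 : ‖tc f n‖ ^ 2 ≤ 1 := le_trans h1 h
  exact (sq_le_one_iff₀ (norm_nonneg _)).1 h2

theorem far_upper {leaf : List RT → ℕ → Bool} {N : ℕ} {L1 L2 R1 R2 s1 s2 : ℝ}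
    (hleaf : LeafOK leaf N L1 L2 R1 R2 s1 s2) {n : ℕ}
    (htree : ∀ cs ∈ rootsT n, ∃ T, walkC leaf T cs = true)
    (hs0 : 0 ≤ s1) (hs1 : s1 ≤ 1 / 2) (hs2 : 0 ≤ s2) (hN2 : 2 ≤ N)
    (h1 : 0 ≤ R1) (h1' : R1 < 1) (h2 : 0 ≤ R2) (h2' : R2 < 1)
    (hl1 : 0 ≤ L1) (hl12 : L1 < L2) (hl2 : L2 ≤ 1 / 2) {l : ℝ} (hll : L1 ≤ l) (hlr : l ≤ L2)
    {f : ℂ → ℂ} (hf : f ∈ FClass l) {α : ℝ}
    (hα0 : 0 ≤ α) (hα1 : α ≤ 1 - s2) (ha1 : tc f 1 = (((1 - l ^ 2) * α : ℝ) : ℂ))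
    (ha2 : ‖tc f 2 + ((l * (1 - l ^ 2) * α ^ 2 : ℝ) : ℂ)‖ ≤ (1 - l ^ 2) * (1 - s1) * (1 - α ^ 2))
    (him : 0 ≤ (tc f 2).im)
    {r : ℝ} (hr0 : 0 ≤ r) (hr : r ≤ R1 + (R2 - R1) * ((l - L1) / (L2 - L1))) :
    maj l f r < 1 := by
  obtain ⟨cs, code, hcode, hin⟩ := roots_sound_of htree (a := fun i => tc f (i + 2)) him
  obtain ⟨e1, e2, c, hN, rfl, rfl, he1, he2, hc, hF⟩ := hleaf cs code hcode
  obtain ⟨hF1, hF2⟩ := hF (tc f) (tc_norm_le hf)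
  refine far_of_ends hs0 hs1 hs2 (Nat.le_add_left 1 _) hN hN2 h1 h1' h2 h2' hl1 hl12 hl2 he1 he2 hc
    (by simp) hll hlr hf hα0 hα1 ha1 ha2 (fun i hi => ?_) hF1 hF2 hr0 hr
  have hi' : i < cs.length := by simpa using hi
  have h := (InT_get cs _).1 hin i hi'
  have h' := h.norm_le
  simpa using h'

end FarAux

open FarAux

/-- The far zone on one slice. -/
theorem far_slice {leaf : List RT → ℕ → Bool} {N : ℕ} {L1 L2 R1 R2 s1 s2 : ℝ}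
    (hleaf : LeafOK leaf N L1 L2 R1 R2 s1 s2) {n : ℕ}
    (htree : ∀ cs ∈ rootsT n, ∃ T, walkC leaf T cs = true)
    (hs0 : 0 ≤ s1) (hs1 : s1 ≤ 1 / 2) (hs2 : 0 ≤ s2) (hN2 : 2 ≤ N)
    (h1 : 0 ≤ R1) (h1' : R1 < 1) (h2 : 0 ≤ R2) (h2' : R2 < 1)
    (hl1 : 0 ≤ L1) (hl12 : L1 < L2) (hl2 : L2 ≤ 1 / 2) {l : ℝ} (hll : L1 ≤ l) (hlr : l ≤ L2) :
    ∀ f ∈ FClass l, ∀ α : ℝ, 0 ≤ α → α ≤ 1 - s2 → tc f 1 = (((1 - l ^ 2) * α : ℝ) : ℂ) →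
      ‖tc f 2 + ((l * (1 - l ^ 2) * α ^ 2 : ℝ) : ℂ)‖ ≤ (1 - l ^ 2) * (1 - s1) * (1 - α ^ 2) →
      ∀ r : ℝ, 0 ≤ r → r ≤ R1 + (R2 - R1) * ((l - L1) / (L2 - L1)) → maj l f r < 1 := by
  intro f hf α hα0 hα1 ha1 ha2 r hr0 hr
  rcases le_total 0 (tc f 2).im with him | him
  · exact far_upper hleaf htree hs0 hs1 hs2 hN2 h1 h1' h2 h2' hl1 hl12 hl2 hll hlr hf hα0 hα1 ha1
      ha2 him hr0 hr
  · rw [← maj_fstar hf r]
    refine far_upper hleaf htree hs0 hs1 hs2 hN2 h1 h1' h2 h2' hl1 hl12 hl2 hll hlr (fstar_mem hf)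
      hα0 hα1 ?_ ?_ ?_ hr0 hr
    · rw [tc_fstar hf.1, ha1, Complex.conj_ofReal]
    · have e : tc (fstar f) 2 + ((l * (1 - l ^ 2) * α ^ 2 : ℝ) : ℂ) =
          conj (tc f 2 + ((l * (1 - l ^ 2) * α ^ 2 : ℝ) : ℂ)) := by
        rw [tc_fstar hf.1, map_add, Complex.conj_ofReal]
      rw [e, Complex.norm_conj]
      exact ha2
    · rw [tc_fstar hf.1, Complex.conj_im]
      linarith

end Pool.Agent.BFC
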