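import Pool.Agent.Lib.BFC.LeafS
import Pool.Agent.Lib.BFC.Far

/-!
# The far zone on a slice whose trees are accepted
-/

set_option autoImplicit false

open Complex Metric Set
open scoped ComplexConjugate
open Pool.Agent.P187f6b Pool.Agent.Lib.BFC

namespace Pool.Agent.BFC

theorem leafOK_slice {S : Slice} (hok : S.ok = true) (hbd : S.bd = true) :
    LeafOK (leafOK S) S.N ((S.L1 : ℝ) / 1024) ((S.L2 : ℝ) / 1024) ((S.R1 : ℝ) / 2 ^ 24)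
      ((S.R2 : ℝ) / 2 ^ 24) ((S.S1 : ℝ) / 1024) ((S.S2 : ℝ) / 1024) :=
  leafOK_of (d := S.d) (E1 := S.e1) (E2 := S.e2) (fun _ => rfl) (fun _ => rfl)
    (fun _ h4 hd => Slice.e1_good hok h4 hd) (fun _ h4 hd => Slice.e2_good hok h4 hd)
    (Nat.le_add_left _ _) (leaf_sound hok hbd)

/-- The far zone on the slice; the conclusion is `P187w.FAR`. -/
theorem far_S {S : Slice} (hok : S.ok = true) (hbd : S.bd = true)
    (htree : ∀ cs ∈ rootsT 2, ∃ T, walkC (leafOK S) T cs = true) {l : ℝ}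
    (hl1 : (S.L1 : ℝ) / 1024 ≤ l) (hl2 : l ≤ (S.L2 : ℝ) / 1024) :
    ∀ f ∈ FClass l, ∀ α : ℝ, 0 ≤ α → α ≤ 1 - (S.S2 : ℝ) / 1024 →
      tc f 1 = (((1 - l ^ 2) * α : ℝ) : ℂ) →
      ‖tc f 2 + ((l * (1 - l ^ 2) * α ^ 2 : ℝ) : ℂ)‖ ≤
        (1 - l ^ 2) * (1 - (S.S1 : ℝ) / 1024) * (1 - α ^ 2) →
      ∀ r : ℝ, 0 ≤ r → r ≤ (S.R1 : ℝ) / 2 ^ 24 + ((S.R2 : ℝ) / 2 ^ 24 - (S.R1 : ℝ) / 2 ^ 24) *
        ((l - (S.L1 : ℝ) / 1024) / ((S.L2 : ℝ) / 1024 - (S.L1 : ℝ) / 1024)) → maj l f r < 1 := by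
  obtain ⟨hd4, hL12, hL2, hS1, hS2, -, -⟩ := Slice.ok_spec hok
  obtain ⟨hR1, hR1'⟩ := Slice.R1_mem hok
  obtain ⟨hR2, hR2'⟩ := Slice.R2_mem hok
  have h1 : (S.L1 : ℝ) < S.L2 := by exact_mod_cast hL12
  have h2 : (S.L2 : ℝ) ≤ 512 := by exact_mod_cast hL2
  have h3 : (S.S1 : ℝ) ≤ 512 := by exact_mod_cast hS1
  exact far_slice (leafOK_slice hok hbd) htree (by positivity) (by linarith) (by positivity)
    (by have : S.N = S.nA + S.d := rfl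
        omega) hR1.le hR1' hR2.le hR2' (by positivity) (by linarith) (by linarith) hl1 hl2

end Pool.Agent.BFC
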