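import Pool.Agent.Lib.BFC.Sim

/-!
# The real inequalities behind the elimination
-/

set_option autoImplicit false

open scoped ComplexConjugate

namespace Pool.Agent.BFC

/-- `∑ uᵢ xᵢ` with Gaussian integers `uᵢ`. -/
noncomputable def dotZ : List ZN → List ℂ → ℂ
  | u :: us, x :: xs => u.toC * x + dotZ us xs
  | _, _ => 0

/-- The Hermitian form. -/
noncomputable def Qf : List ZRow → List ℂ → ℝ
  | r :: rs, x :: xs => r.d * ‖x‖ ^ 2 + 2 * (conj x * dotZ r.off xs).re + Qf rs xs
  | _, _ => 0

/-- The linear form. -/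
noncomputable def Lf : List ZN → List ℂ → ℝ
  | b :: bs, x :: xs => 2 * (conj x * b.toC).re + Lf bs xs
  | _, _ => 0

/-- The entries of each row go to the last variable or to the distance `k`. -/
def Sh (k : ℕ) : List ZRow → Prop
  | [] => True
  | r :: rs => r.off.length = min k rs.length ∧ Sh k rs

lemma dotZ_nil (xs : List ℂ) : dotZ [] xs = 0 := by cases xs <;> rfl
lemma dotZ_nil' (us : List ZN) : dotZ us [] = 0 := by cases us <;> rfl
lemma dotZ_cons (u : ZN) (us : List ZN) (x : ℂ) (xs : List ℂ) :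
    dotZ (u :: us) (x :: xs) = u.toC * x + dotZ us xs := rfl
lemma Qf_nil (rs : List ZRow) : Qf rs [] = 0 := by cases rs <;> rfl
lemma Qf_cons (r : ZRow) (rs : List ZRow) (x : ℂ) (xs : List ℂ) :
    Qf (r :: rs) (x :: xs) = r.d * ‖x‖ ^ 2 + 2 * (conj x * dotZ r.off xs).re + Qf rs xs := rfl
lemma Lf_nil (bs : List ZN) : Lf bs [] = 0 := by cases bs <;> rfl
lemma Lf_cons (b : ZN) (bs : List ZN) (x : ℂ) (xs : List ℂ) :
    Lf (b :: bs) (x :: xs) = 2 * (conj x * b.toC).re + Lf bs xs := rfl

/-! ### Rounding -/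

lemma floor_err (x P : ℤ) (hP : 0 < P) :
    (((x / P : ℤ) : ℝ) ≤ (x : ℝ) / P) ∧ ((x : ℝ) / P - 1 ≤ ((x / P : ℤ) : ℝ)) := by
  have hP' : (0 : ℝ) < P := by exact_mod_cast hP
  constructor
  · rw [le_div_iff₀ hP']
    exact_mod_cast Int.ediv_mul_le x hP.ne'
  · rw [sub_le_iff_le_add, div_le_iff₀ hP']
    exact_mod_cast (Int.lt_ediv_add_one_mul_self x hP).le

lemma upeZ_err (P : ℤ) (hP : 0 < P) (v m u : ZN) :
    ‖(upeZ P v m u).toC - (m.toC + v.toC * u.toC / (P : ℂ))‖ ≤ 3 / 2 := by
  have hP' : (P : ℝ) ≠ 0 := by exact_mod_cast hP.ne'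
  obtain ⟨h1, h2⟩ := floor_err (v.re * u.re - v.im * u.im) P hP
  obtain ⟨h3, h4⟩ := floor_err (v.re * u.im + v.im * u.re) P hP
  set z := (upeZ P v m u).toC - (m.toC + v.toC * u.toC / (P : ℂ)) with hz
  have hre : z.re = (((v.re * u.re - v.im * u.im) / P : ℤ) : ℝ) -
      ((v.re * u.re - v.im * u.im : ℤ) : ℝ) / P := by
    have : (v.toC * u.toC / (P : ℂ)).re = ((v.re * u.re - v.im * u.im : ℤ) : ℝ) / P := by
      have h5 : (P : ℂ) = ((P : ℝ) : ℂ) := by norm_cast
      rw [h5, Complex.div_ofReal_re, Complex.mul_re]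
      simp [ZN.toC]
    rw [hz, Complex.sub_re, Complex.add_re, this]
    simp only [upeZ, ZN.toC]
    push_cast
    ring
  have him : z.im = (((v.re * u.im + v.im * u.re) / P : ℤ) : ℝ) -
      ((v.re * u.im + v.im * u.re : ℤ) : ℝ) / P := by
    have : (v.toC * u.toC / (P : ℂ)).im = ((v.re * u.im + v.im * u.re : ℤ) : ℝ) / P := by
      have h5 : (P : ℂ) = ((P : ℝ) : ℂ) := by norm_cast
      rw [h5, Complex.div_ofReal_im, Complex.mul_im]
      simp [ZN.toC]
    rw [hz, Complex.sub_im, Complex.add_im, this]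
    simp only [upeZ, ZN.toC]
    push_cast
    ring
  have h5 : |z.re| ≤ 1 := by rw [hre, abs_le]; constructor <;> linarith
  have h6 : |z.im| ≤ 1 := by rw [him, abs_le]; constructor <;> linarith
  have h7 : ‖z‖ ^ 2 ≤ 2 := by
    rw [← Complex.normSq_eq_norm_sq, Complex.normSq_apply]
    have := abs_le.1 h5
    have := abs_le.1 h6
    nlinarith
  have h8 := norm_nonneg z
  nlinarith

/-- The rounding error of the updates of one row. -/
lemma uplZ_err (P : ℤ) (hP : 0 < P) (v : ZN) : ∀ (us ms : List ZN) (xs : List ℂ),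
    (∀ x ∈ xs, ‖x‖ ≤ 1) → us.length ≤ ms.length →
    ‖dotZ (uplZ P v us ms) xs - (dotZ ms xs + v.toC * dotZ us xs / (P : ℂ))‖ ≤
      3 / 2 * us.length := by
  intro us
  induction us with
  | nil =>
    intro ms xs _ _
    simp [uplZ, dotZ_nil]
  | cons u us ih =>
    intro ms xs hx hl
    cases ms with
    | nil => simp at hl
    | cons m ms =>
      cases xs with
      | nil =>
        simp only [dotZ_nil']
        simp
        positivity
      | cons x xs =>
        have h1 := ih ms xs (fun y hy => hx y (List.mem_cons_of_mem _ hy)) (by simpa using hl)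
        have h2 := upeZ_err P hP v m u
        have h3 := hx x List.mem_cons_self
        have h4 : dotZ (uplZ P v (u :: us) (m :: ms)) (x :: xs) -
            (dotZ (m :: ms) (x :: xs) + v.toC * dotZ (u :: us) (x :: xs) / (P : ℂ)) =
            ((upeZ P v m u).toC - (m.toC + v.toC * u.toC / (P : ℂ))) * x +
            (dotZ (uplZ P v us ms) xs - (dotZ ms xs + v.toC * dotZ us xs / (P : ℂ))) := by
          simp only [uplZ, dotZ_cons]
          ring
        rw [h4]
        refine (norm_add_le _ _).trans ?_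
        rw [norm_mul]
        have h5 : ‖(upeZ P v m u).toC - (m.toC + v.toC * u.toC / (P : ℂ))‖ * ‖x‖ ≤ 3 / 2 * 1 :=
          mul_le_mul h2 h3 (norm_nonneg _) (by norm_num)
        simp only [List.length_cons]
        push_cast
        linarith

lemma re_le_of_err {a b : ℂ} {x : ℂ} {e : ℝ} (hx : ‖x‖ ≤ 1) (h : ‖a - b‖ ≤ e) :
    (conj x * a).re ≤ (conj x * b).re + e := by
  have h1 : (conj x * a).re - (conj x * b).re = (conj x * (a - b)).re := by
    rw [mul_sub, Complex.sub_re]
  have h2 : (conj x * (a - b)).re ≤ ‖conj x * (a - b)‖ := Complex.re_le_norm _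
  have h3 : ‖conj x * (a - b)‖ ≤ 1 * e := by
    rw [norm_mul, RCLike.norm_conj]
    exact mul_le_mul hx h (norm_nonneg _) zero_le_one
  linarith

/-- Elimination, quadratic part. -/
lemma uprZ_le (P : ℤ) (hP : 0 < P) (k : ℕ) : ∀ (us : List ZN) (rs : List ZRow) (xs : List ℂ),
    (∀ x ∈ xs, ‖x‖ ≤ 1) → Sh k rs → us.length ≤ min k rs.length → xs.length = rs.length →
    Qf (uprZ P us rs) xs ≤ Qf rs xs - ‖dotZ us xs‖ ^ 2 / P + 3 * (k * us.length) := by
  have hP' : (0 : ℝ) < P := by exact_mod_cast hP
  intro us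
  induction us with
  | nil =>
    intro rs xs _ _ _ _
    simp [uprZ, dotZ_nil]
  | cons u us ih =>
    intro rs xs hx hS hl hlen
    cases rs with
    | nil => simp at hl
    | cons r rs =>
      cases xs with
      | nil => simp at hlen
      | cons x xs =>
        obtain ⟨hr, hS'⟩ := hS
        have hl1 : us.length ≤ rs.length := by simp at hl; omega
        have hl2 : us.length + 1 ≤ k := by simp at hl; omega
        have hlen' : xs.length = rs.length := by simpa using hlen
        have hx' : ∀ y ∈ xs, ‖y‖ ≤ 1 := fun y hy => hx y (List.mem_cons_of_mem _ hy)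
        have hx0 : ‖x‖ ≤ 1 := hx x List.mem_cons_self
        have h1 := ih rs xs hx' hS' (by omega) hlen'
        have h2 := uplZ_err P hP (ngcZ u) us r.off xs hx' (by omega)
        have h3 := re_le_of_err hx0 h2
        simp only [uprZ, Qf_cons, dotZ_cons]
        -- diagonal
        have h4 : (((r.d + (-(u.re * u.re) - u.im * u.im) / P : ℤ)) : ℝ) ≤
            r.d - ‖u.toC‖ ^ 2 / P := by
          obtain ⟨h5, -⟩ := floor_err (-(u.re * u.re) - u.im * u.im) P hP
          have h6 : ‖u.toC‖ ^ 2 = (u.re : ℝ) * u.re + u.im * u.im := by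
            rw [← Complex.normSq_eq_norm_sq, Complex.normSq_apply]
            simp [ZN.toC]
          rw [h6]
          push_cast at h5 ⊢
          have h7 : ((-((u.re : ℝ) * u.re) - u.im * u.im) : ℝ) / P =
              -(((u.re : ℝ) * u.re + u.im * u.im) / P) := by ring
          rw [h7] at h5
          linarith
        have h5 : (((r.d + (-(u.re * u.re) - u.im * u.im) / P : ℤ)) : ℝ) * ‖x‖ ^ 2 ≤
            (r.d - ‖u.toC‖ ^ 2 / P) * ‖x‖ ^ 2 :=
          mul_le_mul_of_nonneg_right h4 (by positivity)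
        have h6 : ‖u.toC * x + dotZ us xs‖ ^ 2 = ‖u.toC‖ ^ 2 * ‖x‖ ^ 2 +
            2 * (conj x * (conj u.toC * dotZ us xs)).re + ‖dotZ us xs‖ ^ 2 := by
          rw [← Complex.normSq_eq_norm_sq, Complex.normSq_add, Complex.normSq_mul,
            Complex.normSq_eq_norm_sq, Complex.normSq_eq_norm_sq, Complex.normSq_eq_norm_sq]
          have : (conj x * (conj u.toC * dotZ us xs)).re =
              (u.toC * x * conj (dotZ us xs)).re := by
            rw [← Complex.conj_re (u.toC * x * conj (dotZ us xs))]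
            congr 1
            simp only [map_mul, Complex.conj_conj]
            ring
          rw [this]
          ring
        have h7 : (ngcZ u).toC = - conj u.toC := by
          apply Complex.ext <;> simp [ngcZ, ZN.toC]
        have h8 : (conj x * (dotZ r.off xs + (ngcZ u).toC * dotZ us xs / (P : ℂ))).re =
            (conj x * dotZ r.off xs).re - (conj x * (conj u.toC * dotZ us xs)).re / P := by
          rw [h7]
          have h9 : conj x * (dotZ r.off xs + - conj u.toC * dotZ us xs / (P : ℂ)) =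
              conj x * dotZ r.off xs - (conj x * (conj u.toC * dotZ us xs)) / (P : ℂ) := by ring
          have h5 : (P : ℂ) = ((P : ℝ) : ℂ) := by norm_cast
          rw [h9, Complex.sub_re, h5, Complex.div_ofReal_re]
        rw [h8] at h3
        rw [h6]
        have h9 : (‖u.toC‖ ^ 2 * ‖x‖ ^ 2 + 2 * (conj x * (conj u.toC * dotZ us xs)).re +
            ‖dotZ us xs‖ ^ 2) / P = ‖u.toC‖ ^ 2 / P * ‖x‖ ^ 2 +
            2 * ((conj x * (conj u.toC * dotZ us xs)).re / P) + ‖dotZ us xs‖ ^ 2 / P := by
          field_simp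
        rw [h9]
        have h10 : (us.length : ℝ) ≤ k := by exact_mod_cast (by omega : us.length ≤ k)
        simp only [List.length_cons]
        push_cast
        push_cast at h5
        nlinarith [h1, h3, h5, h10]

/-- Elimination, linear part. -/
lemma upbZ_le (P : ℤ) (hP : 0 < P) (b : ZN) : ∀ (us bs : List ZN) (xs : List ℂ),
    (∀ x ∈ xs, ‖x‖ ≤ 1) → us.length ≤ bs.length → xs.length = bs.length →
    Lf (upbZ P b us bs) xs ≤ Lf bs xs - 2 * (conj (dotZ us xs) * b.toC).re / P +
      3 * us.length := by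
  have hP' : (0 : ℝ) < P := by exact_mod_cast hP
  intro us
  induction us with
  | nil =>
    intro bs xs _ _ _
    simp [upbZ, dotZ_nil]
  | cons u us ih =>
    intro bs xs hx hl hlen
    cases bs with
    | nil => simp at hl
    | cons c bs =>
      cases xs with
      | nil => simp at hlen
      | cons x xs =>
        have hx' : ∀ y ∈ xs, ‖y‖ ≤ 1 := fun y hy => hx y (List.mem_cons_of_mem _ hy)
        have hx0 : ‖x‖ ≤ 1 := hx x List.mem_cons_self
        have h1 := ih bs xs hx' (by simpa using hl) (by simpa using hlen)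
        have h2 := upeZ_err P hP (ngcZ u) c b
        have h3 := re_le_of_err hx0 h2
        have h7 : (ngcZ u).toC = - conj u.toC := by
          apply Complex.ext <;> simp [ngcZ, ZN.toC]
        have h8 : (conj x * (c.toC + (ngcZ u).toC * b.toC / (P : ℂ))).re =
            (conj x * c.toC).re - (conj x * (conj u.toC * b.toC)).re / P := by
          rw [h7]
          have h9 : conj x * (c.toC + - conj u.toC * b.toC / (P : ℂ)) =
              conj x * c.toC - (conj x * (conj u.toC * b.toC)) / (P : ℂ) := by ring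
          have h5 : (P : ℂ) = ((P : ℝ) : ℂ) := by norm_cast
          rw [h9, Complex.sub_re, h5, Complex.div_ofReal_re]
        rw [h8] at h3
        simp only [upbZ, Lf_cons, dotZ_cons]
        have h9 : 2 * (conj (u.toC * x + dotZ us xs) * b.toC).re / P =
            2 * ((conj x * (conj u.toC * b.toC)).re / P) +
              2 * (conj (dotZ us xs) * b.toC).re / P := by
          have : conj (u.toC * x + dotZ us xs) * b.toC =
              conj x * (conj u.toC * b.toC) + conj (dotZ us xs) * b.toC := by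
            simp only [map_add, map_mul]
            ring
          rw [this, Complex.add_re]
          ring
        rw [h9]
        simp only [List.length_cons]
        push_cast
        linarith

/-- Completing the square. -/
lemma square_le (P : ℤ) (hP : 0 < P) (x Y : ℂ) :
    -(‖Y‖ ^ 2 / P) ≤ P * ‖x‖ ^ 2 + 2 * (conj x * Y).re := by
  have hP' : (0 : ℝ) < P := by exact_mod_cast hP
  have h1 : -(‖x‖ * ‖Y‖) ≤ (conj x * Y).re := by
    have h2 := Complex.abs_re_le_norm (conj x * Y)
    rw [norm_mul, RCLike.norm_conj] at h2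
    linarith [neg_abs_le (conj x * Y).re]
  have h3 : 0 ≤ (P * ‖x‖ - ‖Y‖) ^ 2 / P := by positivity
  have h4 : (P * ‖x‖ - ‖Y‖) ^ 2 / P = P * ‖x‖ ^ 2 - 2 * (‖x‖ * ‖Y‖) + ‖Y‖ ^ 2 / P := by
    field_simp
    ring
  linarith

end Pool.Agent.BFC
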