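import Pool.Agent.Lib.BFC.Form

/-!
# The Hermitian form of a truncated product

`GGz_eq`: the sum of `|dotZ z ys| ^ 2` over the suffixes `ys` of `xs` is the form with the
partial autocorrelations of `z` as entries.
-/

set_option autoImplicit false

open scoped ComplexConjugate

namespace Pool.Agent.BFC

/-- `GG` with Gaussian integers. -/
noncomputable def GGz (z : List ZN) : List ℂ → ℝ
  | [] => 0
  | x :: xs => ‖dotZ z (x :: xs)‖ ^ 2 + GGz z xs

/-- A diagonal form. -/
noncomputable def DQ : List ℤ → List ℂ → ℝ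
  | d :: ds, x :: xs => d * ‖x‖ ^ 2 + DQ ds xs
  | _, _ => 0

/-- `acc + 4096 conj p * pt` -/
def accumZ (p : ZN) : List ZN → List ZN → List ZN
  | [], acc => acc
  | _ :: _, [] => []
  | w :: pt, m :: acc =>
    ⟨m.re + 4096 * (p.re * w.re + p.im * w.im), m.im + 4096 * (p.re * w.im - p.im * w.re)⟩ ::
      accumZ p pt acc

/-- The rows of the form. -/
def bldZ : List ZN → ℤ → List ZN → List ℤ → List ZRow
  | _, _, _, [] => []
  | [], c0, acc, dg :: ds => ⟨c0 + dg, acc.take ds.length⟩ :: bldZ [] c0 acc ds
  | p :: pt, c0, acc, dg :: ds =>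
    ⟨c0 + 4096 * (p.re * p.re + p.im * p.im) + dg, (accumZ p pt acc).take ds.length⟩ ::
      bldZ pt (c0 + 4096 * (p.re * p.re + p.im * p.im)) (accumZ p pt acc) ds

lemma accumZ_length (p : ZN) : ∀ pt acc : List ZN, pt.length ≤ acc.length →
    (accumZ p pt acc).length = acc.length := by
  intro pt
  induction pt with
  | nil => intro acc _; rfl
  | cons w pt ih =>
    intro acc h
    cases acc with
    | nil => simp at h
    | cons m acc => simp [accumZ, ih acc (by simpa using h)]

lemma dotZ_accumZ (p : ZN) : ∀ (pt acc : List ZN) (xs : List ℂ), pt.length ≤ acc.length →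
    dotZ (accumZ p pt acc) xs = dotZ acc xs + 4096 * (conj p.toC * dotZ pt xs) := by
  intro pt
  induction pt with
  | nil =>
    intro acc xs _
    simp [accumZ, dotZ_nil]
  | cons w pt ih =>
    intro acc xs h
    cases acc with
    | nil => simp at h
    | cons m acc =>
      cases xs with
      | nil => simp [dotZ_nil']
      | cons x xs =>
        simp only [accumZ, dotZ_cons]
        rw [ih acc xs (by simpa using h)]
        have h1 : (⟨m.re + 4096 * (p.re * w.re + p.im * w.im),
            m.im + 4096 * (p.re * w.im - p.im * w.re)⟩ : ZN).toC =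
            m.toC + 4096 * (conj p.toC * w.toC) := by
          apply Complex.ext
          · simp [ZN.toC]
          · simp [ZN.toC]
            ring
        rw [h1]
        ring

lemma dotZ_take : ∀ (n : ℕ) (us : List ZN) (xs : List ℂ), xs.length ≤ n →
    dotZ (us.take n) xs = dotZ us xs := by
  intro n
  induction n with
  | zero =>
    intro us xs h
    have : xs = [] := List.length_eq_zero_iff.1 (Nat.le_zero.1 h)
    subst this
    rw [dotZ_nil', dotZ_nil']
  | succ n ih =>
    intro us xs h
    cases us with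
    | nil => simp
    | cons u us =>
      cases xs with
      | nil => rw [dotZ_nil', dotZ_nil']
      | cons x xs =>
        rw [List.take_succ_cons, dotZ_cons, dotZ_cons, ih us xs (by simpa using h)]

/-- The entry with index `i`. -/
def gt (z : List ZN) (i : ℕ) : ZN := z.getD i ⟨0, 0⟩

lemma dotZ_drop (z : List ZN) (i : ℕ) (x : ℂ) (xs : List ℂ) :
    dotZ (z.drop i) (x :: xs) = (gt z i).toC * x + dotZ (z.drop (i + 1)) xs := by
  unfold gt
  by_cases h : i < z.length
  · rw [List.drop_eq_getElem_cons h, dotZ_cons, List.getD_eq_getElem _ _ h]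
  · push Not at h
    rw [List.drop_eq_nil_of_le h, List.drop_eq_nil_of_le (by omega), dotZ_nil, dotZ_nil,
      List.getD_eq_default _ _ h]
    simp [ZN.toC, Complex.ext_iff]

lemma norm_toC_sq (u : ZN) : ‖u.toC‖ ^ 2 = (u.re : ℝ) * u.re + u.im * u.im := by
  rw [← Complex.normSq_eq_norm_sq, Complex.normSq_apply]
  simp [ZN.toC]

lemma sq_expand (p D x : ℂ) : ‖p * x + D‖ ^ 2 =
    ‖p‖ ^ 2 * ‖x‖ ^ 2 + 2 * (conj x * (conj p * D)).re + ‖D‖ ^ 2 := by
  rw [← Complex.normSq_eq_norm_sq, Complex.normSq_add, Complex.normSq_mul,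
    Complex.normSq_eq_norm_sq, Complex.normSq_eq_norm_sq, Complex.normSq_eq_norm_sq]
  have : (conj x * (conj p * D)).re = (p * x * conj D).re := by
    rw [← Complex.conj_re (p * x * conj D)]
    congr 1
    simp only [map_mul, Complex.conj_conj]
    ring
  rw [this]
  ring

theorem bldZ_eq (z : List ZN) (d : ℕ) (hz : z.length = d + 1) : ∀ (ds : List ℤ)
    (xs : List ℂ) (s : ℕ) (c0 : ℤ) (acc : List ZN), xs.length = ds.length → acc.length = d →
    ((c0 : ℝ) = 4096 * ∑ i ∈ Finset.range s, ‖(gt z i).toC‖ ^ 2) →
    (∀ ys : List ℂ, dotZ acc ys =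
      4096 * ∑ i ∈ Finset.range s, conj (gt z i).toC * dotZ (z.drop (i + 1)) ys) →
    Qf (bldZ (z.drop s) c0 acc ds) xs =
      4096 * (∑ i ∈ Finset.range s, ‖dotZ (z.drop (i + 1)) xs‖ ^ 2 + GGz z xs) + DQ ds xs := by
  intro ds
  induction ds with
  | nil =>
    intro xs s c0 acc hx _ _ _
    have : xs = [] := List.length_eq_zero_iff.1 (by simpa using hx)
    subst this
    simp [Qf_nil, GGz, DQ, dotZ_nil']
  | cons dg ds ih =>
    intro xs s c0 acc hx hacc hc hA
    cases xs with
    | nil => simp at hx
    | cons x xs =>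
      have hx' : xs.length = ds.length := by simpa using hx
      -- the expansion of the right side
      have key : 4096 * (∑ i ∈ Finset.range s, ‖dotZ (z.drop (i + 1)) (x :: xs)‖ ^ 2 +
          GGz z (x :: xs)) + DQ (dg :: ds) (x :: xs) =
          (4096 * ∑ i ∈ Finset.range (s + 1), ‖(gt z i).toC‖ ^ 2 + dg) * ‖x‖ ^ 2 +
          2 * (conj x * (4096 * ∑ i ∈ Finset.range (s + 1),
            conj (gt z i).toC * dotZ (z.drop (i + 1)) xs)).re +
          (4096 * (∑ i ∈ Finset.range (s + 1), ‖dotZ (z.drop (i + 1)) xs‖ ^ 2 + GGz z xs) +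
            DQ ds xs) := by
        have h1 : ∑ i ∈ Finset.range s, ‖dotZ (z.drop (i + 1)) (x :: xs)‖ ^ 2 +
            ‖dotZ z (x :: xs)‖ ^ 2 =
            ∑ i ∈ Finset.range (s + 1), ‖dotZ (z.drop i) (x :: xs)‖ ^ 2 := by
          rw [Finset.sum_range_succ']
          simp
        have h2 : ∀ i : ℕ, ‖dotZ (z.drop i) (x :: xs)‖ ^ 2 = ‖(gt z i).toC‖ ^ 2 * ‖x‖ ^ 2 +
            2 * (conj x * (conj (gt z i).toC * dotZ (z.drop (i + 1)) xs)).re +
              ‖dotZ (z.drop (i + 1)) xs‖ ^ 2 := by
          intro i
          rw [dotZ_drop, sq_expand]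
        have h3 : (conj x * (4096 * ∑ i ∈ Finset.range (s + 1),
            conj (gt z i).toC * dotZ (z.drop (i + 1)) xs)).re =
            4096 * ∑ i ∈ Finset.range (s + 1),
              (conj x * (conj (gt z i).toC * dotZ (z.drop (i + 1)) xs)).re := by
          rw [← Complex.re_sum, ← Finset.mul_sum, mul_left_comm]
          have : ((4096 : ℂ)) = ((4096 : ℝ) : ℂ) := by norm_num
          rw [this, Complex.re_ofReal_mul]
        rw [h3]
        simp only [GGz, DQ]
        have h4 : ∑ i ∈ Finset.range (s + 1), ‖dotZ (z.drop i) (x :: xs)‖ ^ 2 =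
            (∑ i ∈ Finset.range (s + 1), ‖(gt z i).toC‖ ^ 2) * ‖x‖ ^ 2 +
            2 * ∑ i ∈ Finset.range (s + 1),
              (conj x * (conj (gt z i).toC * dotZ (z.drop (i + 1)) xs)).re +
            ∑ i ∈ Finset.range (s + 1), ‖dotZ (z.drop (i + 1)) xs‖ ^ 2 := by
          rw [Finset.sum_congr rfl (fun i _ => h2 i), Finset.sum_add_distrib,
            Finset.sum_add_distrib, ← Finset.sum_mul, ← Finset.mul_sum]
        linear_combination 4096 * h1 + 4096 * h4
      rw [key]
      rcases Nat.lt_or_ge s z.length with hs | hs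
      · -- a coefficient is consumed
        rw [List.drop_eq_getElem_cons hs]
        have hg : gt z s = z[s] := List.getD_eq_getElem _ _ hs
        have hl : (z.drop (s + 1)).length ≤ acc.length := by
          rw [List.length_drop]
          omega
        have hc' : ((c0 + 4096 * (z[s].re * z[s].re + z[s].im * z[s].im) : ℤ) : ℝ) =
            4096 * ∑ i ∈ Finset.range (s + 1), ‖(gt z i).toC‖ ^ 2 := by
          rw [Finset.sum_range_succ, hg, norm_toC_sq]
          push_cast
          rw [hc]
          ring
        have hA' : ∀ ys : List ℂ, dotZ (accumZ z[s] (z.drop (s + 1)) acc) ys =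
            4096 * ∑ i ∈ Finset.range (s + 1),
              conj (gt z i).toC * dotZ (z.drop (i + 1)) ys := by
          intro ys
          rw [dotZ_accumZ _ _ _ _ hl, hA ys, Finset.sum_range_succ, hg]
          ring
        have h5 := ih xs (s + 1) _ _ hx' (by rw [accumZ_length _ _ _ hl]; exact hacc) hc' hA'
        simp only [bldZ, Qf_cons]
        rw [h5, dotZ_take _ _ _ hx'.le, hA']
        rw [← hc']
        push_cast
        ring
      · -- nothing left
        rw [List.drop_eq_nil_of_le hs]
        have hg : (gt z s).toC = 0 := by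
          unfold gt
          rw [List.getD_eq_default _ _ hs]
          simp [ZN.toC, Complex.ext_iff]
        have hc' : (c0 : ℝ) = 4096 * ∑ i ∈ Finset.range (s + 1), ‖(gt z i).toC‖ ^ 2 := by
          rw [Finset.sum_range_succ, hg, hc]
          simp
        have hA' : ∀ ys : List ℂ, dotZ acc ys = 4096 * ∑ i ∈ Finset.range (s + 1),
              conj (gt z i).toC * dotZ (z.drop (i + 1)) ys := by
          intro ys
          rw [Finset.sum_range_succ, hg, hA ys]
          simp
        have h5 := ih xs (s + 1) c0 acc hx' hacc hc' hA'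
        rw [List.drop_eq_nil_of_le (by omega)] at h5
        simp only [bldZ, Qf_cons]
        rw [h5, dotZ_take _ _ _ hx'.le, hA', ← hc']
        push_cast
        ring

lemma bldZ_length : ∀ (ds : List ℤ) (ps : List ZN) (c0 : ℤ) (acc : List ZN),
    (bldZ ps c0 acc ds).length = ds.length := by
  intro ds
  induction ds with
  | nil => intro ps c0 acc; cases ps <;> rfl
  | cons dg ds ih =>
    intro ps c0 acc
    cases ps with
    | nil => simp [bldZ, ih]
    | cons p pt => simp [bldZ, ih]

lemma Sh_bldZ (d : ℕ) : ∀ (ds : List ℤ) (ps : List ZN) (c0 : ℤ) (acc : List ZN),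
    acc.length = d → ps.length ≤ d + 1 → Sh d (bldZ ps c0 acc ds) := by
  intro ds
  induction ds with
  | nil => intro ps c0 acc _ _; cases ps <;> trivial
  | cons dg ds ih =>
    intro ps c0 acc h hp
    cases ps with
    | nil =>
      refine ⟨?_, ih _ _ _ h hp⟩
      show (acc.take ds.length).length = _
      rw [List.length_take, bldZ_length, h, min_comm]
    | cons p pt =>
      have hl : pt.length ≤ acc.length := by simp at hp; omega
      refine ⟨?_, ih _ _ _ (by rw [accumZ_length _ _ _ hl]; exact h) (by simp at hp; omega)⟩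
      show ((accumZ p pt acc).take ds.length).length = _
      rw [List.length_take, bldZ_length, accumZ_length _ _ _ hl, h, min_comm]

end Pool.Agent.BFC
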