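import Pool.Agent.Lib.BFC.Cone

set_option autoImplicit false

/-!
# BFC.Ray: the fixed tree of arcs and the tree of the subdivisions

`RT` is a binary tree of arcs; the numbers `nr`, `ni` of a node give the functional
`nu = ((nr - 2^24) + i (ni - 2^24)) / 2^20`, which dominates the absolute value on the arc.  `CT` is the tree of the
subdivisions of a cell (a list of arcs); `walk` is written with recursors for the speed of the kernel.
-/

namespace Pool.Agent.Lib.BFC

/-- binary tree of arcs -/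
inductive RT where
  | nil (nr ni : ℕ) : RT
  | node (nr ni : ℕ) (L R : RT) : RT

/-- the functional of a pair of numbers -/
noncomputable def nuC (nr ni : ℕ) : ℂ := (((nr : ℂ) - 2 ^ 24) + Complex.I * ((ni : ℂ) - 2 ^ 24)) / 2 ^ 20

/-- the functional of an arc -/
noncomputable def RT.nu : RT → ℂ
  | .nil nr ni => nuC nr ni
  | .node nr ni _ _ => nuC nr ni

/-- a number belongs to an arc -/
def RT.In : RT → ℂ → Prop
  | .nil nr ni, z => ‖z‖ ≤ ((starRingEnd ℂ) (nuC nr ni) * z).re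
  | .node nr ni L R, z => ‖z‖ ≤ ((starRingEnd ℂ) (nuC nr ni) * z).re ∧ (L.In z ∨ R.In z)

lemma RT.In.norm_le {T : RT} {z : ℂ} (h : T.In z) : ‖z‖ ≤ ((starRingEnd ℂ) T.nu * z).re := by
  cases T with
  | nil nr ni => exact h
  | node nr ni L R => exact h.1

/-- check of a tree of arcs for the cone `(p, p')` -/
def RT.chk : RT → ℤ × ℤ → ℤ × ℤ → Bool
  | .nil nr ni, p, p' => okCone ⟨p, p'⟩ ((nr : ℤ) - 2 ^ 24, (ni : ℤ) - 2 ^ 24)
  | .node nr ni L R, p, p' =>
    okCone ⟨p, p'⟩ ((nr : ℤ) - 2 ^ 24, (ni : ℤ) - 2 ^ 24) &&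
      (L.chk p ((nr : ℤ) - 2 ^ 24, (ni : ℤ) - 2 ^ 24) && R.chk ((nr : ℤ) - 2 ^ 24, (ni : ℤ) - 2 ^ 24) p')

lemma norm_le_of_ok {p p' : ℤ × ℤ} {nr ni : ℕ}
    (h : okCone ⟨p, p'⟩ ((nr : ℤ) - 2 ^ 24, (ni : ℤ) - 2 ^ 24) = true) {z : ℂ}
    (hz : (⟨p, p'⟩ : Cone).Mem z) : ‖z‖ ≤ ((starRingEnd ℂ) (nuC nr ni) * z).re := by
  have h1 := okCone_sound h hz
  have e1 : (nuC nr ni).re = ((nr : ℝ) - 2 ^ 24) / 2 ^ 20 := by
    unfold nuC
    rw [show (((nr : ℂ) - 2 ^ 24) + Complex.I * ((ni : ℂ) - 2 ^ 24)) / 2 ^ 20 =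
      (((((nr : ℝ) - 2 ^ 24) / 2 ^ 20 : ℝ) : ℂ) + ((((ni : ℝ) - 2 ^ 24) / 2 ^ 20 : ℝ) : ℂ) * Complex.I) by
        push_cast; ring]
    rw [Complex.add_re, Complex.ofReal_re, Complex.re_ofReal_mul, Complex.I_re, mul_zero, add_zero]
  have e2 : (nuC nr ni).im = ((ni : ℝ) - 2 ^ 24) / 2 ^ 20 := by
    unfold nuC
    rw [show (((nr : ℂ) - 2 ^ 24) + Complex.I * ((ni : ℂ) - 2 ^ 24)) / 2 ^ 20 =
      (((((nr : ℝ) - 2 ^ 24) / 2 ^ 20 : ℝ) : ℂ) + ((((ni : ℝ) - 2 ^ 24) / 2 ^ 20 : ℝ) : ℂ) * Complex.I) by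
        push_cast; ring]
    rw [Complex.add_im, Complex.ofReal_im, Complex.im_ofReal_mul, Complex.I_im, mul_one, zero_add]
  rw [Complex.mul_re, Complex.conj_re, Complex.conj_im, e1, e2]
  push_cast at h1
  have : ‖z‖ * 2 ^ 20 ≤ (((nr : ℝ) - 2 ^ 24) / 2 ^ 20 * z.re - -(((ni : ℝ) - 2 ^ 24) / 2 ^ 20) * z.im) * 2 ^ 20 := by
    have e : (((nr : ℝ) - 2 ^ 24) / 2 ^ 20 * z.re - -(((ni : ℝ) - 2 ^ 24) / 2 ^ 20) * z.im) * 2 ^ 20 =
        ((nr : ℝ) - 2 ^ 24) * z.re + ((ni : ℝ) - 2 ^ 24) * z.im := by ring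
    rw [e]; linarith
  exact le_of_mul_le_mul_right this (by norm_num)

/-- soundness of the check of a tree of arcs -/
theorem RT.chk_sound : ∀ (T : RT) (p p' : ℤ × ℤ), T.chk p p' = true → ∀ z : ℂ,
    (⟨p, p'⟩ : Cone).Mem z → T.In z := by
  intro T
  induction T with
  | nil nr ni => intro p p' h z hz; exact norm_le_of_ok h hz
  | node nr ni L R ihL ihR =>
    intro p p' h z hz
    unfold RT.chk at h
    rw [Bool.and_eq_true, Bool.and_eq_true] at h
    refine ⟨norm_le_of_ok h.1 hz, ?_⟩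
    rcases le_total 0 (crossR ((nr : ℤ) - 2 ^ 24, (ni : ℤ) - 2 ^ 24) z) with hx | hx
    · exact Or.inr (ihR _ _ h.2.2 z ⟨hx, hz.2⟩)
    · exact Or.inl (ihL _ _ h.2.1 z ⟨hz.1, hx⟩)

/-- tree of subdivisions: a leaf with a code, the bisection of one of the first five arcs, or `ext`: a new phase, which
is divided into the four quadrants -/
inductive CT where
  | leaf (code : ℕ) : CT
  | n0 (l r : CT) : CT
  | n1 (l r : CT) : CT
  | n2 (l r : CT) : CT
  | n3 (l r : CT) : CT
  | n4 (l r : CT) : CT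
  | ext (t0 t1 t2 t3 : CT) : CT

noncomputable section

/-- bisection of the first arc -/
def sp0 (wl wr : List RT → Bool) (cs : List RT) : Bool :=
  List.casesOn (motive := fun _ => Bool) cs false fun c t =>
    RT.casesOn (motive := fun _ => Bool) c (fun _ _ => false) fun _ _ L R =>
      cond (wl (L :: t)) (wr (R :: t)) false

/-- bisection of a later arc -/
def spS (sp : (List RT → Bool) → (List RT → Bool) → List RT → Bool) (wl wr : List RT → Bool)
    (cs : List RT) : Bool :=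
  List.casesOn (motive := fun _ => Bool) cs false fun c t =>
    sp (fun s => wl (c :: s)) (fun s => wr (c :: s)) t

/-- a new arc at the end -/
def snoc (cs : List RT) (t : RT) : List RT :=
  List.rec (motive := fun _ => List RT) [t] (fun c _ r => c :: r) cs

/-- the walk through a tree of subdivisions; `q0`, `q1`, `q2`, `q3` are the quadrants -/
def walkQ (q0 q1 q2 q3 : RT) (leaf : List RT → ℕ → Bool) (T : CT) : List RT → Bool :=
  CT.rec (motive := fun _ => List RT → Bool)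
    (fun code cs => leaf cs code)
    (fun _ _ wl wr cs => sp0 wl wr cs)
    (fun _ _ wl wr cs => spS sp0 wl wr cs)
    (fun _ _ wl wr cs => spS (spS sp0) wl wr cs)
    (fun _ _ wl wr cs => spS (spS (spS sp0)) wl wr cs)
    (fun _ _ wl wr cs => spS (spS (spS (spS sp0))) wl wr cs)
    (fun _ _ _ _ w0 w1 w2 w3 cs => cond (w0 (snoc cs q0))
      (cond (w1 (snoc cs q1)) (cond (w2 (snoc cs q2)) (w3 (snoc cs q3)) false) false) false) T

end

/-- the cell of a list of arcs -/
def InT : List RT → (ℕ → ℂ) → Prop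
  | [], _ => True
  | c :: cs, a => c.In (a 0) ∧ InT cs fun n => a (n + 1)

lemma InT_iff : ∀ (cs : List RT) (a : ℕ → ℂ),
    InT cs a ↔ List.Forall₂ RT.In cs ((List.range cs.length).map a) := by
  intro cs
  induction cs with
  | nil => intro a; simp [InT]
  | cons c cs ih =>
    intro a
    rw [List.length_cons, List.range_succ_eq_map, List.map_cons, List.forall₂_cons, List.map_map]
    exact and_congr_right fun _ => ih _

lemma InT_get : ∀ (cs : List RT) (a : ℕ → ℂ),
    InT cs a ↔ ∀ (i : ℕ) (h : i < cs.length), (cs[i]).In (a i) := by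
  intro cs
  induction cs with
  | nil => intro a; simp [InT]
  | cons c cs ih =>
    intro a
    constructor
    · rintro ⟨h0, h1⟩ i hi
      cases i with
      | zero => exact h0
      | succ i =>
        have := (ih _).1 h1 i (by simpa using hi)
        simpa using this
    · intro h
      refine ⟨h 0 (by simp), (ih _).2 fun i hi => ?_⟩
      have := h (i + 1) (by simpa using hi)
      simpa using this

lemma InT_snoc : ∀ (cs : List RT) (t : RT) (a : ℕ → ℂ),
    InT (snoc cs t) a ↔ InT cs a ∧ t.In (a cs.length) := by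
  intro cs t
  induction cs with
  | nil => intro a; simp [snoc, InT]
  | cons c cs ih =>
    intro a
    have e : InT (snoc (c :: cs) t) a ↔ c.In (a 0) ∧ InT (snoc cs t) fun n => a (n + 1) := Iff.rfl
    rw [e, ih]
    simp only [InT, List.length_cons]
    tauto

lemma length_snoc (cs : List RT) (t : RT) : (snoc cs t).length = cs.length + 1 := by
  induction cs with
  | nil => rfl
  | cons c cs ih =>
    have e : snoc (c :: cs) t = c :: snoc cs t := rfl
    rw [e, List.length_cons, ih, List.length_cons]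

/-- soundness of a bisection -/
def SpSound (sp : (List RT → Bool) → (List RT → Bool) → List RT → Bool) : Prop :=
  ∀ (wl wr : List RT → Bool) (cs : List RT) (a : ℕ → ℂ), sp wl wr cs = true →
    InT cs a → (∃ cs', wl cs' = true ∧ InT cs' a) ∨ ∃ cs', wr cs' = true ∧ InT cs' a

lemma cond_true {x y : Bool} (h : cond x y false = true) : x = true ∧ y = true := by
  cases x
  · exact absurd h (by simp)
  · exact ⟨rfl, h⟩

lemma sp0_sound : SpSound sp0 := by
  intro wl wr cs a h ha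
  cases cs with
  | nil => exact absurd h (by simp [sp0])
  | cons c t =>
    obtain ⟨hx, hb⟩ := ha
    cases c with
    | nil nr ni => exact absurd h (by simp [sp0])
    | node nr ni L R =>
      have h' : cond (wl (L :: t)) (wr (R :: t)) false = true := h
      have h1 := cond_true h'
      rcases hx.2 with hL | hR
      · exact Or.inl ⟨L :: t, h1.1, hL, hb⟩
      · exact Or.inr ⟨R :: t, h1.2, hR, hb⟩

lemma spS_sound {sp : (List RT → Bool) → (List RT → Bool) → List RT → Bool} (hsp : SpSound sp) :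
    SpSound (spS sp) := by
  intro wl wr cs a h ha
  cases cs with
  | nil => exact absurd h (by simp [spS])
  | cons c t =>
    obtain ⟨hx, hb⟩ := ha
    have h' : sp (fun s => wl (c :: s)) (fun s => wr (c :: s)) t = true := h
    rcases hsp _ _ t _ h' hb with ⟨cs', h1, h2⟩ | ⟨cs', h1, h2⟩
    · exact Or.inl ⟨c :: cs', h1, hx, h2⟩
    · exact Or.inr ⟨c :: cs', h1, hx, h2⟩

/-- the quadrants cover the plane -/
def QuadCover (q0 q1 q2 q3 : RT) : Prop := ∀ z : ℂ, q0.In z ∨ q1.In z ∨ q2.In z ∨ q3.In z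

/-- soundness of the walk -/
theorem walkQ_sound {q0 q1 q2 q3 : RT} (hq : QuadCover q0 q1 q2 q3) {leaf : List RT → ℕ → Bool} :
    ∀ (T : CT) (cs : List RT) (a : ℕ → ℂ), walkQ q0 q1 q2 q3 leaf T cs = true → InT cs a →
      ∃ cs' code, leaf cs' code = true ∧ InT cs' a := by
  intro T
  induction T with
  | leaf code => intro cs a h ha; exact ⟨cs, code, h, ha⟩
  | n0 l r ihl ihr =>
    intro cs a h ha
    rcases sp0_sound _ _ cs a h ha with ⟨cs', h1, h2⟩ | ⟨cs', h1, h2⟩
    · exact ihl cs' a h1 h2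
    · exact ihr cs' a h1 h2
  | n1 l r ihl ihr =>
    intro cs a h ha
    rcases spS_sound sp0_sound _ _ cs a h ha with ⟨cs', h1, h2⟩ | ⟨cs', h1, h2⟩
    · exact ihl cs' a h1 h2
    · exact ihr cs' a h1 h2
  | n2 l r ihl ihr =>
    intro cs a h ha
    rcases spS_sound (spS_sound sp0_sound) _ _ cs a h ha with ⟨cs', h1, h2⟩ | ⟨cs', h1, h2⟩
    · exact ihl cs' a h1 h2
    · exact ihr cs' a h1 h2
  | n3 l r ihl ihr =>
    intro cs a h ha
    rcases spS_sound (spS_sound (spS_sound sp0_sound)) _ _ cs a h ha with ⟨cs', h1, h2⟩ | ⟨cs', h1, h2⟩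
    · exact ihl cs' a h1 h2
    · exact ihr cs' a h1 h2
  | n4 l r ihl ihr =>
    intro cs a h ha
    rcases spS_sound (spS_sound (spS_sound (spS_sound sp0_sound))) _ _ cs a h ha with
      ⟨cs', h1, h2⟩ | ⟨cs', h1, h2⟩
    · exact ihl cs' a h1 h2
    · exact ihr cs' a h1 h2
  | ext t0 t1 t2 t3 ih0 ih1 ih2 ih3 =>
    intro cs a h ha
    have h' : cond (walkQ q0 q1 q2 q3 leaf t0 (snoc cs q0)) (cond (walkQ q0 q1 q2 q3 leaf t1 (snoc cs q1))
      (cond (walkQ q0 q1 q2 q3 leaf t2 (snoc cs q2)) (walkQ q0 q1 q2 q3 leaf t3 (snoc cs q3)) false)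
        false) false = true := h
    obtain ⟨k0, h'⟩ := cond_true h'
    obtain ⟨k1, h'⟩ := cond_true h'
    obtain ⟨k2, k3⟩ := cond_true h'
    rcases hq (a cs.length) with hz | hz | hz | hz
    · exact ih0 _ a k0 ((InT_snoc cs q0 a).2 ⟨ha, hz⟩)
    · exact ih1 _ a k1 ((InT_snoc cs q1 a).2 ⟨ha, hz⟩)
    · exact ih2 _ a k2 ((InT_snoc cs q2 a).2 ⟨ha, hz⟩)
    · exact ih3 _ a k3 ((InT_snoc cs q3 a).2 ⟨ha, hz⟩)

end Pool.Agent.Lib.BFC
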