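import Pool.Agent.Lib.BFC.Elim
import Pool.Agent.Lib.BFC.Ray

/-!
# The leaf checker

`leafOK S cs code`: the multipliers coded by `code` show the bound on the cell `cs` at both ends
of the slice `S`. A code consists of fields of 20 bits, least significant first:
`q, K, Re k, Im k, k1, a0, D_(NP+1), ..., D_N, Re psi_0, Im psi_0, ..., Re psi_d, Im psi_d`,
with the offset `2 ^ 19` on `k` and `psi`; `a0` has the unit `2 ^ (-9)`, all others `2 ^ (-16)`.
-/

set_option autoImplicit false

open Pool.Agent.Lib.BFC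

namespace Pool.Agent.BFC

/-- The data of a slice. `L1, L2, S1, S2` have the unit `1 / 1024`; `R1, R2` and `rho` the unit
`2 ^ (-24)`, `kap` and `tau` the unit `2 ^ (-40)`; `nA = N - d`; `kap` starts with `n = 5`. -/
structure Slice where
  d : ℕ
  nA : ℕ
  L1 : ℕ
  L2 : ℕ
  S1 : ℕ
  S2 : ℕ
  R1 : ℕ
  R2 : ℕ
  rho1 : List ℕ
  rho2 : List ℕ
  kap1 : List ℕ
  kap2 : List ℕ
  tau1 : ℕ
  tau2 : ℕ

/-- A coefficient of `psi`: real part, imaginary part, minus the imaginary part. -/
structure P3 where
  re : ℕ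
  im : ℕ
  ni : ℕ

/-- `2 ^ 20` -/
def W20 : ℕ := 1048576
/-- `2 ^ 256 - 2 ^ 19` -/
def MO : ℕ := 115792089237316195423570985008687907853269984665640564039457584007913129115648
/-- `2 ^ 256 + 2 ^ 19` -/
def MpO : ℕ := 115792089237316195423570985008687907853269984665640564039457584007913130164224
/-- `2 ^ 256 + 2 ^ 24` -/
def MpN : ℕ := 115792089237316195423570985008687907853269984665640564039457584007913146417152

/-- Minus the functional of an arc, as residues. -/
noncomputable def nun (c : RT) : CN :=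
  @RT.casesOn (fun _ => CN) c (fun nr ni => ⟨Nat.sub MpN nr, Nat.sub MpN ni⟩)
    (fun nr ni _ _ => ⟨Nat.sub MpN nr, Nat.sub MpN ni⟩)

/-- The numbers of an arc are at most `2 ^ 25`. -/
noncomputable def nok (c : RT) : Bool :=
  @RT.casesOn (fun _ => Bool) c
    (fun nr ni => cond (Nat.ble nr 33554432) (Nat.ble ni 33554432) false)
    (fun nr ni _ _ => cond (Nat.ble nr 33554432) (Nat.ble ni 33554432) false)

/-- All arcs. -/
noncomputable def noks (cs : List RT) : Bool :=
  @List.rec RT (fun _ => Bool) true (fun c _ ih => cond (nok c) ih false) cs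

/-- The fields `D`. -/
noncomputable def decD (ks : List ℕ) : ℕ → List ℕ :=
  @List.rec ℕ (fun _ => ℕ → List ℕ) (fun _ => [])
    (fun _ _ ih c => Nat.mod c W20 :: ih (Nat.div c W20)) ks

/-- The code without the fields `D`. -/
noncomputable def shr (ks : List ℕ) : ℕ → ℕ :=
  @List.rec ℕ (fun _ => ℕ → ℕ) (fun c => c) (fun _ _ ih c => ih (Nat.div c W20)) ks

/-- The fields `psi`. -/
noncomputable def decP (n : ℕ) : ℕ → List P3 :=
  @Nat.rec (fun _ => ℕ → List P3) (fun _ => [])
    (fun _ ih c =>
      ⟨Nat.add (Nat.mod c W20) MO, Nat.add (Nat.mod (Nat.div c W20) W20) MO,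
        Nat.sub MpO (Nat.mod (Nat.div c W20) W20)⟩ :: ih (Nat.div (Nat.div c W20) W20)) n

/-- `acc + conj p * pt` with `(a, b, c) = 4096 (Re p, Im p, - Im p)`. -/
noncomputable def accum (a b c : ℕ) (pt : List P3) : List CN → List CN :=
  @List.rec P3 (fun _ => List CN → List CN) (fun acc => acc)
    (fun w _ ih acc => @List.casesOn CN (fun _ => List CN) acc []
      (fun m ms => ⟨Nat.add m.re (Nat.add (Nat.mul a w.re) (Nat.mul b w.im)),
        Nat.add m.im (Nat.add (Nat.mul a w.im) (Nat.mul c w.re))⟩ :: ih ms)) pt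

/-- A state: the partial autocorrelations. -/
structure ST where
  c0 : ℕ
  cs : List CN

/-- The states. -/
noncomputable def sts (ps : List P3) : ST → List ST :=
  @List.rec P3 (fun _ => ST → List ST) (fun _ => [])
    (fun p pt ih s =>
      (fun t => t :: ih t)
        (⟨Nat.add s.c0 (Nat.mul 4096 (Nat.add (Nat.mul p.re p.re) (Nat.mul p.im p.im))),
          accum (Nat.mul 4096 p.re) (Nat.mul 4096 p.im) (Nat.mul 4096 p.ni) pt s.cs⟩ : ST)) ps

/-- The last state. -/
noncomputable def lastST (l : List ST) : ST → ST :=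
  @List.rec ST (fun _ => ST → ST) (fun s => s) (fun t _ ih _ => ih t) l

/-- The first `n` entries. -/
noncomputable def tk (n : ℕ) : List CN → List CN :=
  @Nat.rec (fun _ => List CN → List CN) (fun _ => [])
    (fun _ ih l => @List.casesOn CN (fun _ => List CN) l [] (fun x xs => x :: ih xs)) n

/-- The rows of the last `n` variables. -/
noncomputable def mkB (n : ℕ) : List ℕ → List ST → ST → List Row :=
  @Nat.rec (fun _ => List ℕ → List ST → ST → List Row) (fun _ _ _ => [])
    (fun n ih ds ss cur => @List.casesOn ℕ (fun _ => List Row) ds []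
      (fun dg ds => @List.casesOn ST (fun _ => List Row) ss
        (⟨Nat.add cur.c0 dg, tk n cur.cs⟩ :: ih ds [] cur)
        (fun s ss => ⟨Nat.add s.c0 dg, tk n s.cs⟩ :: ih ds ss s))) n

/-- The rows of the first `n` variables, followed by the last `d` ones. -/
noncomputable def mkA (d n : ℕ) : List ℕ → List ST → ST → List Row :=
  @Nat.rec (fun _ => List ℕ → List ST → ST → List Row) (fun ds ss cur => mkB d ds ss cur)
    (fun _ ih ds ss cur => @List.casesOn ℕ (fun _ => List Row) ds []
      (fun dg ds => @List.casesOn ST (fun _ => List Row) ss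
        (⟨Nat.add cur.c0 dg, cur.cs⟩ :: ih ds [] cur)
        (fun s ss => ⟨Nat.add s.c0 dg, s.cs⟩ :: ih ds ss s))) n

/-- The diagonal terms `q - D` of the variables `n > NP`. -/
noncomputable def dgD (q28 : ℕ) (Ds : List ℕ) : List ℕ → List ℕ :=
  @List.rec ℕ (fun _ => List ℕ → List ℕ) (fun acc => acc)
    (fun D _ ih acc => ih (Nat.add q28 (Nat.sub M (Nat.mul D 268435456)) :: acc)) Ds

/-- The diagonal terms `q` of the variables `2 ≤ n ≤ NP`. -/
noncomputable def dgQ (q28 : ℕ) (cs : List RT) : List ℕ → List ℕ :=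
  @List.rec RT (fun _ => List ℕ → List ℕ) (fun acc => acc) (fun _ _ ih acc => ih (q28 :: acc)) cs

/-- The linear terms of the variables `n ≥ 3`; `cs` autocorrelations, `rho`, arcs. -/
noncomputable def mkb (L : ℕ) (cs : List CN) : List ℕ → List RT → List CN → List CN :=
  @List.rec CN (fun _ => List ℕ → List RT → List CN → List CN) (fun _ _ acc => acc)
    (fun c _ ih rs ns acc => @List.casesOn ℕ (fun _ => List CN) rs
      (ih [] [] (⟨Nat.mul L c.re, Nat.mul L c.im⟩ :: acc))
      (fun r rs => @List.casesOn RT (fun _ => List CN) ns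
        (ih [] [] (⟨Nat.mul L c.re, Nat.mul L c.im⟩ :: acc))
        (fun n ns =>
          (fun r10 v =>
            ih rs ns (⟨Nat.add (Nat.mul L c.re) (Nat.mul r10 (CN.re v)),
              Nat.add (Nat.mul L c.im) (Nat.mul r10 (CN.im v))⟩ :: acc))
            (Nat.mul 1024 r) (nun n)))) cs

/-- All linear terms; `x1 = 2 m a0 + k1` and `k`, scale `2 ^ 54`. -/
noncomputable def mkb0 (L x1 kr ki : ℕ) (cs : List CN) (rho : List ℕ) (ns : List RT) : List CN :=
  @List.casesOn CN (fun _ => List CN) cs [] (fun c1 cs =>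
    @List.casesOn CN (fun _ => List CN) cs [] (fun c2 cs =>
      @List.casesOn ℕ (fun _ => List CN) rho [] (fun r1 rho =>
        @List.casesOn ℕ (fun _ => List CN) rho [] (fun r2 rho =>
          @List.casesOn RT (fun _ => List CN) ns [] (fun n2 ns =>
            mkb L cs rho ns
              [⟨Nat.add (Nat.add (Nat.mul L c2.re) (Nat.mul (Nat.mul 1024 r2) (nun n2).re))
                  (Nat.mul 274877906944 kr),
                Nat.add (Nat.add (Nat.mul L c2.im) (Nat.mul (Nat.mul 1024 r2) (nun n2).im))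
                  (Nat.mul 274877906944 ki)⟩,
               ⟨Nat.add (Nat.add (Nat.mul L c1.re) (Nat.sub M (Nat.mul 1073741824 r1))) x1,
                Nat.mul L c1.im⟩])))))

/-- `∑ (κ / D + 1)`, scale `2 ^ 64`. -/
noncomputable def ksum (ks : List ℕ) : List ℕ → ℕ :=
  @List.rec ℕ (fun _ => List ℕ → ℕ) (fun _ => 0)
    (fun κ _ ih Ds => @List.casesOn ℕ (fun _ => ℕ) Ds 0
      (fun D Ds => Nat.add (Nat.add (Nat.div (Nat.mul κ 1099511627776) D) 1) (ih Ds))) ks

/-- All entries are positive. -/
noncomputable def allpos (Ds : List ℕ) : Bool :=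
  @List.rec ℕ (fun _ => Bool) true (fun D _ ih => cond (Nat.ble 1 D) ih false) Ds

/-- `kap` without the entries of the phases beyond the third one. -/
noncomputable def dropK (cs : List RT) (ks : List ℕ) : List ℕ :=
  @List.casesOn RT (fun _ => List ℕ) cs ks (fun _ cs =>
    @List.casesOn RT (fun _ => List ℕ) cs ks (fun _ cs =>
      @List.casesOn RT (fun _ => List ℕ) cs ks (fun _ cs =>
        @List.rec RT (fun _ => List ℕ) ks
          (fun _ _ ih => @List.casesOn ℕ (fun _ => List ℕ) ih [] (fun _ t => t)) cs)))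

/-- The constant of one end, scale `2 ^ 64`; without the eliminated part. -/
noncomputable def cst (ks : List ℕ) (tau L C1 C2 q K k1 A mm c0 : ℕ) (Ds : List ℕ) : ℕ :=
  (fun w =>
    Nat.add (ksum ks Ds) (Nat.add (Nat.add (Nat.div (Nat.mul tau 1099511627776) q) 1)
      (Nat.mod (Nat.mul w
        (Nat.add (Nat.add (Nat.mul q 268435456) c0)
          (Nat.add (Nat.mul 2 (Nat.add (Nat.mul (Nat.mul C1 K) 262144) (Nat.mul mm (Nat.mul A A))))
            (Nat.mul (Nat.mul 2 k1) (Nat.mul C2 262144))))) M)))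
    (Nat.sub 1048576 (Nat.mul L L))

/-- The slack of the interpolation between the two ends. -/
def curvN (dd q K k1 A c0 : ℕ) : ℕ :=
  Nat.add (Nat.mul dd (Nat.mul 67108864 (Nat.add (Nat.add q (Nat.mul 2 K))
      (Nat.add (Nat.mul 2 k1) 0))))
    (Nat.add (Nat.mul (Nat.mul dd (Nat.mul 1280 K)) (Nat.mul A A))
      (Nat.add (Nat.div (Nat.mul dd c0) 4) 1))

/-- The leaf checker with decoded fields. -/
noncomputable def leafD (S : Slice) (cs : List RT) (k1s k2s : List ℕ) (q K kr ki k1 A : ℕ)
    (Ds : List ℕ) (psi : List P3) : Bool :=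
  (fun (st : List ST) =>
  (fun (fin : ST) (q28 C1 : ℕ) =>
  (fun (mm1 mm2 c0 cu : ℕ) =>
    cond (Nat.ble 1 q) (cond (allpos Ds)
      (cond (Nat.ble (Nat.mod (Nat.add (Nat.mul kr kr) (Nat.mul ki ki)) M) (Nat.mul K K))
        (runA S.nA
          (mkA S.d S.nA (dgD q28 Ds (dgQ q28 cs [q28])) st fin)
          (fun rows => runB S.d rows
            (mkb0 S.L1 (Nat.add (Nat.mul (Nat.mul mm1 A) 1048576) (Nat.mul 274877906944 k1))
              kr ki fin.cs S.rho1 cs)
            (mkb0 S.L2 (Nat.add (Nat.mul (Nat.mul mm2 A) 1048576) (Nat.mul 274877906944 k1))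
              kr ki fin.cs S.rho2 cs)
            0 0
            (fun e1 e2 =>
              cond (Nat.ble (Nat.add (Nat.add e1 cu)
                  (Nat.add (cst k1s S.tau1 S.L1 C1 (Nat.sub 1024 S.S2) q K k1 A mm1 c0 Ds)
                    (Nat.mul 36028797018963968 S.L1))) 36893488147419103231)
              (Nat.ble (Nat.add (Nat.add e2 cu)
                  (Nat.add (cst k2s S.tau2 S.L2 C1 (Nat.sub 1024 S.S2) q K k1 A mm2 c0 Ds)
                    (Nat.mul 36028797018963968 S.L2))) 36893488147419103231) false)))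
        false) false) false)
    (Nat.add (Nat.mul C1 K) (Nat.mul S.L1 kr)) (Nat.add (Nat.mul C1 K) (Nat.mul S.L2 kr))
    (Nat.mod fin.c0 M)
    (Nat.add (curvN (Nat.mul (Nat.sub S.L2 S.L1) (Nat.sub S.L2 S.L1)) q K k1 A
      (Nat.mod fin.c0 M)) (Nat.mul (Nat.mul (Nat.add S.nA (Nat.add S.d 1))
        (Nat.mul (Nat.add S.d 1) (Nat.add S.d 1))) 4194304)))
    (lastST st ⟨0, []⟩) (Nat.mul q 268435456) (Nat.sub 1024 S.S1))
    (sts psi ⟨0, List.replicate S.d ⟨0, 0⟩⟩)

/-- The number of arcs. -/
noncomputable def lenN (cs : List RT) : ℕ :=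
  @List.rec RT (fun _ => ℕ) 0 (fun _ _ ih => Nat.add ih 1) cs

/-- The leaf checker. -/
noncomputable def leafOK (S : Slice) (cs : List RT) (code : ℕ) : Bool :=
  cond (noks cs) (cond (Nat.ble 3 (lenN cs)) (cond (Nat.ble (Nat.add (lenN cs) 1) S.d)
  ((fun k1s k2s => leafD S cs k1s k2s
    (Nat.mod code W20) (Nat.mod (Nat.div code W20) W20)
    (Nat.add (Nat.mod (Nat.div code 1099511627776) W20) MO) (Nat.add (Nat.mod (Nat.div code 1152921504606846976) W20) MO)
    (Nat.mod (Nat.div code 1208925819614629174706176) W20) (Nat.mod (Nat.div code 1267650600228229401496703205376) W20)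
    (decD k1s (Nat.div code 1329227995784915872903807060280344576)) (decP (Nat.add S.d 1) (shr k1s (Nat.div code 1329227995784915872903807060280344576))))
    (dropK cs S.kap1) (dropK cs S.kap2)) false) false) false

end Pool.Agent.BFC
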