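import Pool.Agent.Lib.BFC.Run
import Pool.Agent.Lib.BFC.Cross
import Pool.Agent.Lib.BFC.Leaf

/-!
# The rows built by the leaf checker
-/

set_option autoImplicit false

open scoped ComplexConjugate
open Pool.Agent.Lib.BFC

namespace Pool.Agent.BFC

/-- A coefficient of `psi` represents a Gaussian integer. -/
structure RepP (p : P3) (z : ZN) : Prop where
  re : Rep (2 ^ 20) p.re z.re
  im : Rep (2 ^ 20) p.im z.im
  ni : Rep (2 ^ 20) p.ni (-z.im)

lemma W20_eq : W20 = 2 ^ 20 := by norm_num [W20]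

lemma fld_lt (x : ℕ) : Nat.mod x W20 < 2 ^ 20 := by
  have : Nat.mod x W20 < W20 := Nat.mod_lt _ (by norm_num [W20])
  rwa [W20_eq] at this

/-- A field with the offset `2 ^ 19`. -/
lemma fldO_rep (x : ℕ) : Rep (2 ^ 20) (Nat.add (Nat.mod x W20) MO)
    (((Nat.mod x W20 : ℕ) : ℤ) - 2 ^ 19) := by
  have h1 := fld_lt x
  refine ⟨⟨1, ?_⟩, ?_⟩
  · simp only [Nat.add_eq]
    push_cast
    have : ((MO : ℕ) : ℤ) = (M : ℕ) - 2 ^ 19 := by norm_num [MO, M]
    rw [this]
    ring
  · have h2 : ((Nat.mod x W20 : ℕ) : ℤ) < 2 ^ 20 := by exact_mod_cast h1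
    have h3 : (0 : ℤ) ≤ ((Nat.mod x W20 : ℕ) : ℤ) := Int.natCast_nonneg _
    have h4 : (((2 ^ 20 : ℕ)) : ℤ) = 2 ^ 20 := by norm_num
    rw [h4, abs_le]
    constructor <;> linarith

lemma fldN_rep (x : ℕ) : Rep (2 ^ 20) (Nat.sub MpO (Nat.mod x W20))
    (-(((Nat.mod x W20 : ℕ) : ℤ) - 2 ^ 19)) := by
  have h1 := fld_lt x
  have h6 : Nat.mod x W20 ≤ MpO := h1.le.trans (by norm_num [MpO])
  refine ⟨⟨1, ?_⟩, ?_⟩
  · have h7 : ((Nat.sub MpO (Nat.mod x W20) : ℕ) : ℤ) =
        (MpO : ℕ) - ((Nat.mod x W20 : ℕ) : ℤ) := by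
      simp only [Nat.sub_eq]
      exact Nat.cast_sub h6
    rw [h7]
    have : ((MpO : ℕ) : ℤ) = (M : ℕ) + 2 ^ 19 := by norm_num [MpO, M]
    rw [this]
    ring
  · have h2 : ((Nat.mod x W20 : ℕ) : ℤ) < 2 ^ 20 := by exact_mod_cast h1
    have h3 : (0 : ℤ) ≤ ((Nat.mod x W20 : ℕ) : ℤ) := Int.natCast_nonneg _
    have h4 : (((2 ^ 20 : ℕ)) : ℤ) = 2 ^ 20 := by norm_num
    rw [h4, abs_neg, abs_le]
    constructor <;> linarith

lemma decP_succ (n c : ℕ) : decP (n + 1) c =
    ⟨Nat.add (Nat.mod c W20) MO, Nat.add (Nat.mod (Nat.div c W20) W20) MO,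
        Nat.sub MpO (Nat.mod (Nat.div c W20) W20)⟩ :: decP n (Nat.div (Nat.div c W20) W20) := rfl

lemma decP_rep : ∀ n c : ℕ, ∃ zs : List ZN, zs.length = n ∧ List.Forall₂ RepP (decP n c) zs := by
  intro n
  induction n with
  | zero => intro c; exact ⟨[], rfl, List.Forall₂.nil⟩
  | succ n ih =>
    intro c
    obtain ⟨zs, h1, h2⟩ := ih (Nat.div (Nat.div c W20) W20)
    refine ⟨⟨((Nat.mod c W20 : ℕ) : ℤ) - 2 ^ 19,
      ((Nat.mod (Nat.div c W20) W20 : ℕ) : ℤ) - 2 ^ 19⟩ :: zs, by simp [h1], ?_⟩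
    rw [decP_succ]
    exact List.Forall₂.cons ⟨fldO_rep _, fldO_rep _, fldN_rep _⟩ h2

/-- A state represents a pair. -/
def RepS (A : ℕ) (s : ST) (c0 : ℤ) (acc : List ZN) : Prop :=
  Rep A s.c0 c0 ∧ List.Forall₂ (RepC A) s.cs acc

lemma accum_nil (a b c : ℕ) (acc : List CN) : accum a b c [] acc = acc := rfl
lemma accum_cons_nil (a b c : ℕ) (w : P3) (pt : List P3) : accum a b c (w :: pt) [] = [] := rfl
lemma accum_cons (a b c : ℕ) (w : P3) (pt : List P3) (m : CN) (acc : List CN) :
    accum a b c (w :: pt) (m :: acc) =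
      ⟨Nat.add m.re (Nat.add (Nat.mul a w.re) (Nat.mul b w.im)),
        Nat.add m.im (Nat.add (Nat.mul a w.im) (Nat.mul c w.re))⟩ :: accum a b c pt acc := rfl

lemma accum_rep {A : ℕ} {p : P3} {z : ZN} (hp : RepP p z) {pt : List P3} {zt : List ZN}
    (ht : List.Forall₂ RepP pt zt) : ∀ {acc : List CN} {az : List ZN},
    List.Forall₂ (RepC A) acc az →
    List.Forall₂ (RepC (A + 2 ^ 54))
      (accum (Nat.mul 4096 p.re) (Nat.mul 4096 p.im) (Nat.mul 4096 p.ni) pt acc)
      (accumZ z zt az) := by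
  have h4096 : Rep 4096 4096 (4096 : ℤ) := Rep.nat (n := 4096) (le_refl _)
  induction ht with
  | nil =>
    intro acc az h
    rw [accum_nil]
    exact h.imp (fun _ _ h => h.mono (Nat.le_add_right _ _))
  | @cons w v pt zt hw ht ih =>
    intro acc az h
    cases h with
    | nil => rw [accum_cons_nil]; exact List.Forall₂.nil
    | @cons m mz acc az hm hacc =>
      rw [accum_cons]
      refine List.Forall₂.cons ⟨?_, ?_⟩ (ih hacc)
      · have h1 := hm.1.add (((h4096.mul hp.re).mul hw.re).add ((h4096.mul hp.im).mul hw.im))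
        have h2 : mz.re + (4096 * z.re * v.re + 4096 * z.im * v.im) =
            mz.re + 4096 * (z.re * v.re + z.im * v.im) := by ring
        rw [h2] at h1
        exact h1.mono (by norm_num)
      · have h1 := hm.2.add (((h4096.mul hp.re).mul hw.im).add ((h4096.mul hp.ni).mul hw.re))
        have h2 : mz.im + (4096 * z.re * v.im + 4096 * -z.im * v.re) =
            mz.im + 4096 * (z.re * v.im - z.im * v.re) := by ring
        rw [h2] at h1
        exact h1.mono (by norm_num)

/-- The next state. -/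
noncomputable def nxt (p : P3) (pt : List P3) (s : ST) : ST :=
  ⟨Nat.add s.c0 (Nat.mul 4096 (Nat.add (Nat.mul p.re p.re) (Nat.mul p.im p.im))),
    accum (Nat.mul 4096 p.re) (Nat.mul 4096 p.im) (Nat.mul 4096 p.ni) pt s.cs⟩

lemma nxt_rep {A : ℕ} {p : P3} {z : ZN} (hp : RepP p z) {pt : List P3} {zt : List ZN}
    (ht : List.Forall₂ RepP pt zt) {s : ST} {c0 : ℤ} {acc : List ZN} (hs : RepS A s c0 acc) :
    RepS (A + 2 ^ 54) (nxt p pt s) (c0 + 4096 * (z.re * z.re + z.im * z.im))
      (accumZ z zt acc) := by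
  have h4096 : Rep 4096 4096 (4096 : ℤ) := Rep.nat (n := 4096) (le_refl _)
  refine ⟨?_, accum_rep hp ht hs.2⟩
  have h1 := hs.1.add (h4096.mul ((hp.re.mul hp.re).add (hp.im.mul hp.im)))
  exact h1.mono (by norm_num)

lemma sts_nil (s : ST) : sts [] s = [] := rfl
lemma sts_cons (p : P3) (pt : List P3) (s : ST) :
    sts (p :: pt) s = nxt p pt s :: sts pt (nxt p pt s) := rfl
lemma lastST_nil (s : ST) : lastST [] s = s := rfl
lemma lastST_cons (t : ST) (l : List ST) (s : ST) : lastST (t :: l) s = lastST l t := rfl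

lemma fin_rep {ps : List P3} {zs : List ZN} (h : List.Forall₂ RepP ps zs) :
    ∀ {A : ℕ} {s : ST} {c0 : ℤ} {acc : List ZN}, RepS A s c0 acc →
    RepS (A + ps.length * 2 ^ 54) (lastST (sts ps s) s) (finZ zs c0 acc).1
      (finZ zs c0 acc).2 := by
  induction h with
  | nil =>
    intro A s c0 acc hs
    simpa [sts_nil, lastST_nil, finZ] using hs
  | @cons p z pt zt hp ht ih =>
    intro A s c0 acc hs
    have h1 := ih (nxt_rep hp ht hs)
    rw [sts_cons, lastST_cons]
    have h2 : A + 2 ^ 54 + pt.length * 2 ^ 54 = A + (p :: pt).length * 2 ^ 54 := by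
      rw [List.length_cons]
      ring
    rw [h2] at h1
    exact h1

lemma tk_zero (l : List CN) : tk 0 l = [] := rfl
lemma tk_nil (n : ℕ) : tk (n + 1) [] = [] := rfl
lemma tk_cons (n : ℕ) (x : CN) (l : List CN) : tk (n + 1) (x :: l) = x :: tk n l := rfl

lemma tk_rep {A : ℕ} : ∀ (n : ℕ) {l : List CN} {z : List ZN}, List.Forall₂ (RepC A) l z →
    List.Forall₂ (RepC A) (tk n l) (z.take n) := by
  intro n
  induction n with
  | zero => intro l z _; rw [tk_zero, List.take_zero]; exact List.Forall₂.nil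
  | succ n ih =>
    intro l z h
    cases h with
    | nil => rw [tk_nil, List.take_nil]; exact List.Forall₂.nil
    | cons h1 h2 => rw [tk_cons, List.take_succ_cons]; exact List.Forall₂.cons h1 (ih h2)

lemma mkB_succ_nil (n dg : ℕ) (ds : List ℕ) (cur : ST) :
    mkB (n + 1) (dg :: ds) [] cur = ⟨Nat.add cur.c0 dg, tk n cur.cs⟩ :: mkB n ds [] cur := rfl
lemma mkB_succ_cons (n dg : ℕ) (ds : List ℕ) (s : ST) (ss : List ST) (cur : ST) :
    mkB (n + 1) (dg :: ds) (s :: ss) cur =
      ⟨Nat.add s.c0 dg, tk n s.cs⟩ :: mkB n ds ss s := rfl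
lemma mkA_zero (d : ℕ) (ds : List ℕ) (ss : List ST) (cur : ST) :
    mkA d 0 ds ss cur = mkB d ds ss cur := rfl
lemma mkA_succ_nil (d n dg : ℕ) (ds : List ℕ) (cur : ST) :
    mkA d (n + 1) (dg :: ds) [] cur = ⟨Nat.add cur.c0 dg, cur.cs⟩ :: mkA d n ds [] cur := rfl
lemma mkA_succ_cons (d n dg : ℕ) (ds : List ℕ) (s : ST) (ss : List ST) (cur : ST) :
    mkA d (n + 1) (dg :: ds) (s :: ss) cur =
      ⟨Nat.add s.c0 dg, s.cs⟩ :: mkA d n ds ss s := rfl

lemma RepS.mono {A B : ℕ} {s : ST} {c0 : ℤ} {acc : List ZN} (h : RepS A s c0 acc)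
    (hA : A ≤ B) : RepS B s c0 acc :=
  ⟨h.1.mono hA, h.2.imp (fun _ _ h => h.mono hA)⟩

lemma mkB_rep (E : ℕ) : ∀ (n : ℕ) {ds : List ℕ} {dz : List ℤ} {ps : List P3} {zs : List ZN}
    {A : ℕ} {s : ST} {c0 : ℤ} {acc : List ZN},
    List.Forall₂ (fun X x => Rep E X x) ds dz → ds.length = n →
    List.Forall₂ RepP ps zs → RepS A s c0 acc →
    List.Forall₂ (RepR (A + ps.length * 2 ^ 54 + E)) (mkB n ds (sts ps s) s)
      (bldZ zs c0 acc dz) := by
  intro n
  induction n with
  | zero =>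
    intro ds dz ps zs A s c0 acc hd hl _ _
    have : ds = [] := List.length_eq_zero_iff.1 hl
    subst this
    cases hd
    cases zs <;> exact List.Forall₂.nil
  | succ n ih =>
    intro ds dz ps zs A s c0 acc hd hl hp hs
    cases hd with
    | nil => simp at hl
    | @cons dg g ds dz hg hd =>
      have hl' : ds.length = n := by simpa using hl
      have hlz : dz.length = n := by rw [← hd.length_eq]; exact hl'
      cases hp with
      | nil =>
        rw [sts_nil, mkB_succ_nil]
        simp only [bldZ]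
        have h1 := ih hd hl' List.Forall₂.nil hs
        rw [sts_nil] at h1
        refine List.Forall₂.cons ⟨?_, ?_⟩ h1
        · exact (hs.1.add hg).mono (by simp)
        · rw [hlz]
          exact (tk_rep n hs.2).imp (fun _ _ h => h.mono (by simp))
      | @cons p z pt zt hp ht =>
        rw [sts_cons, mkB_succ_cons]
        simp only [bldZ]
        have hn := nxt_rep hp ht hs
        have h1 := ih hd hl' ht hn
        have h2 : A + 2 ^ 54 + pt.length * 2 ^ 54 + E =
            A + (p :: pt).length * 2 ^ 54 + E := by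
          rw [List.length_cons]
          ring
        rw [h2] at h1
        have h3 : A + 2 ^ 54 ≤ A + (p :: pt).length * 2 ^ 54 := by
          rw [List.length_cons, Nat.add_mul]
          omega
        refine List.Forall₂.cons ⟨?_, ?_⟩ h1
        · exact (hn.1.add hg).mono (by omega)
        · rw [hlz]
          exact (tk_rep n hn.2).imp (fun _ _ h => h.mono (by omega))

lemma mkA_rep (E d : ℕ) : ∀ (n : ℕ) {ds : List ℕ} {dz : List ℤ} {ps : List P3} {zs : List ZN}
    {A : ℕ} {s : ST} {c0 : ℤ} {acc : List ZN},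
    List.Forall₂ (fun X x => Rep E X x) ds dz → ds.length = d + n →
    List.Forall₂ RepP ps zs → ps.length ≤ d + 1 → acc.length = d → RepS A s c0 acc →
    List.Forall₂ (RepR (A + ps.length * 2 ^ 54 + E)) (mkA d n ds (sts ps s) s)
      (bldZ zs c0 acc dz) := by
  intro n
  induction n with
  | zero =>
    intro ds dz ps zs A s c0 acc hd hl hp _ _ hs
    exact mkB_rep E d hd hl hp hs
  | succ n ih =>
    intro ds dz ps zs A s c0 acc hd hl hp hpl hacc hs
    cases hd with
    | nil => simp at hl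
    | @cons dg g ds dz hg hd =>
      have hl' : ds.length = d + n := by simp at hl; omega
      have hlz : dz.length = d + n := by rw [← hd.length_eq]; exact hl'
      cases hp with
      | nil =>
        rw [sts_nil, mkA_succ_nil]
        simp only [bldZ]
        have h1 := ih hd hl' List.Forall₂.nil (by simp) hacc hs
        rw [sts_nil] at h1
        refine List.Forall₂.cons ⟨?_, ?_⟩ h1
        · exact (hs.1.add hg).mono (by simp)
        · rw [List.take_of_length_le (by omega)]
          exact hs.2.imp (fun _ _ h => h.mono (by simp))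
      | @cons p z pt zt hp ht =>
        rw [sts_cons, mkA_succ_cons]
        simp only [bldZ]
        have hn := nxt_rep hp ht hs
        have hle : zt.length ≤ acc.length := by
          rw [← ht.length_eq]
          simp at hpl
          omega
        have hacc' : (accumZ z zt acc).length = d := by
          rw [accumZ_length _ _ _ hle]; exact hacc
        have h1 := ih hd hl' ht (by simp at hpl; omega) hacc' hn
        have h2 : A + 2 ^ 54 + pt.length * 2 ^ 54 + E =
            A + (p :: pt).length * 2 ^ 54 + E := by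
          rw [List.length_cons]
          ring
        rw [h2] at h1
        have h3 : A + 2 ^ 54 ≤ A + (p :: pt).length * 2 ^ 54 := by
          rw [List.length_cons, Nat.add_mul]
          omega
        refine List.Forall₂.cons ⟨?_, ?_⟩ h1
        · exact (hn.1.add hg).mono (by omega)
        · rw [List.take_of_length_le (by omega)]
          exact hn.2.imp (fun _ _ h => h.mono (by omega))

/-- The initial value of the current state does not matter. -/
lemma mkA_cur (d n : ℕ) (dg : ℕ) (ds : List ℕ) (t : ST) (ss : List ST) (cur cur' : ST)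
    (hd : 0 < d) : mkA d n (dg :: ds) (t :: ss) cur = mkA d n (dg :: ds) (t :: ss) cur' := by
  cases n with
  | zero =>
    rw [mkA_zero, mkA_zero]
    obtain ⟨m, rfl⟩ : ∃ m, d = m + 1 := ⟨d - 1, by omega⟩
    rw [mkB_succ_cons, mkB_succ_cons]
  | succ n => rw [mkA_succ_cons, mkA_succ_cons]

/-! ### The diagonal terms -/

lemma dgD_nil (q : ℕ) (acc : List ℕ) : dgD q [] acc = acc := rfl
lemma dgD_cons (q D : ℕ) (Ds acc : List ℕ) : dgD q (D :: Ds) acc =
    dgD q Ds (Nat.add q (Nat.sub M (Nat.mul D 268435456)) :: acc) := rfl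
lemma dgQ_nil (q : ℕ) (acc : List ℕ) : dgQ q [] acc = acc := rfl
lemma dgQ_cons (q : ℕ) (c : RT) (cs : List RT) (acc : List ℕ) : dgQ q (c :: cs) acc =
    dgQ q cs (q :: acc) := rfl

/-- `∑ Dᵢ |a (n + i)| ^ 2` -/
noncomputable def sD (a : ℕ → ℂ) : ℕ → List ℕ → ℝ
  | _, [] => 0
  | n, D :: Ds => D * ‖a n‖ ^ 2 + sD a (n + 1) Ds

lemma nsq_dn_succ (a : ℕ → ℂ) (n : ℕ) : nsq (dn a (n + 1)) = ‖a (n + 1)‖ ^ 2 + nsq (dn a n) :=
  rfl

lemma dgQ_rep {E q : ℕ} (hq : q ≤ E) (a : ℕ → ℂ) : ∀ (cs : List RT) {acc : List ℕ}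
    {az : List ℤ} {m : ℕ}, List.Forall₂ (fun X x => Rep E X x) acc az → acc.length = m →
    DQ az (dn a m) = q * nsq (dn a m) →
    ∃ z : List ℤ, List.Forall₂ (fun X x => Rep E X x) (dgQ q cs acc) z ∧
      z.length = m + cs.length ∧
      DQ z (dn a (m + cs.length)) = q * nsq (dn a (m + cs.length)) := by
  intro cs
  induction cs with
  | nil =>
    intro acc az m h hl hD
    exact ⟨az, h, by rw [← h.length_eq, hl]; simp, by simpa using hD⟩
  | cons c cs ih =>
    intro acc az m h hl hD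
    rw [dgQ_cons]
    obtain ⟨z, h1, h2, h3⟩ := ih (acc := q :: acc) (az := (q : ℤ) :: az) (m := m + 1)
      (List.Forall₂.cons (Rep.nat hq) h) (by simp [hl]) (by
        show ((q : ℤ) : ℝ) * ‖a (m + 1)‖ ^ 2 + DQ az (dn a m) = _
        rw [nsq_dn_succ, hD]
        push_cast
        ring)
    have e : m + 1 + cs.length = m + (c :: cs).length := by rw [List.length_cons]; ring
    rw [e] at h2 h3
    exact ⟨z, h1, h2, h3⟩

lemma dgD_rep {E q : ℕ} (hq : q + 2 ^ 48 ≤ E) (a : ℕ → ℂ) : ∀ (Ds : List ℕ)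
    {acc : List ℕ} {az : List ℤ} {m : ℕ}, (∀ D ∈ Ds, D < 2 ^ 20) →
    List.Forall₂ (fun X x => Rep E X x) acc az → acc.length = m →
    ∃ z : List ℤ, List.Forall₂ (fun X x => Rep E X x) (dgD q Ds acc) z ∧
      z.length = m + Ds.length ∧
      DQ z (dn a (m + Ds.length)) = DQ az (dn a m) +
        q * (nsq (dn a (m + Ds.length)) - nsq (dn a m)) - 2 ^ 28 * sD a (m + 1) Ds := by
  intro Ds
  induction Ds with
  | nil =>
    intro acc az m _ h hl
    exact ⟨az, h, by rw [← h.length_eq, hl]; simp, by simp [sD]⟩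
  | cons D Ds ih =>
    intro acc az m hDs h hl
    rw [dgD_cons]
    have hD : D < 2 ^ 20 := hDs D List.mem_cons_self
    have hrep : Rep E (Nat.add q (Nat.sub M (Nat.mul D 268435456)))
        ((q : ℤ) - (D : ℤ) * 268435456) := by
      have h6 : D * 268435456 ≤ M := by
        have : D * 268435456 ≤ 2 ^ 20 * 268435456 := Nat.mul_le_mul_right _ hD.le
        exact this.trans (by norm_num [M])
      refine ⟨⟨1, ?_⟩, ?_⟩
      · have h7 : ((Nat.add q (Nat.sub M (Nat.mul D 268435456)) : ℕ) : ℤ) =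
            (q : ℤ) + ((M : ℕ) - (D : ℤ) * 268435456) := by
          have h8 : Nat.add q (Nat.sub M (Nat.mul D 268435456)) = q + (M - D * 268435456) := rfl
          rw [h8]
          push_cast [Nat.cast_sub h6]
          ring
        rw [h7]
        ring
      · have h9 : (D : ℤ) < 2 ^ 20 := by exact_mod_cast hD
        have h10 : (0 : ℤ) ≤ D := Int.natCast_nonneg _
        have h11 : (0 : ℤ) ≤ q := Int.natCast_nonneg _
        have h12 : ((q + 2 ^ 48 : ℕ) : ℤ) ≤ E := by exact_mod_cast hq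
        push_cast at h12
        rw [abs_le]
        constructor <;> nlinarith
    obtain ⟨z, h1, h2, h3⟩ := ih (m := m + 1) (fun D' h' => hDs D' (List.mem_cons_of_mem _ h'))
      (List.Forall₂.cons hrep h) (by simp [hl])
    have e : m + 1 + Ds.length = m + (D :: Ds).length := by rw [List.length_cons]; ring
    rw [e] at h2 h3
    refine ⟨z, h1, h2, ?_⟩
    rw [h3]
    show ((((q : ℤ) - (D : ℤ) * 268435456 : ℤ) : ℝ) * ‖a (m + 1)‖ ^ 2 + DQ az (dn a m)) + _ - _ = _
    rw [nsq_dn_succ]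
    simp only [sD]
    push_cast
    ring

end Pool.Agent.BFC
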