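import Pool.Agent.Lib.BFC.LeafA

/-!
# The linear terms built by the leaf checker
-/

set_option autoImplicit false

open scoped ComplexConjugate
open Pool.Agent.Lib.BFC

namespace Pool.Agent.BFC

/-- Minus `2 ^ 20` times the functional of an arc. -/
def nz : RT → ZN
  | .nil nr ni => ⟨2 ^ 24 - (nr : ℤ), 2 ^ 24 - (ni : ℤ)⟩
  | .node nr ni _ _ => ⟨2 ^ 24 - (nr : ℤ), 2 ^ 24 - (ni : ℤ)⟩

lemma nz_toC (c : RT) : (nz c).toC = -(2 ^ 20 * c.nu) := by
  have key : ∀ nr ni : ℕ, (⟨2 ^ 24 - (nr : ℤ), 2 ^ 24 - (ni : ℤ)⟩ : ZN).toC =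
      -(2 ^ 20 * nuC nr ni) := by
    intro nr ni
    have h1 : (2 : ℂ) ^ 20 * nuC nr ni = ((((nr : ℝ) - 2 ^ 24 : ℝ)) : ℂ) +
        ((((ni : ℝ) - 2 ^ 24 : ℝ)) : ℂ) * Complex.I := by
      unfold nuC
      push_cast
      ring
    rw [h1]
    apply Complex.ext
    · simp only [ZN.toC, Complex.neg_re, Complex.add_re, Complex.ofReal_re, Complex.mul_re,
        Complex.I_re, Complex.I_im, Complex.ofReal_im]
      push_cast
      ring
    · simp only [ZN.toC, Complex.neg_im, Complex.add_im, Complex.ofReal_re, Complex.mul_im,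
        Complex.I_re, Complex.I_im, Complex.ofReal_im]
      push_cast
      ring
  cases c with
  | nil nr ni => exact key nr ni
  | node nr ni L R => exact key nr ni

lemma nun_rep (c : RT) (h : nok c = true) : RepC (2 ^ 25) (nun c) (nz c) := by
  have key : ∀ n : ℕ, n ≤ 33554432 → Rep (2 ^ 25) (Nat.sub MpN n) (2 ^ 24 - (n : ℤ)) := by
    intro n hn
    have h6 : n ≤ MpN := hn.trans (by norm_num [MpN])
    refine ⟨⟨1, ?_⟩, ?_⟩
    · have h7 : ((Nat.sub MpN n : ℕ) : ℤ) = (MpN : ℕ) - (n : ℤ) := by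
        simp only [Nat.sub_eq]
        exact Nat.cast_sub h6
      rw [h7]
      have : ((MpN : ℕ) : ℤ) = (M : ℕ) + 2 ^ 24 := by norm_num [MpN, M]
      rw [this]
      ring
    · have h2 : (n : ℤ) ≤ 33554432 := by exact_mod_cast hn
      have h3 : (0 : ℤ) ≤ (n : ℤ) := Int.natCast_nonneg _
      have h4 : (((2 ^ 25 : ℕ)) : ℤ) = 33554432 := by norm_num
      rw [h4, abs_le]
      constructor <;> linarith
  cases c with
  | nil nr ni =>
    have h' : cond (Nat.ble nr 33554432) (Nat.ble ni 33554432) false = true := h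
    obtain ⟨h1, h2⟩ := cond_true h'
    exact ⟨key nr (Nat.le_of_ble_eq_true h1), key ni (Nat.le_of_ble_eq_true h2)⟩
  | node nr ni L R =>
    have h' : cond (Nat.ble nr 33554432) (Nat.ble ni 33554432) false = true := h
    obtain ⟨h1, h2⟩ := cond_true h'
    exact ⟨key nr (Nat.le_of_ble_eq_true h1), key ni (Nat.le_of_ble_eq_true h2)⟩

lemma noks_cons {c : RT} {cs : List RT} (h : noks (c :: cs) = true) :
    nok c = true ∧ noks cs = true := cond_true (show cond (nok c) (noks cs) false = true from h)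

/-- `∑ ρᵢ Re (conj νᵢ a (n + i))` -/
noncomputable def linQ (a : ℕ → ℂ) : ℕ → List ℕ → List RT → ℝ
  | n, ρ :: ρs, c :: cs => ρ * (conj c.nu * a n).re + linQ a (n + 1) ρs cs
  | _, _, _ => 0

lemma linQ_nil (a : ℕ → ℂ) (n : ℕ) (cs : List RT) : linQ a n [] cs = 0 := by
  cases cs <;> rfl
lemma linQ_nil' (a : ℕ → ℂ) (n : ℕ) (rs : List ℕ) : linQ a n rs [] = 0 := by
  cases rs <;> rfl

lemma mkb_nil (L : ℕ) (rs : List ℕ) (ns : List RT) (acc : List CN) :
    mkb L [] rs ns acc = acc := rfl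
lemma mkb_cons_nil (L : ℕ) (c : CN) (cs : List CN) (ns : List RT) (acc : List CN) :
    mkb L (c :: cs) [] ns acc = mkb L cs [] [] (⟨Nat.mul L c.re, Nat.mul L c.im⟩ :: acc) := rfl
lemma mkb_cons_nil' (L : ℕ) (c : CN) (cs : List CN) (r : ℕ) (rs : List ℕ) (acc : List CN) :
    mkb L (c :: cs) (r :: rs) [] acc =
      mkb L cs [] [] (⟨Nat.mul L c.re, Nat.mul L c.im⟩ :: acc) := rfl
lemma mkb_cons (L : ℕ) (c : CN) (cs : List CN) (r : ℕ) (rs : List ℕ) (n : RT) (ns : List RT)
    (acc : List CN) :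
    mkb L (c :: cs) (r :: rs) (n :: ns) acc =
      mkb L cs rs ns (⟨Nat.add (Nat.mul L c.re) (Nat.mul (Nat.mul 1024 r) (nun n).re),
        Nat.add (Nat.mul L c.im) (Nat.mul (Nat.mul 1024 r) (nun n).im)⟩ :: acc) := rfl

lemma conj_mul_re (x c : ℂ) : (conj x * c).re = (c * conj x).re := by rw [mul_comm]

lemma mkb_rep {L : ℕ} (hL : L ≤ 1024) (a : ℕ → ℂ) : ∀ {cs : List CN} {cz : List ZN}
    {rs : List ℕ} {ns : List RT} {acc : List CN} {az : List ZN} {m : ℕ},
    List.Forall₂ (RepC (2 ^ 60)) cs cz → (∀ r ∈ rs, r ≤ 2 ^ 25) → noks ns = true →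
    ns.length ≤ cs.length → List.Forall₂ (RepC (2 ^ 74)) acc az → acc.length = m →
    ∃ z : List ZN, List.Forall₂ (RepC (2 ^ 74)) (mkb L cs rs ns acc) z ∧
      z.length = m + cs.length ∧
      Lf z (dn a (m + cs.length)) = Lf az (dn a m) +
        2 * (L * (dotZ cz (ua a (m + 1) cs.length)).re) - 2 ^ 31 * linQ a (m + 1) rs ns := by
  have hLr : Rep 1024 L (L : ℤ) := Rep.nat hL
  intro cs
  induction cs with
  | nil =>
    intro cz rs ns acc az m hc _ _ hn hacc hm
    have : ns = [] := List.length_eq_zero_iff.1 (by simpa using hn)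
    subst this
    refine ⟨az, ?_, by rw [← hacc.length_eq, hm]; simp, ?_⟩
    · rw [mkb_nil]; exact hacc
    · simp [ua, dotZ_nil', linQ_nil']
  | cons c cs ih =>
    intro cz rs ns acc az m hc hr hok hn hacc hm
    cases hc with
    | @cons _ c' _ cz hc hcs =>
      have e : m + 1 + cs.length = m + (c :: cs).length := by rw [List.length_cons]; ring
      have hLre : Rep (1024 * 2 ^ 60) (Nat.mul L c.re) ((L : ℤ) * c'.re) := hLr.mul hc.1
      have hLim : Rep (1024 * 2 ^ 60) (Nat.mul L c.im) ((L : ℤ) * c'.im) := hLr.mul hc.2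
      -- the case without a phase
      have hplain : ∀ (rs' : List ℕ) (ns' : List RT),
          linQ a (m + 1) rs' ns' = 0 →
          ∃ z : List ZN, List.Forall₂ (RepC (2 ^ 74))
            (mkb L cs [] [] (⟨Nat.mul L c.re, Nat.mul L c.im⟩ :: acc)) z ∧
          z.length = m + (c :: cs).length ∧
          Lf z (dn a (m + (c :: cs).length)) = Lf az (dn a m) +
            2 * (L * (dotZ (c' :: cz) (ua a (m + 1) (c :: cs).length)).re) -
              2 ^ 31 * linQ a (m + 1) rs' ns' := by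
        intro rs' ns' hq
        obtain ⟨z, h1, h2, h3⟩ := ih (rs := []) (ns := []) (m := m + 1) hcs (by simp) rfl (by simp)
          (List.Forall₂.cons (⟨hLre.mono (by norm_num), hLim.mono (by norm_num)⟩ :
            RepC (2 ^ 74) ⟨Nat.mul L c.re, Nat.mul L c.im⟩
              (⟨(L : ℤ) * c'.re, (L : ℤ) * c'.im⟩ : ZN)) hacc) (by simp [hm])
        rw [e] at h2 h3
        refine ⟨z, h1, h2, ?_⟩
        rw [h3, hq, linQ_nil]
        have h4 : Lf ((⟨(L : ℤ) * c'.re, (L : ℤ) * c'.im⟩ : ZN) :: az) (dn a (m + 1)) =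
            2 * (conj (a (m + 1)) * (⟨(L : ℤ) * c'.re, (L : ℤ) * c'.im⟩ : ZN).toC).re +
              Lf az (dn a m) := rfl
        have h5 : (⟨(L : ℤ) * c'.re, (L : ℤ) * c'.im⟩ : ZN).toC = ((L : ℝ) : ℂ) * c'.toC := by
          apply Complex.ext <;> simp [ZN.toC]
        have h6 : ua a (m + 1) (c :: cs).length =
            conj (a (m + 1)) :: ua a (m + 1 + 1) cs.length := rfl
        rw [h4, h5, h6, dotZ_cons, Complex.add_re, mul_left_comm, Complex.re_ofReal_mul,
          conj_mul_re]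
        ring
      cases rs with
      | nil =>
        rw [mkb_cons_nil]
        exact hplain [] ns (linQ_nil _ _ _)
      | cons r rs =>
        cases ns with
        | nil =>
          rw [mkb_cons_nil']
          exact hplain (r :: rs) [] (linQ_nil' _ _ _)
        | cons n ns =>
          rw [mkb_cons]
          obtain ⟨hok1, hok2⟩ := noks_cons hok
          have hn1 := nun_rep n hok1
          have hrr : Rep (2 ^ 25) r (r : ℤ) := Rep.nat (hr r List.mem_cons_self)
          have h1024 : Rep 1024 1024 (1024 : ℤ) := Rep.nat (n := 1024) (le_refl _)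
          have hre := hLre.add ((h1024.mul hrr).mul hn1.1)
          have him := hLim.add ((h1024.mul hrr).mul hn1.2)
          obtain ⟨z, h1, h2, h3⟩ := ih (rs := rs) (ns := ns) (m := m + 1) hcs
            (fun x hx => hr x (List.mem_cons_of_mem _ hx)) hok2 (by simpa using hn)
            (List.Forall₂.cons (⟨hre.mono (by norm_num), him.mono (by norm_num)⟩ :
              RepC (2 ^ 74) ⟨Nat.add (Nat.mul L c.re) (Nat.mul (Nat.mul 1024 r) (nun n).re),
                Nat.add (Nat.mul L c.im) (Nat.mul (Nat.mul 1024 r) (nun n).im)⟩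
                (⟨(L : ℤ) * c'.re + 1024 * (r : ℤ) * (nz n).re,
                  (L : ℤ) * c'.im + 1024 * (r : ℤ) * (nz n).im⟩ : ZN)) hacc) (by simp [hm])
          rw [e] at h2 h3
          refine ⟨z, h1, h2, ?_⟩
          rw [h3]
          have h4 : Lf ((⟨(L : ℤ) * c'.re + 1024 * (r : ℤ) * (nz n).re,
                  (L : ℤ) * c'.im + 1024 * (r : ℤ) * (nz n).im⟩ : ZN) :: az) (dn a (m + 1)) =
              2 * (conj (a (m + 1)) * (⟨(L : ℤ) * c'.re + 1024 * (r : ℤ) * (nz n).re,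
                  (L : ℤ) * c'.im + 1024 * (r : ℤ) * (nz n).im⟩ : ZN).toC).re +
                Lf az (dn a m) := rfl
          have h5 : (⟨(L : ℤ) * c'.re + 1024 * (r : ℤ) * (nz n).re,
                  (L : ℤ) * c'.im + 1024 * (r : ℤ) * (nz n).im⟩ : ZN).toC =
              ((L : ℝ) : ℂ) * c'.toC + ((1024 * r : ℝ) : ℂ) * (nz n).toC := by
            apply Complex.ext <;> simp [ZN.toC]
          have h6 : ua a (m + 1) (c :: cs).length =
              conj (a (m + 1)) :: ua a (m + 1 + 1) cs.length := rfl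
          have h7 : conj (a (m + 1)) * (((L : ℝ) : ℂ) * c'.toC +
              ((1024 * r : ℝ) : ℂ) * (nz n).toC) = ((L : ℝ) : ℂ) * (conj (a (m + 1)) * c'.toC) +
              ((-(2 ^ 30 * r) : ℝ) : ℂ) * (conj (a (m + 1)) * n.nu) := by
            rw [nz_toC]
            push_cast
            ring
          have h8 : (conj (a (m + 1)) * n.nu).re = (conj n.nu * a (m + 1)).re := by
            rw [← Complex.conj_re (conj (a (m + 1)) * n.nu), map_mul, Complex.conj_conj, mul_comm]
          have h9 : linQ a (m + 1) (r :: rs) (n :: ns) =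
              r * (conj n.nu * a (m + 1)).re + linQ a (m + 1 + 1) rs ns := rfl
          rw [h4, h5, h6, h7, dotZ_cons, Complex.add_re, Complex.add_re, Complex.re_ofReal_mul,
            Complex.re_ofReal_mul, conj_mul_re (a (m + 1)) c'.toC, h8, h9]
          ring

/-- All linear terms. -/
lemma mkb0_rep {L : ℕ} (hL : L ≤ 1024) (a : ℕ → ℂ) {x1 kr ki : ℕ} {X1 Kr Ki : ℤ}
    (hx1 : Rep (2 ^ 72) x1 X1) (hkr : Rep (2 ^ 20) kr Kr) (hki : Rep (2 ^ 20) ki Ki)
    {cs : List CN} {cz : List ZN} (hc : List.Forall₂ (RepC (2 ^ 60)) cs cz) (hd : 2 ≤ cs.length)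
    {r1 r2 : ℕ} {rs : List ℕ} (hr1 : r1 ≤ 2 ^ 25) (hr2 : r2 ≤ 2 ^ 25)
    (hr : ∀ r ∈ rs, r ≤ 2 ^ 25) {n2 : RT} {ns : List RT} (hok : noks (n2 :: ns) = true)
    (hn : ns.length + 2 ≤ cs.length) :
    ∃ z : List ZN, List.Forall₂ (RepC (2 ^ 74))
      (mkb0 L x1 kr ki cs (r1 :: r2 :: rs) (n2 :: ns)) z ∧ z.length = cs.length ∧
      Lf z (dn a cs.length) = 2 * (L * (dotZ cz (ua a 1 cs.length)).re) -
        2 ^ 31 * (r1 * (a 1).re + linQ a 2 (r2 :: rs) (n2 :: ns)) + 2 * X1 * (a 1).re +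
          2 * 2 ^ 38 * (conj (⟨Kr, Ki⟩ : ZN).toC * a 2).re := by
  have hLr : Rep 1024 L (L : ℤ) := Rep.nat hL
  cases hc with
  | nil => simp at hd
  | @cons c1 c1' cs cz hc1 hcs =>
    cases hcs with
    | nil => simp at hd
    | @cons c2 c2' cs cz hc2 hcs =>
      obtain ⟨hok1, hok2⟩ := noks_cons hok
      have hn1 := nun_rep n2 hok1
      have h1024 : Rep 1024 1024 (1024 : ℤ) := Rep.nat (n := 1024) (le_refl _)
      have hr2' : Rep (2 ^ 25) r2 (r2 : ℤ) := Rep.nat hr2
      have h38 : Rep 274877906944 274877906944 (274877906944 : ℤ) :=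
        Rep.nat (n := 274877906944) (le_refl _)
      have hb2r := ((hLr.mul hc2.1).add ((h1024.mul hr2').mul hn1.1)).add (h38.mul hkr)
      have hb2i := ((hLr.mul hc2.2).add ((h1024.mul hr2').mul hn1.2)).add (h38.mul hki)
      have hr1' : Rep (2 ^ 55) (Nat.sub M (Nat.mul 1073741824 r1)) (-(1073741824 * (r1 : ℤ))) := by
        have h6 : 1073741824 * r1 ≤ M := by
          have : 1073741824 * r1 ≤ 1073741824 * 2 ^ 25 := Nat.mul_le_mul_left _ hr1
          exact this.trans (by norm_num [M])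
        refine ⟨⟨1, ?_⟩, ?_⟩
        · have h7 : ((Nat.sub M (Nat.mul 1073741824 r1) : ℕ) : ℤ) =
              (M : ℕ) - (1073741824 * (r1 : ℤ)) := by
            have h8 : Nat.sub M (Nat.mul 1073741824 r1) = M - 1073741824 * r1 := rfl
            rw [h8]
            push_cast [Nat.cast_sub h6]
            ring
          rw [h7]
          ring
        · have h9 : (r1 : ℤ) ≤ 2 ^ 25 := by exact_mod_cast hr1
          have h10 : (0 : ℤ) ≤ r1 := Int.natCast_nonneg _
          have h4 : (((2 ^ 55 : ℕ)) : ℤ) = 1073741824 * 2 ^ 25 := by norm_num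
          rw [abs_neg, abs_of_nonneg (by positivity), h4]
          linarith
      have hb1r := ((hLr.mul hc1.1).add hr1').add hx1
      have hb1i := hLr.mul hc1.2
      obtain ⟨z, h1, h2, h3⟩ := mkb_rep hL a (rs := rs) (ns := ns) (m := 2)
        (acc := [⟨Nat.add (Nat.add (Nat.mul L c2.re) (Nat.mul (Nat.mul 1024 r2) (nun n2).re))
                  (Nat.mul 274877906944 kr),
                Nat.add (Nat.add (Nat.mul L c2.im) (Nat.mul (Nat.mul 1024 r2) (nun n2).im))
                  (Nat.mul 274877906944 ki)⟩,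
               ⟨Nat.add (Nat.add (Nat.mul L c1.re) (Nat.sub M (Nat.mul 1073741824 r1))) x1,
                Nat.mul L c1.im⟩])
        (az := [⟨(L : ℤ) * c2'.re + 1024 * (r2 : ℤ) * (nz n2).re + 274877906944 * Kr,
                 (L : ℤ) * c2'.im + 1024 * (r2 : ℤ) * (nz n2).im + 274877906944 * Ki⟩,
                ⟨(L : ℤ) * c1'.re + -(1073741824 * (r1 : ℤ)) + X1, (L : ℤ) * c1'.im⟩])
        hcs hr hok2 (by simp at hn; omega)
        (List.Forall₂.cons ⟨hb2r.mono (by norm_num), hb2i.mono (by norm_num)⟩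
          (List.Forall₂.cons ⟨hb1r.mono (by norm_num), hb1i.mono (by norm_num)⟩
            List.Forall₂.nil)) rfl
      have e : 2 + cs.length = (c1 :: c2 :: cs).length := by
        rw [List.length_cons, List.length_cons]; ring
      rw [e] at h2 h3
      refine ⟨z, h1, h2, ?_⟩
      rw [h3]
      have h6 : ua a 1 (c1 :: c2 :: cs).length =
          conj (a 1) :: conj (a 2) :: ua a 3 cs.length := rfl
      have h9 : linQ a 2 (r2 :: rs) (n2 :: ns) =
              r2 * (conj n2.nu * a 2).re + linQ a 3 rs ns := rfl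
      have h10 : Lf [(⟨(L : ℤ) * c2'.re + 1024 * (r2 : ℤ) * (nz n2).re + 274877906944 * Kr,
                 (L : ℤ) * c2'.im + 1024 * (r2 : ℤ) * (nz n2).im + 274877906944 * Ki⟩ : ZN),
                ⟨(L : ℤ) * c1'.re + -(1073741824 * (r1 : ℤ)) + X1, (L : ℤ) * c1'.im⟩]
                (dn a 2) =
          2 * (conj (a 2) * (⟨(L : ℤ) * c2'.re + 1024 * (r2 : ℤ) * (nz n2).re +
              274877906944 * Kr, (L : ℤ) * c2'.im + 1024 * (r2 : ℤ) * (nz n2).im +
              274877906944 * Ki⟩ : ZN).toC).re +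
          (2 * (conj (a 1) * (⟨(L : ℤ) * c1'.re + -(1073741824 * (r1 : ℤ)) + X1,
            (L : ℤ) * c1'.im⟩ : ZN).toC).re + 0) := rfl
      have h11 : (⟨(L : ℤ) * c2'.re + 1024 * (r2 : ℤ) * (nz n2).re +
              274877906944 * Kr, (L : ℤ) * c2'.im + 1024 * (r2 : ℤ) * (nz n2).im +
              274877906944 * Ki⟩ : ZN).toC = ((L : ℝ) : ℂ) * c2'.toC +
              ((1024 * r2 : ℝ) : ℂ) * (nz n2).toC +
              ((274877906944 : ℝ) : ℂ) * (⟨Kr, Ki⟩ : ZN).toC := by
        apply Complex.ext <;> simp [ZN.toC]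
      have h12 : (⟨(L : ℤ) * c1'.re + -(1073741824 * (r1 : ℤ)) + X1,
            (L : ℤ) * c1'.im⟩ : ZN).toC = ((L : ℝ) : ℂ) * c1'.toC +
            ((-(1073741824 * r1) + X1 : ℝ) : ℂ) := by
        apply Complex.ext
        · simp [ZN.toC]
          ring
        · simp [ZN.toC]
      have h13 : conj (a 2) * (((L : ℝ) : ℂ) * c2'.toC + ((1024 * r2 : ℝ) : ℂ) * (nz n2).toC +
              ((274877906944 : ℝ) : ℂ) * (⟨Kr, Ki⟩ : ZN).toC) =
            ((L : ℝ) : ℂ) * (conj (a 2) * c2'.toC) +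
              ((-(2 ^ 30 * r2) : ℝ) : ℂ) * (conj (a 2) * n2.nu) +
              ((274877906944 : ℝ) : ℂ) * (conj (a 2) * (⟨Kr, Ki⟩ : ZN).toC) := by
        rw [nz_toC]
        push_cast
        ring
      have h14 : conj (a 1) * (((L : ℝ) : ℂ) * c1'.toC +
            ((-(1073741824 * r1) + X1 : ℝ) : ℂ)) = ((L : ℝ) : ℂ) * (conj (a 1) * c1'.toC) +
            ((-(1073741824 * r1) + X1 : ℝ) : ℂ) * conj (a 1) := by ring
      have h15 : ∀ u v : ℂ, (conj u * v).re = (conj v * u).re := by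
        intro u v
        rw [← Complex.conj_re (conj u * v), map_mul, Complex.conj_conj, mul_comm]
      rw [h10, h11, h12, h13, h14, h6, h9, dotZ_cons, dotZ_cons]
      simp only [Complex.add_re, Complex.re_ofReal_mul]
      rw [conj_mul_re (a 2) c2'.toC, conj_mul_re (a 1) c1'.toC, h15 (a 2) n2.nu,
        h15 (a 2) (⟨Kr, Ki⟩ : ZN).toC, Complex.conj_re]
      norm_num
      ring

end Pool.Agent.BFC
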