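import Pool.Agent.Lib.BFC.Leaf
import Pool.Agent.Lib.BFC.Defs

/-!
# The constants of a slice

`Slice.ok S` checks the powers of the radii and the tail at both ends of the slice.
-/

set_option autoImplicit false

namespace Pool.Agent.BFC

/-- `R ^ (i + 1) ≤ rho * 2 ^ (24 i)` for all entries. -/
def okR (R : ℕ) : ℕ → List ℕ → Bool
  | _, [] => true
  | i, r :: rs => Nat.ble (R ^ (i + 1)) (r * 2 ^ (24 * i)) && okR R (i + 1) rs

/-- `R ^ (2 n) * 2 ^ 40 ≤ kap * 2 ^ (48 n)` for all entries. -/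
def okK (R : ℕ) : ℕ → List ℕ → Bool
  | _, [] => true
  | n, k :: ks => Nat.ble (R ^ (2 * n) * 2 ^ 40) (k * 2 ^ (48 * n)) && okK R (n + 1) ks

/-- All conditions at one end. -/
def okEnd (d N R : ℕ) (rho kap : List ℕ) (tau : ℕ) : Bool :=
  Nat.ble 1 R && (Nat.ble (R + 1) (2 ^ 24) && (Nat.beq rho.length d &&
    (Nat.beq kap.length (N - 4) && (okR R 0 rho && (okK R 5 kap &&
      Nat.ble (R ^ (2 * (N + 1)) * (2 ^ 40 * 2 ^ 48))
        (tau * (2 ^ 48 - R ^ 2) * 2 ^ (48 * (N + 1))))))))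

/-- The number of exact coefficients. -/
def Slice.N (S : Slice) : ℕ := S.nA + S.d

/-- The check of a slice. -/
def Slice.ok (S : Slice) : Bool :=
  Nat.ble 4 S.d && (Nat.ble (S.L1 + 1) S.L2 && (Nat.ble S.L2 512 && (Nat.ble S.S1 512 &&
    (Nat.ble S.S2 1024 && (okEnd S.d (S.nA + S.d) S.R1 S.rho1 S.kap1 S.tau1 &&
      okEnd S.d (S.nA + S.d) S.R2 S.rho2 S.kap2 S.tau2)))))

/-- The constants of one end. -/
noncomputable def mkE (L : ℕ) (rho kap : List ℕ) (tau NP : ℕ) : EndC :=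
  ⟨(L : ℝ) / 1024, (rho.take NP).map (fun x : ℕ => (x : ℝ) / 2 ^ 24),
    (kap.drop (NP - 4)).map (fun x : ℕ => (x : ℝ) / 2 ^ 40), (tau : ℝ) / 2 ^ 40⟩

/-- The constants of the left end. -/
noncomputable def Slice.e1 (S : Slice) (NP : ℕ) : EndC := mkE S.L1 S.rho1 S.kap1 S.tau1 NP

/-- The constants of the right end. -/
noncomputable def Slice.e2 (S : Slice) (NP : ℕ) : EndC := mkE S.L2 S.rho2 S.kap2 S.tau2 NP

namespace SliceOkAux

theorem okR_spec {R : ℕ} : ∀ (rs : List ℕ) (i : ℕ), okR R i rs = true → ∀ j (h : j < rs.length),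
    R ^ (i + j + 1) ≤ rs[j] * 2 ^ (24 * (i + j))
  | [], _, _, j, h => by simp at h
  | r :: rs, i, hok, 0, _ => by
    simp only [okR, Bool.and_eq_true] at hok
    simpa using Nat.le_of_ble_eq_true hok.1
  | r :: rs, i, hok, j + 1, h => by
    simp only [okR, Bool.and_eq_true] at hok
    have ih := okR_spec rs (i + 1) hok.2 j (by simpa using h)
    have e : i + 1 + j = i + (j + 1) := by omega
    rw [e] at ih
    simpa using ih

theorem okK_spec {R : ℕ} : ∀ (ks : List ℕ) (n : ℕ), okK R n ks = true → ∀ j (h : j < ks.length),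
    R ^ (2 * (n + j)) * 2 ^ 40 ≤ ks[j] * 2 ^ (48 * (n + j))
  | [], _, _, j, h => by simp at h
  | k :: ks, n, hok, 0, _ => by
    simp only [okK, Bool.and_eq_true] at hok
    simpa using Nat.le_of_ble_eq_true hok.1
  | k :: ks, n, hok, j + 1, h => by
    simp only [okK, Bool.and_eq_true] at hok
    have ih := okK_spec ks (n + 1) hok.2 j (by simpa using h)
    have e : n + 1 + j = n + (j + 1) := by omega
    rw [e] at ih
    simpa using ih

theorem good_of_ok {d N R : ℕ} {rho kap : List ℕ} {tau : ℕ}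
    (h : okEnd d N R rho kap tau = true) {NP : ℕ} (h4 : 4 ≤ NP) (hd : NP ≤ d) (L : ℕ) :
    (mkE L rho kap tau NP).Good NP N ((R : ℝ) / 2 ^ 24) := by
  simp only [okEnd, Bool.and_eq_true] at h
  obtain ⟨_, hR2, hrl, hkl, hr, hk, ht⟩ := h
  have hR2 : R + 1 ≤ 2 ^ 24 := Nat.le_of_ble_eq_true hR2
  have hrl : rho.length = d := Nat.eq_of_beq_eq_true hrl
  have hkl : kap.length = N - 4 := Nat.eq_of_beq_eq_true hkl
  have ht := Nat.le_of_ble_eq_true ht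
  refine ⟨?_, ?_, ?_, ?_, ?_⟩
  · simp only [mkE, List.length_map, List.length_take, hrl]
    omega
  · simp only [mkE, List.length_map, List.length_drop, hkl]
    omega
  · intro i hi
    simp only [mkE, List.length_map, List.length_take, hrl] at hi
    have hi' : i < rho.length := by omega
    have g := okR_spec rho 0 hr i hi'
    rw [zero_add] at g
    have e : (mkE L rho kap tau NP).rho[i]'(by
        simp only [mkE, List.length_map, List.length_take, hrl]; omega) =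
        (rho[i] : ℝ) / 2 ^ 24 := by
      simp [mkE]
    rw [e, div_pow, ← pow_mul, div_le_div_iff₀ (by positivity) (by positivity)]
    have g' : (R : ℝ) ^ (i + 1) ≤ (rho[i] : ℝ) * 2 ^ (24 * i) := by exact_mod_cast g
    calc (R : ℝ) ^ (i + 1) * 2 ^ 24 ≤ ((rho[i] : ℝ) * 2 ^ (24 * i)) * 2 ^ 24 :=
          mul_le_mul_of_nonneg_right g' (by positivity)
      _ = (rho[i] : ℝ) * 2 ^ (24 * (i + 1)) := by
          rw [show 24 * (i + 1) = 24 * i + 24 by ring, pow_add]; ring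
  · intro i hi
    simp only [mkE, List.length_map, List.length_drop, hkl] at hi
    have hi' : NP - 4 + i < kap.length := by omega
    have g := okK_spec kap 5 hk (NP - 4 + i) hi'
    have e0 : 5 + (NP - 4 + i) = NP + 1 + i := by omega
    rw [e0] at g
    have e : (mkE L rho kap tau NP).kap[i]'(by
        simp only [mkE, List.length_map, List.length_drop, hkl]; omega) =
        (kap[NP - 4 + i] : ℝ) / 2 ^ 40 := by
      simp [mkE]
    rw [e, div_pow, ← pow_mul, div_le_div_iff₀ (by positivity) (by positivity)]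
    have g' : (R : ℝ) ^ (2 * (NP + 1 + i)) * 2 ^ 40 ≤
        (kap[NP - 4 + i] : ℝ) * 2 ^ (48 * (NP + 1 + i)) := by exact_mod_cast g
    calc (R : ℝ) ^ (2 * (NP + 1 + i)) * 2 ^ 40 ≤
          (kap[NP - 4 + i] : ℝ) * 2 ^ (48 * (NP + 1 + i)) := g'
      _ = (kap[NP - 4 + i] : ℝ) * 2 ^ (24 * (2 * (NP + 1 + i))) := by
          congr 2; ring
  · show ((R : ℝ) / 2 ^ 24) ^ (2 * (N + 1)) / (1 - ((R : ℝ) / 2 ^ 24) ^ 2) ≤ (tau : ℝ) / 2 ^ 40
    have hRr : (R : ℝ) + 1 ≤ 2 ^ 24 := by exact_mod_cast hR2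
    have hR0 : (0 : ℝ) ≤ R := Nat.cast_nonneg R
    have hsq : (R : ℝ) ^ 2 < 2 ^ 48 := by
      have : (R : ℝ) < 2 ^ 24 := by linarith
      calc (R : ℝ) ^ 2 < (2 ^ 24) ^ 2 := pow_lt_pow_left₀ this hR0 (by norm_num)
        _ = 2 ^ 48 := by norm_num
    have hsqN : R ^ 2 ≤ 2 ^ 48 := by exact_mod_cast hsq.le
    have g' : (R : ℝ) ^ (2 * (N + 1)) * (2 ^ 40 * 2 ^ 48) ≤
        (tau : ℝ) * (2 ^ 48 - (R : ℝ) ^ 2) * 2 ^ (48 * (N + 1)) := by
      have h3 : ((2 ^ 48 - R ^ 2 : ℕ) : ℝ) = 2 ^ 48 - (R : ℝ) ^ 2 := by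
        rw [Nat.cast_sub hsqN, Nat.cast_pow, Nat.cast_pow, Nat.cast_ofNat]
      have := (Nat.cast_le (α := ℝ)).2 ht
      simp only [Nat.cast_mul, Nat.cast_pow, Nat.cast_ofNat, h3] at this
      exact this
    have h1 : (1 : ℝ) - ((R : ℝ) / 2 ^ 24) ^ 2 = (2 ^ 48 - (R : ℝ) ^ 2) / 2 ^ 48 := by
      field_simp
    have h2 : (0 : ℝ) < 2 ^ 48 - (R : ℝ) ^ 2 := by linarith
    rw [h1, div_pow, ← pow_mul, div_div_eq_mul_div, div_le_div_iff₀ h2 (by positivity),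
      div_mul_eq_mul_div, div_mul_eq_mul_div, div_le_iff₀ (by positivity)]
    calc (R : ℝ) ^ (2 * (N + 1)) * 2 ^ 48 * 2 ^ 40 =
          (R : ℝ) ^ (2 * (N + 1)) * (2 ^ 40 * 2 ^ 48) := by ring
      _ ≤ (tau : ℝ) * (2 ^ 48 - (R : ℝ) ^ 2) * 2 ^ (48 * (N + 1)) := g'
      _ = (tau : ℝ) * (2 ^ 48 - (R : ℝ) ^ 2) * 2 ^ (24 * (2 * (N + 1))) := by
          congr 2; ring

theorem radius_of_ok {d N R : ℕ} {rho kap : List ℕ} {tau : ℕ}
    (h : okEnd d N R rho kap tau = true) :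
    (0 : ℝ) < (R : ℝ) / 2 ^ 24 ∧ (R : ℝ) / 2 ^ 24 < 1 := by
  simp only [okEnd, Bool.and_eq_true] at h
  obtain ⟨hR1, hR2, _⟩ := h
  have hR1 : 1 ≤ R := Nat.le_of_ble_eq_true hR1
  have hR2 : R + 1 ≤ 2 ^ 24 := Nat.le_of_ble_eq_true hR2
  have h1 : (1 : ℝ) ≤ R := by exact_mod_cast hR1
  have h2 : (R : ℝ) + 1 ≤ 2 ^ 24 := by exact_mod_cast hR2
  constructor
  · positivity
  · rw [div_lt_one (by positivity)]
    linarith

end SliceOkAux

open SliceOkAux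

theorem Slice.ok_spec {S : Slice} (h : S.ok = true) :
    4 ≤ S.d ∧ S.L1 < S.L2 ∧ S.L2 ≤ 512 ∧ S.S1 ≤ 512 ∧ S.S2 ≤ 1024 ∧
      okEnd S.d S.N S.R1 S.rho1 S.kap1 S.tau1 = true ∧
      okEnd S.d S.N S.R2 S.rho2 S.kap2 S.tau2 = true := by
  simp only [Slice.ok, Bool.and_eq_true] at h
  obtain ⟨h1, h2, h3, h4, h5, h6, h7⟩ := h
  exact ⟨Nat.le_of_ble_eq_true h1, Nat.le_of_ble_eq_true h2, Nat.le_of_ble_eq_true h3,
    Nat.le_of_ble_eq_true h4, Nat.le_of_ble_eq_true h5, h6, h7⟩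

theorem Slice.e1_good {S : Slice} (h : S.ok = true) {NP : ℕ} (h4 : 4 ≤ NP) (hd : NP ≤ S.d) :
    (S.e1 NP).Good NP S.N ((S.R1 : ℝ) / 2 ^ 24) :=
  good_of_ok (Slice.ok_spec h).2.2.2.2.2.1 h4 hd S.L1

theorem Slice.e2_good {S : Slice} (h : S.ok = true) {NP : ℕ} (h4 : 4 ≤ NP) (hd : NP ≤ S.d) :
    (S.e2 NP).Good NP S.N ((S.R2 : ℝ) / 2 ^ 24) :=
  good_of_ok (Slice.ok_spec h).2.2.2.2.2.2 h4 hd S.L2

theorem Slice.R1_mem {S : Slice} (h : S.ok = true) :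
    (0 : ℝ) < (S.R1 : ℝ) / 2 ^ 24 ∧ (S.R1 : ℝ) / 2 ^ 24 < 1 :=
  radius_of_ok (Slice.ok_spec h).2.2.2.2.2.1

theorem Slice.R2_mem {S : Slice} (h : S.ok = true) :
    (0 : ℝ) < (S.R2 : ℝ) / 2 ^ 24 ∧ (S.R2 : ℝ) / 2 ^ 24 < 1 :=
  radius_of_ok (Slice.ok_spec h).2.2.2.2.2.2

theorem Slice.l_lt {S : Slice} (h : S.ok = true) (NP NP' : ℕ) : (S.e1 NP).l < (S.e2 NP').l := by
  have h1 := (Slice.ok_spec h).2.1
  have h2 : (S.L1 : ℝ) < S.L2 := by exact_mod_cast h1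
  show (S.L1 : ℝ) / 1024 < (S.L2 : ℝ) / 1024
  linarith

theorem Slice.l_le {S : Slice} (h : S.ok = true) (NP : ℕ) : (S.e2 NP).l ≤ 1 / 2 := by
  have h1 := (Slice.ok_spec h).2.2.1
  have h2 : (S.L2 : ℝ) ≤ 512 := by exact_mod_cast h1
  show (S.L2 : ℝ) / 1024 ≤ 1 / 2
  linarith

theorem Slice.l_nonneg (S : Slice) (NP : ℕ) : 0 ≤ (S.e1 NP).l := by
  show 0 ≤ (S.L1 : ℝ) / 1024
  positivity

end Pool.Agent.BFC
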