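import Pool.Agent.Lib.BFC.LeafB
import Pool.Agent.Lib.BFC.SliceOk

/-!
# Soundness of the leaf checker
-/

set_option autoImplicit false

open scoped ComplexConjugate
open Pool.Agent.Lib.BFC

namespace Pool.Agent.BFC

/-- Further bounds for a slice. -/
def Slice.bd (S : Slice) : Bool :=
  S.rho1.all (fun r => Nat.ble r 33554432) && (S.rho2.all (fun r => Nat.ble r 33554432) &&
    Nat.ble (S.nA + S.d) 60)

lemma lenN_eq (cs : List RT) : lenN cs = cs.length := by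
  induction cs with
  | nil => rfl
  | cons c cs ih =>
    have h : lenN (c :: cs) = Nat.add (lenN cs) 1 := rfl
    rw [h, ih, List.length_cons]

lemma dropK_eq (cs : List RT) (ks : List ℕ) (h : 3 ≤ cs.length) :
    dropK cs ks = ks.drop (cs.length - 3) := by
  match cs, h with
  | c1 :: c2 :: c3 :: t, _ =>
    have key : ∀ t : List RT, (@List.rec RT (fun _ => List ℕ) ks
          (fun _ _ ih => @List.casesOn ℕ (fun _ => List ℕ) ih [] (fun _ t => t)) t) =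
        ks.drop t.length := by
      intro t
      induction t with
      | nil => simp
      | cons c t ih =>
        have h1 : (@List.rec RT (fun _ => List ℕ) ks
          (fun _ _ ih => @List.casesOn ℕ (fun _ => List ℕ) ih [] (fun _ t => t)) (c :: t)) =
          (@List.casesOn ℕ (fun _ => List ℕ) (@List.rec RT (fun _ => List ℕ) ks
          (fun _ _ ih => @List.casesOn ℕ (fun _ => List ℕ) ih [] (fun _ t => t)) t) []
            (fun _ t => t)) := rfl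
        rw [h1, ih, List.length_cons, ← List.tail_drop]
        cases List.drop t.length ks <;> rfl
    show (@List.rec RT (fun _ => List ℕ) ks
          (fun _ _ ih => @List.casesOn ℕ (fun _ => List ℕ) ih [] (fun _ t => t)) t) = _
    rw [key t]
    simp

lemma decD_cons (k : ℕ) (ks : List ℕ) (c : ℕ) :
    decD (k :: ks) c = Nat.mod c W20 :: decD ks (Nat.div c W20) := rfl

lemma decD_spec : ∀ (ks : List ℕ) (c : ℕ), (decD ks c).length = ks.length ∧
    ∀ D ∈ decD ks c, D < 2 ^ 20 := by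
  intro ks
  induction ks with
  | nil => intro c; exact ⟨rfl, by intro D h; simp [decD] at h⟩
  | cons k ks ih =>
    intro c
    obtain ⟨h1, h2⟩ := ih (Nat.div c W20)
    rw [decD_cons]
    refine ⟨by simp [h1], ?_⟩
    intro D h
    rcases List.mem_cons.1 h with rfl | h
    · exact fld_lt c
    · exact h2 D h

lemma allpos_spec : ∀ {Ds : List ℕ}, allpos Ds = true → ∀ D ∈ Ds, 1 ≤ D := by
  intro Ds
  induction Ds with
  | nil => intro _ D h; simp at h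
  | cons D Ds ih =>
    intro h D' hD'
    obtain ⟨h1, h2⟩ := cond_true (show cond (Nat.ble 1 D) (allpos Ds) false = true from h)
    rcases List.mem_cons.1 hD' with rfl | hD'
    · exact Nat.le_of_ble_eq_true h1
    · exact ih h2 D' hD'

/-- Rounding up a quotient. -/
lemma div_le_floor_add (x y : ℕ) (hy : 1 ≤ y) : (x : ℝ) / y ≤ ((Nat.div x y : ℕ) : ℝ) + 1 := by
  have hy' : (0 : ℝ) < y := by exact_mod_cast hy
  rw [div_le_iff₀ hy']
  have h1 := Nat.div_add_mod x y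
  have h2 := Nat.mod_lt x (show 0 < y from hy)
  have h3 : x ≤ (x / y + 1) * y := by nlinarith
  have h4 : (x : ℝ) ≤ (((x / y + 1) * y : ℕ) : ℝ) := Nat.cast_le.2 h3
  have h5 : Nat.div x y = x / y := rfl
  rw [h5]
  push_cast at h4 ⊢
  exact h4

lemma quad_le (a : ℕ → ℂ) : ∀ (ks Ds : List ℕ) (n : ℕ), (∀ D ∈ Ds, 1 ≤ D) →
    2 ^ 64 * quadD a n (ks.map (fun x : ℕ => (x : ℝ) / 2 ^ 40))
      (Ds.map (fun x : ℕ => (x : ℝ) / 2 ^ 16)) ≤
      2 ^ 48 * sD a n Ds + ksum ks Ds := by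
  intro ks
  induction ks with
  | nil =>
    intro Ds n hD
    have h1 : ∀ (Ds : List ℕ) (n : ℕ), 0 ≤ sD a n Ds := by
      intro Ds
      induction Ds with
      | nil => intro n; simp [sD]
      | cons D Ds ih =>
        intro n
        simp only [sD]
        have := ih (n + 1)
        positivity
    have h2 : ksum [] Ds = 0 := rfl
    rw [h2]
    simp only [List.map_nil]
    have h3 : quadD a n [] (Ds.map (fun x : ℕ => (x : ℝ) / 2 ^ 16)) = 0 := by
      cases Ds <;> rfl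
    rw [h3]
    have := h1 Ds n
    push_cast
    linarith
  | cons κ ks ih =>
    intro Ds n hD
    cases Ds with
    | nil =>
      have h2 : ksum (κ :: ks) [] = 0 := rfl
      rw [h2]
      simp [quadD, sD]
    | cons D Ds =>
      have h1 := ih Ds (n + 1) (fun D' h => hD D' (List.mem_cons_of_mem _ h))
      have hD1 : 1 ≤ D := hD D List.mem_cons_self
      have h2 : ksum (κ :: ks) (D :: Ds) =
        Nat.add (Nat.add (Nat.div (Nat.mul κ 1099511627776) D) 1) (ksum ks Ds) := rfl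
      have h3 := div_le_floor_add (Nat.mul κ 1099511627776) D hD1
      have h4 : ((Nat.mul κ 1099511627776 : ℕ) : ℝ) = κ * 1099511627776 := by
        have : Nat.mul κ 1099511627776 = κ * 1099511627776 := rfl
        rw [this]
        push_cast
        ring
      rw [h4] at h3
      have h5 : ((ksum (κ :: ks) (D :: Ds) : ℕ) : ℝ) =
          ((Nat.div (Nat.mul κ 1099511627776) D : ℕ) : ℝ) + 1 + (ksum ks Ds : ℕ) := by
        rw [h2]
        simp only [Nat.add_eq]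
        push_cast
        ring
      rw [h5]
      simp only [List.map_cons, quadD, sD]
      have hD' : (D : ℝ) ≠ 0 := by
        have : (0 : ℝ) < D := by exact_mod_cast hD1
        exact this.ne'
      have h6 : (2 : ℝ) ^ 64 * ((κ : ℝ) / 2 ^ 40 / ((D : ℝ) / 2 ^ 16)) =
          κ * 1099511627776 / D := by
        field_simp
        ring
      have h7 : (2 : ℝ) ^ 64 * ((D : ℝ) / 2 ^ 16 * ‖a n‖ ^ 2) = 2 ^ 48 * (D * ‖a n‖ ^ 2) := by
        ring
      linarith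

lemma linP_take (a : ℕ → ℂ) : ∀ (rs : List ℕ) (cs : List RT) (k n : ℕ), cs.length ≤ k →
    2 ^ 24 * linP a n ((rs.take k).map (fun x : ℕ => (x : ℝ) / 2 ^ 24)) (cs.map RT.nu) =
      linQ a n rs cs := by
  intro rs
  induction rs with
  | nil =>
    intro cs k n _
    rw [linQ_nil]
    simp only [List.take_nil, List.map_nil]
    have : linP a n [] (cs.map RT.nu) = 0 := by cases cs <;> rfl
    rw [this, mul_zero]
  | cons r rs ih =>
    intro cs k n hk
    cases cs with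
    | nil =>
      rw [linQ_nil', List.map_nil]
      have : ∀ l : List ℝ, linP a n l [] = 0 := by intro l; cases l <;> rfl
      rw [this, mul_zero]
    | cons c cs =>
      cases k with
      | zero => simp at hk
      | succ k =>
        rw [List.take_succ_cons, List.map_cons, List.map_cons]
        simp only [linP, linQ]
        rw [mul_add, ih cs k (n + 1) (by simpa using hk)]
        ring

lemma drop_dn (a : ℕ → ℂ) (d : ℕ) : ∀ n : ℕ, (dn a (n + d)).drop n = dn a d := by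
  intro n
  induction n with
  | zero => simp
  | succ n ih =>
    have h : n + 1 + d = (n + d) + 1 := by ring
    rw [h, dn, List.drop_succ_cons, ih]

lemma mem_dn {a : ℕ → ℂ} (ha : ∀ n, ‖a n‖ ≤ 1) (n : ℕ) : ∀ x ∈ dn a n, ‖x‖ ≤ 1 := by
  induction n with
  | zero => intro x h; simp [dn] at h
  | succ n ih =>
    intro x h
    rcases List.mem_cons.1 h with rfl | h
    · exact ha _
    · exact ih x h

/-- The inequality at one end. -/
lemma end_bound {d nA L S1 S2 q K k1 A tau cu cs0 e' : ℕ} {Kr Ki c0 : ℤ} {r1 r2 : ℕ}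
    {rs ks Ds : List ℕ} {c1 : RT} {cs : List RT} {z zb : List ZN} {zs : List ZRow}
    {dz : List ℤ} {a : ℕ → ℂ} {Err D8 : ℝ}
    (hq : 1 ≤ q) (hDs : ∀ D ∈ Ds, 1 ≤ D) (hS1 : S1 ≤ 1024) (hS2 : S2 ≤ 1024)
    (hNP : (c1 :: cs).length + 1 ≤ d) (hrho : (r1 :: r2 :: rs).length = d)
    (hform : 2 ^ 44 * GG (psiC z) (revl ((L : ℝ) / 1024) a (nA + d)) + DQ dz (dn a (nA + d)) =
      Qf zs (dn a (nA + d)) + 2 * ((L : ℝ) / 1024 * (dotZ zb (ua a 1 d)).re) +
        c0 * ((L : ℝ) / 1024) ^ 2)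
    (hn : 2 ^ 44 * nsq (psiC z) = c0)
    (hDQ : DQ dz (dn a (nA + d)) = ((q * 268435456 : ℕ) : ℝ) * nsq (dn a (nA + d)) -
      2 ^ 28 * sD a ((c1 :: cs).length + 1 + 1) Ds)
    {zl : List ZN}
    (hLf : Lf zl (dn a d) = 2 * (L * (dotZ zb (ua a 1 d)).re) -
        2 ^ 31 * (r1 * (a 1).re + linQ a 2 (r2 :: rs) (c1 :: cs)) +
          2 * (((((1024 - S1 : ℕ) : ℤ) * K + L * Kr) * A * 1048576 + 274877906944 * k1 : ℤ) : ℝ) *
            (a 1).re + 2 * 2 ^ 38 * (conj (⟨Kr, Ki⟩ : ZN).toC * a 2).re)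
    (hrun : -(2 ^ 20 * Qf zs (dn a (nA + d))) - 2 ^ 10 * Lf zl (dn a d) ≤ e' + Err)
    (hcst : (((1048576 - (L : ℤ) * L) * ((q : ℤ) * 268435456 + c0 +
        (2 * (((1024 - S1 : ℕ) : ℤ) * K * 262144 +
          (((1024 - S1 : ℕ) : ℤ) * K + L * Kr) * (A * A)) +
          2 * k1 * (((1024 - S2 : ℕ) : ℤ) * 262144))) : ℤ) : ℝ) ≤ cs0)
    (hcheck : (e' : ℝ) + cu + ((ksum ks Ds : ℕ) + (((Nat.div (Nat.mul tau 1099511627776) q : ℕ) : ℝ)
      + 1) + cs0) + 36028797018963968 * L < 36893488147419103232)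
    (hD8 : 2 ^ 64 * D8 + Err ≤ cu) :
    FF ⟨psiC z, (q : ℝ) / 2 ^ 16, (K : ℝ) / 2 ^ 16, (⟨Kr, Ki⟩ : ZN).toC / 2 ^ 16,
        (k1 : ℝ) / 2 ^ 16, (A : ℝ) / 2 ^ 9, Ds.map (fun x : ℕ => (x : ℝ) / 2 ^ 16)⟩
      ((S1 : ℝ) / 1024) ((S2 : ℝ) / 1024) (nA + d)
      ⟨(L : ℝ) / 1024, ((r1 :: r2 :: rs).take ((c1 :: cs).length + 1)).map
        (fun x : ℕ => (x : ℝ) / 2 ^ 24), ks.map (fun x : ℕ => (x : ℝ) / 2 ^ 40),
        (tau : ℝ) / 2 ^ 40⟩ (1 :: (c1 :: cs).map RT.nu) a + D8 < 2 * (1 - (L : ℝ) / 1024) := by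
  have hq' : (0 : ℝ) < q := by exact_mod_cast hq
  have hrl : (((r1 :: r2 :: rs).take ((c1 :: cs).length + 1)).map
      (fun x : ℕ => (x : ℝ) / 2 ^ 24)).length = (c1 :: cs).length + 1 := by
    rw [List.length_map, List.length_take, hrho]
    exact min_eq_left hNP
  have hS1' : (((1024 - S1 : ℕ) : ℤ) : ℝ) = 1024 - S1 := by push_cast [Nat.cast_sub hS1]; ring
  have hS2' : (((1024 - S2 : ℕ) : ℤ) : ℝ) = 1024 - S2 := by push_cast [Nat.cast_sub hS2]; ring
  have hlin : 2 ^ 24 * linP a 1 (((r1 :: r2 :: rs).take ((c1 :: cs).length + 1)).map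
        (fun x : ℕ => (x : ℝ) / 2 ^ 24)) (1 :: (c1 :: cs).map RT.nu) =
      r1 * (a 1).re + linQ a 2 (r2 :: rs) (c1 :: cs) := by
    rw [List.take_succ_cons, List.map_cons]
    simp only [linP]
    rw [mul_add, linP_take a (r2 :: rs) (c1 :: cs) _ 2 le_rfl]
    simp
    ring
  have hnsq : nsq (revl ((L : ℝ) / 1024) a (nA + d)) =
      nsq (dn a (nA + d)) + ((L : ℝ) / 1024) ^ 2 := by
    rw [revl_eq]
    have : ∀ xs : List ℂ, nsq (xs ++ [((((L : ℝ) / 1024 : ℝ)) : ℂ)]) =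
        nsq xs + ((L : ℝ) / 1024) ^ 2 := by
      intro xs
      induction xs with
      | nil =>
        simp only [List.nil_append, nsq]
        rw [Complex.norm_real, Real.norm_eq_abs, sq_abs]
        ring
      | cons x xs ih =>
        rw [List.cons_append]
        simp only [nsq]
        rw [ih]
        ring
    exact this _
  have hkre : ((⟨Kr, Ki⟩ : ZN).toC / 2 ^ 16).re = (Kr : ℝ) / 2 ^ 16 := by
    have : (2 : ℂ) ^ 16 = (((2 : ℝ) ^ 16 : ℝ) : ℂ) := by norm_num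
    rw [this, Complex.div_ofReal_re]
    rfl
  have hka : (conj ((⟨Kr, Ki⟩ : ZN).toC / 2 ^ 16) * a 2).re =
      (conj (⟨Kr, Ki⟩ : ZN).toC * a 2).re / 2 ^ 16 := by
    have : (2 : ℂ) ^ 16 = (((2 : ℝ) ^ 16 : ℝ) : ℂ) := by norm_num
    rw [this, map_div₀, Complex.conj_ofReal, div_mul_eq_mul_div, Complex.div_ofReal_re]
  have hquad := quad_le a ks Ds ((c1 :: cs).length + 1 + 1) hDs
  have htau : (2 : ℝ) ^ 64 * ((tau : ℝ) / 2 ^ 40 / ((q : ℝ) / 2 ^ 16)) ≤
      ((Nat.div (Nat.mul tau 1099511627776) q : ℕ) : ℝ) + 1 := by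
    have h3 := div_le_floor_add (Nat.mul tau 1099511627776) q hq
    have h4 : ((Nat.mul tau 1099511627776 : ℕ) : ℝ) = tau * 1099511627776 := by
      have : Nat.mul tau 1099511627776 = tau * 1099511627776 := rfl
      rw [this]
      push_cast
      ring
    rw [h4] at h3
    have h6 : (2 : ℝ) ^ 64 * ((tau : ℝ) / 2 ^ 40 / ((q : ℝ) / 2 ^ 16)) =
        tau * 1099511627776 / q := by
      field_simp
      ring
    rw [h6]
    exact h3
  unfold FF
  simp only [Cert.m]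
  rw [hrl, hnsq, hkre, hka]
  push_cast at hcst hLf hDQ hS1' hS2' ⊢
  rw [hS1'] at hcst hLf
  rw [hS2'] at hcst
  generalize hv1 : linP a 1 _ _ = lp at hlin ⊢
  generalize hv2 : quadD a _ _ _ = qd at hquad ⊢
  generalize hv3 : nsq (dn a (nA + d)) = nd at *
  generalize hv4 : GG (psiC z) _ = gg at *
  generalize hv5 : nsq (psiC z) = np at *
  generalize hv6 : (conj (⟨Kr, Ki⟩ : ZN).toC * a 2).re = w2 at *
  generalize hv7 : (a 1).re = w1 at *
  generalize hv8 : (dotZ zb (ua a 1 d)).re = w3 at *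
  generalize hv9 : sD a _ Ds = w4 at *
  generalize hv10 : linQ a 2 (r2 :: rs) (c1 :: cs) = w5 at *
  generalize hv11 : Qf zs (dn a (nA + d)) = w6 at *
  generalize hv12 : Lf zl (dn a d) = w7 at *
  generalize hv13 : DQ dz (dn a (nA + d)) = w8 at *
  generalize hv14 : (tau : ℝ) / 2 ^ 40 / ((q : ℝ) / 2 ^ 16) = w9 at *
  generalize hv15 : ((Nat.div (Nat.mul tau 1099511627776) q : ℕ) : ℝ) = w10 at *
  generalize hv16 : ((ksum ks Ds : ℕ) : ℝ) = w11 at *
  clear hv1 hv2 hv3 hv4 hv5 hv6 hv7 hv8 hv9 hv10 hv11 hv12 hv13 hv14 hv15 hv16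
  subst hDQ
  subst hLf
  have hgg : (2 : ℝ) ^ 64 * gg = 2 ^ 20 * (w6 + 2 * ((L : ℝ) / 1024 * w3) +
      c0 * ((L : ℝ) / 1024) ^ 2 - ((q : ℝ) * 268435456 * nd - 2 ^ 28 * w4)) := by
    linear_combination 2 ^ 20 * hform
  have hnp : (2 : ℝ) ^ 64 * np = 2 ^ 20 * c0 := by linear_combination 2 ^ 20 * hn
  have hlp : (2 : ℝ) ^ 64 * lp = 2 ^ 40 * (r1 * w1 + w5) := by linear_combination 2 ^ 40 * hlin
  have key : (0 : ℝ) < 2 ^ 64 := by positivity
  rw [← mul_lt_mul_iff_right₀ key]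
  nlinarith [hgg, hnp, hlp, hquad, htau, hcst, hrun, hcheck, hD8]

/-- The constant of one end. -/
lemma cst_eq (ks : List ℕ) (tau L C1 C2 q K k1 A mm c0 : ℕ) (Ds : List ℕ) :
    cst ks tau L C1 C2 q K k1 A mm c0 Ds =
      Nat.add (ksum ks Ds) (Nat.add (Nat.add (Nat.div (Nat.mul tau 1099511627776) q) 1)
      (Nat.mod (Nat.mul (Nat.sub 1048576 (Nat.mul L L))
        (Nat.add (Nat.add (Nat.mul q 268435456) c0)
          (Nat.add (Nat.mul 2 (Nat.add (Nat.mul (Nat.mul C1 K) 262144) (Nat.mul mm (Nat.mul A A))))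
            (Nat.mul (Nat.mul 2 k1) (Nat.mul C2 262144))))) M)) := rfl

/-- The last summand of the constant. -/
lemma cst_rep {L C1 C2 q K k1 A mm c0 : ℕ} {Mm : ℤ} (hL : L ≤ 1024) (hC1 : C1 ≤ 1024)
    (hC2 : C2 ≤ 1024) (hq : q ≤ 2 ^ 20) (hK : K ≤ 2 ^ 20) (hk1 : k1 ≤ 2 ^ 20) (hA : A ≤ 2 ^ 20)
    (hc0 : c0 ≤ 2 ^ 60) (hmm : Rep (2 ^ 31) mm Mm) :
    (1048576 - (L : ℤ) * L) * ((q : ℤ) * 268435456 + c0 +
        (2 * ((C1 : ℤ) * K * 262144 + Mm * ((A : ℤ) * A)) +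
          2 * k1 * ((C2 : ℤ) * 262144))) ≤
      ((Nat.mod (Nat.mul (Nat.sub 1048576 (Nat.mul L L))
        (Nat.add (Nat.add (Nat.mul q 268435456) c0)
          (Nat.add (Nat.mul 2 (Nat.add (Nat.mul (Nat.mul C1 K) 262144) (Nat.mul mm (Nat.mul A A))))
            (Nat.mul (Nat.mul 2 k1) (Nat.mul C2 262144))))) M : ℕ) : ℤ) := by
  have hLL : L * L ≤ 1048576 := by nlinarith
  have hw : Rep (2 ^ 20) (Nat.sub 1048576 (Nat.mul L L)) (1048576 - (L : ℤ) * L) := by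
    have h1 : ((Nat.sub 1048576 (Nat.mul L L) : ℕ) : ℤ) = 1048576 - (L : ℤ) * L := by
      have h2 : Nat.sub 1048576 (Nat.mul L L) = 1048576 - L * L := rfl
      rw [h2]
      push_cast [Nat.cast_sub hLL]
      ring
    rw [← h1]
    exact Rep.nat (Nat.sub_le _ _)
  have h28 : Rep (2 ^ 28) 268435456 (268435456 : ℤ) := Rep.nat (n := 268435456) (by norm_num)
  have h18 : Rep (2 ^ 18) 262144 (262144 : ℤ) := Rep.nat (n := 262144) (by norm_num)
  have h2 : Rep 2 2 (2 : ℤ) := Rep.nat (n := 2) le_rfl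
  have hX := hw.mul (((((Rep.nat hq).mul h28).add (Rep.nat hc0)).add
    ((h2.mul ((((Rep.nat hC1).mul (Rep.nat hK)).mul h18).add
      (hmm.mul ((Rep.nat hA).mul (Rep.nat hA))))).add
      ((h2.mul (Rep.nat hk1)).mul ((Rep.nat hC2).mul h18)))))
  refine hX.le_of_mod_le ?_ le_rfl
  norm_num

/-- The error terms of the elimination. -/
lemma err_le (n d : ℕ) :
    (n : ℝ) * (3 * (d * d)) * 2 ^ 20 + d * (3 * (d * d) * 2 ^ 20 + 3 * d * 2 ^ 10) ≤
      ((n : ℝ) + (d + 1)) * ((d + 1) * (d + 1)) * 4194304 := by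
  have hn : (0 : ℝ) ≤ n := Nat.cast_nonneg n
  have hd : (0 : ℝ) ≤ d := Nat.cast_nonneg d
  have h1 : 0 ≤ (n : ℝ) * d := mul_nonneg hn hd
  have h2 : 0 ≤ (n : ℝ) * (d * d) := mul_nonneg hn (mul_nonneg hd hd)
  have h3 : 0 ≤ (d : ℝ) * (d * d) := mul_nonneg hd (mul_nonneg hd hd)
  have h4 : 0 ≤ (d : ℝ) * d := mul_nonneg hd hd
  nlinarith

/-- The slack. -/
lemma curvN_le {L1 L2 q K k1 A c0 : ℕ} {np : ℝ} (hL : L1 ≤ L2) (hn : 2 ^ 44 * np = c0) :
    2 ^ 64 * ((2 * ((q : ℝ) / 2 ^ 16) + 2 * np + 4 * ((K : ℝ) / 2 ^ 16) +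
      10 * ((K : ℝ) / 2 ^ 16 * ((A : ℝ) / 2 ^ 9) ^ 2) + 4 * ((k1 : ℝ) / 2 ^ 16)) *
        ((L2 : ℝ) / 1024 - (L1 : ℝ) / 1024) ^ 2 / 8) ≤
      curvN (Nat.mul (Nat.sub L2 L1) (Nat.sub L2 L1)) q K k1 A c0 := by
  have h1 : ((curvN (Nat.mul (Nat.sub L2 L1) (Nat.sub L2 L1)) q K k1 A c0 : ℕ) : ℝ) =
      ((L2 : ℝ) - L1) * (L2 - L1) * (67108864 * (q + 2 * K + 2 * k1)) +
      (((L2 : ℝ) - L1) * (L2 - L1) * (1280 * K) * (A * A) +
        (((Nat.div (Nat.mul (Nat.mul (Nat.sub L2 L1) (Nat.sub L2 L1)) c0) 4 : ℕ) : ℝ) + 1)) := by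
    unfold curvN
    have hsub : ((Nat.sub L2 L1 : ℕ) : ℝ) = (L2 : ℝ) - L1 := by
      have : Nat.sub L2 L1 = L2 - L1 := rfl
      rw [this, Nat.cast_sub hL]
    generalize Nat.sub L2 L1 = w at *
    generalize Nat.div (Nat.mul (Nat.mul w w) c0) 4 = v
    simp only [Nat.add_eq, Nat.mul_eq]
    push_cast
    rw [hsub]
    ring
  have h2 := div_le_floor_add (Nat.mul (Nat.mul (Nat.sub L2 L1) (Nat.sub L2 L1)) c0) 4
    (by norm_num)
  have h3 : ((Nat.mul (Nat.mul (Nat.sub L2 L1) (Nat.sub L2 L1)) c0 : ℕ) : ℝ) =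
      ((L2 : ℝ) - L1) * (L2 - L1) * c0 := by
    have hsub : ((Nat.sub L2 L1 : ℕ) : ℝ) = (L2 : ℝ) - L1 := by
      have : Nat.sub L2 L1 = L2 - L1 := rfl
      rw [this, Nat.cast_sub hL]
    simp only [Nat.mul_eq]
    push_cast
    rw [hsub]
  rw [h3] at h2
  rw [h1]
  have h4 : (2 : ℝ) ^ 64 * np = 2 ^ 20 * c0 := by linear_combination 2 ^ 20 * hn
  have h5 : (2 : ℝ) ^ 64 * ((2 * ((q : ℝ) / 2 ^ 16) + 2 * np + 4 * ((K : ℝ) / 2 ^ 16) +
      10 * ((K : ℝ) / 2 ^ 16 * ((A : ℝ) / 2 ^ 9) ^ 2) + 4 * ((k1 : ℝ) / 2 ^ 16)) *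
        ((L2 : ℝ) / 1024 - (L1 : ℝ) / 1024) ^ 2 / 8) =
      ((L2 : ℝ) - L1) * (L2 - L1) * (67108864 * (q + 2 * K + 2 * k1)) +
      ((L2 : ℝ) - L1) * (L2 - L1) * (1280 * K) * (A * A) +
      ((L2 : ℝ) - L1) * (L2 - L1) * c0 / 4 := by
    linear_combination (((L2 : ℝ) - L1) * (L2 - L1) / 2 ^ 22) * h4
  rw [h5]
  push_cast at h2
  linarith

lemma okEnd_len {d N R : ℕ} {rho kap : List ℕ} {tau : ℕ} (h : okEnd d N R rho kap tau = true) :
    rho.length = d ∧ kap.length = N - 4 := by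
  simp only [okEnd, Bool.and_eq_true] at h
  obtain ⟨-, -, h1, h2, -⟩ := h
  exact ⟨Nat.eq_of_beq_eq_true h1, Nat.eq_of_beq_eq_true h2⟩

theorem leafD_sound {S : Slice} (hok : S.ok = true) (hbd : S.bd = true) {cs : List RT}
    (h3 : 3 ≤ cs.length) (hd : cs.length + 1 ≤ S.d) (hnoks : noks cs = true)
    {q K kr ki k1 A : ℕ} {Kr Ki : ℤ} (hq20 : q < 2 ^ 20) (hK20 : K < 2 ^ 20)
    (hk120 : k1 < 2 ^ 20) (hA20 : A < 2 ^ 20) (hkr : Rep (2 ^ 20) kr Kr)
    (hki : Rep (2 ^ 20) ki Ki) {Ds : List ℕ} (hDs : ∀ D ∈ Ds, D < 2 ^ 20)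
    (hDl : Ds.length = S.N - (cs.length + 1)) {psi : List P3} {z : List ZN}
    (hz : List.Forall₂ RepP psi z) (hzl : z.length = S.d + 1)
    (h : leafD S cs (S.kap1.drop (cs.length - 3)) (S.kap2.drop (cs.length - 3))
      q K kr ki k1 A Ds psi = true) :
    ∃ c : Cert, c.Good (S.N - (cs.length + 1)) ∧ ∀ a : ℕ → ℂ, (∀ n, ‖a n‖ ≤ 1) →
      FF c ((S.S1 : ℝ) / 1024) ((S.S2 : ℝ) / 1024) S.N (S.e1 (cs.length + 1))
          (1 :: cs.map RT.nu) a +
        c.curv * ((S.L2 : ℝ) / 1024 - (S.L1 : ℝ) / 1024) ^ 2 / 8 < 2 * (1 - (S.L1 : ℝ) / 1024) ∧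
      FF c ((S.S1 : ℝ) / 1024) ((S.S2 : ℝ) / 1024) S.N (S.e2 (cs.length + 1))
          (1 :: cs.map RT.nu) a +
        c.curv * ((S.L2 : ℝ) / 1024 - (S.L1 : ℝ) / 1024) ^ 2 / 8 < 2 * (1 - (S.L2 : ℝ) / 1024) := by
  obtain ⟨hd4, hL12, hL2, hS1, hS2, hE1, hE2⟩ := Slice.ok_spec hok
  obtain ⟨hrl1, hkl1⟩ := okEnd_len hE1
  obtain ⟨hrl2, hkl2⟩ := okEnd_len hE2
  -- the bounds
  have hbd' : S.rho1.all (fun r => Nat.ble r 33554432) = true ∧
      (S.rho2.all (fun r => Nat.ble r 33554432) = true ∧ Nat.ble (S.nA + S.d) 60 = true) := by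
    simpa only [Slice.bd, Bool.and_eq_true] using hbd
  obtain ⟨hr1, hr2, hN60⟩ := hbd'
  have hN60' : S.nA + S.d ≤ 60 := Nat.le_of_ble_eq_true hN60
  have hrho1 : ∀ r ∈ S.rho1, r ≤ 2 ^ 25 := by
    intro r hr
    exact Nat.le_of_ble_eq_true (List.all_eq_true.1 hr1 r hr)
  have hrho2 : ∀ r ∈ S.rho2, r ≤ 2 ^ 25 := by
    intro r hr
    exact Nat.le_of_ble_eq_true (List.all_eq_true.1 hr2 r hr)
  unfold leafD at h
  beta_reduce at h
  obtain ⟨hq1, h⟩ := cond_true h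
  obtain ⟨hpos, h⟩ := cond_true h
  obtain ⟨hKk, h⟩ := cond_true h
  have hq : 1 ≤ q := Nat.le_of_ble_eq_true hq1
  have hD1 : ∀ D ∈ Ds, 1 ≤ D := allpos_spec hpos
  -- the states
  set s0 : ST := ⟨0, List.replicate S.d ⟨0, 0⟩⟩ with hs0
  set st := sts psi s0 with hst
  set fin := lastST st ⟨0, []⟩ with hfin
  have hpsi : psi.length = S.d + 1 := by rw [hz.length_eq, hzl]
  have hs0r : RepS 0 s0 0 (zer S.d) := by
    refine ⟨Rep.nat (n := 0) le_rfl, ?_⟩
    show List.Forall₂ (RepC 0) (List.replicate S.d ⟨0, 0⟩) (List.replicate S.d ⟨0, 0⟩)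
    generalize S.d = m
    induction m with
    | zero => exact List.Forall₂.nil
    | succ m ih =>
      rw [List.replicate_succ, List.replicate_succ]
      exact List.Forall₂.cons ⟨Rep.nat (n := 0) le_rfl, Rep.nat (n := 0) le_rfl⟩ ih
  have hfin' : fin = lastST (sts psi s0) s0 := by
    rw [hfin, hst]
    cases hz with
    | nil => simp at hpsi
    | cons _ _ => rw [sts_cons, lastST_cons, lastST_cons]
  have hfr := fin_rep hz hs0r
  rw [← hfin', hpsi, Nat.zero_add] at hfr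
  have hd60 : S.d + 1 ≤ 61 := by omega
  have h54 : (S.d + 1) * 2 ^ 54 ≤ 2 ^ 60 := by
    calc (S.d + 1) * 2 ^ 54 ≤ 61 * 2 ^ 54 := Nat.mul_le_mul_right _ hd60
      _ ≤ 2 ^ 60 := by norm_num
  have hfr60 : RepS (2 ^ 60) fin (finZ z 0 (zer S.d)).1 (finZ z 0 (zer S.d)).2 := hfr.mono h54
  -- the last constant
  have hdN : S.d ≤ S.nA + S.d := Nat.le_add_left _ _
  have hGn := GG_form z S.d S.d hzl le_rfl (List.replicate S.d 0) (by simp) 0 (fun _ => 0)
  obtain ⟨-, hn, hfl⟩ := hGn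
  have hc0nn : (0 : ℤ) ≤ (finZ z 0 (zer S.d)).1 := by
    have h1 : (0 : ℝ) ≤ ((finZ z 0 (zer S.d)).1 : ℝ) := by
      rw [← hn]
      have : ∀ l : List ℂ, 0 ≤ nsq l := by
        intro l
        induction l with
        | nil => simp [nsq]
        | cons x l ih => simp only [nsq]; positivity
      have := this (psiC z)
      positivity
    exact_mod_cast h1
  have hc0 : ((Nat.mod fin.c0 M : ℕ) : ℤ) = (finZ z 0 (zer S.d)).1 := by
    refine hfr60.1.mod_eq hc0nn ?_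
    have h1 := hfr60.1.2
    rw [abs_of_nonneg hc0nn] at h1
    refine lt_of_le_of_lt h1 ?_
    norm_num [M]
  have hc060 : Nat.mod fin.c0 M ≤ 2 ^ 60 := by
    have h1 := hfr60.1.2
    rw [abs_of_nonneg hc0nn, ← hc0] at h1
    exact_mod_cast h1
  set c0 := Nat.mod fin.c0 M with hc0def
  -- the certificate
  have hKk' : Kr * Kr + Ki * Ki ≤ ((K * K : ℕ) : ℤ) := by
    have h1 := (hkr.mul hkr).add (hki.mul hki)
    exact h1.le_of_mod_le (by norm_num) (Nat.le_of_ble_eq_true hKk)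
  set cert : Cert := ⟨psiC z, (q : ℝ) / 2 ^ 16, (K : ℝ) / 2 ^ 16,
    (⟨Kr, Ki⟩ : ZN).toC / 2 ^ 16, (k1 : ℝ) / 2 ^ 16, (A : ℝ) / 2 ^ 9,
    Ds.map (fun x : ℕ => (x : ℝ) / 2 ^ 16)⟩ with hcert
  refine ⟨cert, ?_, ?_⟩
  · refine ⟨?_, ?_, ?_, ?_, ?_⟩
    · show (0 : ℝ) < (q : ℝ) / 2 ^ 16
      have : (0 : ℝ) < q := by exact_mod_cast hq
      positivity
    · show ‖(⟨Kr, Ki⟩ : ZN).toC / 2 ^ 16‖ ≤ (K : ℝ) / 2 ^ 16
      rw [norm_div]
      have h1 : ‖(⟨Kr, Ki⟩ : ZN).toC‖ ^ 2 ≤ (K : ℝ) ^ 2 := by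
        rw [norm_toC_sq]
        have : ((Kr * Kr + Ki * Ki : ℤ) : ℝ) ≤ (((K * K : ℕ) : ℤ) : ℝ) := by exact_mod_cast hKk'
        push_cast at this
        nlinarith
      have h2 : ‖(⟨Kr, Ki⟩ : ZN).toC‖ ≤ K := by
        have := abs_le_of_sq_le_sq h1 (Nat.cast_nonneg K)
        exact (abs_le.1 (abs_le_of_sq_le_sq h1 (Nat.cast_nonneg K))).2
      have h3 : ‖(2 : ℂ) ^ 16‖ = 2 ^ 16 := by norm_num
      rw [h3]
      exact div_le_div_of_nonneg_right h2 (by positivity)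
    · show (0 : ℝ) ≤ (k1 : ℝ) / 2 ^ 16
      positivity
    · show (Ds.map (fun x : ℕ => (x : ℝ) / 2 ^ 16)).length = _
      rw [List.length_map, hDl]
    · intro D hD
      obtain ⟨x, hx, rfl⟩ := List.mem_map.1 hD
      have h1 : 1 ≤ x := hD1 x hx
      have : (0 : ℝ) < x := by exact_mod_cast h1
      positivity
  · intro a ha
    -- the shapes of the lists
    obtain ⟨c1, cs', rfl⟩ : ∃ c1 cs', cs = c1 :: cs' := by
      cases cs with
      | nil => simp at h3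
      | cons c cs => exact ⟨c, cs, rfl⟩
    have hshape : ∀ l : List ℕ, l.length = S.d → ∃ r1 r2 rs, l = r1 :: r2 :: rs := by
      intro l hl
      match l, hl with
      | [], hl => simp at hl; omega
      | [x], hl => simp at hl; omega
      | r1 :: r2 :: rs, _ => exact ⟨r1, r2, rs, rfl⟩
    obtain ⟨u1, u2, us, hu⟩ := hshape S.rho1 hrl1
    obtain ⟨v1, v2, vs, hv⟩ := hshape S.rho2 hrl2
    -- the diagonal
    set q28 := Nat.mul q 268435456 with hq28
    have hq28v : q28 = q * 268435456 := rfl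
    have hq28le : q28 ≤ 2 ^ 48 := by
      rw [hq28v]
      calc q * 268435456 ≤ 2 ^ 20 * 268435456 := Nat.mul_le_mul_right _ hq20.le
        _ ≤ 2 ^ 48 := by norm_num
    obtain ⟨dz1, hg1, hg2, hg3⟩ := dgQ_rep (E := 2 ^ 50) (q := q28)
      (hq28le.trans (by norm_num)) a (c1 :: cs') (acc := [q28]) (az := [(q28 : ℤ)]) (m := 1)
      (List.Forall₂.cons (Rep.nat (hq28le.trans (by norm_num))) List.Forall₂.nil) rfl (by
        show ((q28 : ℤ) : ℝ) * ‖a 1‖ ^ 2 + 0 = _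
        simp [dn, nsq])
    obtain ⟨dz, hg4, hg5, hg6⟩ := dgD_rep (E := 2 ^ 50) (q := q28) (by
        calc q28 + 2 ^ 48 ≤ 2 ^ 48 + 2 ^ 48 := Nat.add_le_add_right hq28le _
          _ ≤ 2 ^ 50 := by norm_num) a Ds (m := 1 + (c1 :: cs').length) hDs hg1
      (by rw [hg1.length_eq, hg2])
    have hNeq : 1 + (c1 :: cs').length + Ds.length = S.nA + S.d := by
      rw [hDl]
      have : S.N = S.nA + S.d := rfl
      omega
    rw [hNeq] at hg5 hg6
    set ds := dgD q28 Ds (dgQ q28 (c1 :: cs') [q28]) with hds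
    have hdsl : ds.length = S.d + S.nA := by
      rw [hg4.length_eq, hg5, add_comm]
    -- the rows
    have hrows := mkA_rep (2 ^ 50) S.d S.nA hg4 hdsl hz (by omega) (by simp [zer]) hs0r
    have hcur : mkA S.d S.nA ds st fin = mkA S.d S.nA ds (sts psi s0) s0 := by
      rw [hst]
      cases hz with
      | nil => simp at hpsi
      | @cons p zz pt zt hp ht =>
        cases hdd : ds with
        | nil => rw [hdd] at hdsl; simp at hdsl; omega
        | cons dg dss =>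
          rw [sts_cons]
          exact mkA_cur _ _ _ _ _ _ _ _ (by omega)
    rw [hcur] at h
    have hbz := Sh_bldZ S.d dz z 0 (zer S.d) (by simp [zer]) hzl.le
    have hC80 : Cc = 2 ^ 80 := by norm_num [Cc]
    have hnA60 : S.nA * Cc ≤ 60 * 2 ^ 80 := by
      rw [hC80]; exact Nat.mul_le_mul_right _ (by omega)
    have hd60' : S.d * Cc ≤ 60 * 2 ^ 80 := by
      rw [hC80]; exact Nat.mul_le_mul_right _ (by omega)
    have hrows' : List.Forall₂ (RepR (2 ^ 100)) (mkA S.d S.nA ds (sts psi s0) s0)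
        (bldZ z 0 (zer S.d) dz) := by
      refine hrows.imp (fun _ _ h => h.mono ?_)
      rw [hpsi]
      calc 0 + (S.d + 1) * 2 ^ 54 + 2 ^ 50 ≤ 0 + 2 ^ 60 + 2 ^ 50 := by omega
        _ ≤ 2 ^ 100 := by norm_num
    obtain ⟨rs', zs', hA1, hA2, hA3, hA4, hA5⟩ := runA_sound S.d S.nA (2 ^ 100) _ _ _ (by
        calc 2 ^ 100 + S.nA * Cc ≤ 2 ^ 100 + 60 * 2 ^ 80 := by omega
          _ ≤ 2 ^ 200 := by norm_num) hrows' hbz h
    have hzs' : zs'.length = S.d := by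
      rw [bldZ_length, hg5] at hA4
      omega
    have hA5' := hA5 (dn a (S.nA + S.d)) (mem_dn ha _) (by rw [dn_length, bldZ_length, hg5])
    rw [drop_dn] at hA5'
    -- the linear terms
    have hL1le : S.L1 ≤ 1024 := by omega
    have hL2le : S.L2 ≤ 1024 := by omega
    have hC1 : Nat.sub 1024 S.S1 = 1024 - S.S1 := rfl
    have hC2 : Nat.sub 1024 S.S2 = 1024 - S.S2 := rfl
    have hC1le : 1024 - S.S1 ≤ 1024 := Nat.sub_le _ _
    have hC2le : 1024 - S.S2 ≤ 1024 := Nat.sub_le _ _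
    have hmm : ∀ L : ℕ, L ≤ 1024 → Rep (2 ^ 31)
        (Nat.add (Nat.mul (Nat.sub 1024 S.S1) K) (Nat.mul L kr))
        (((1024 - S.S1 : ℕ) : ℤ) * K + L * Kr) := by
      intro L hL
      have h1 := ((Rep.nat (A := 1024) hC1le).mul (Rep.nat (A := 2 ^ 20) hK20.le)).add
        ((Rep.nat (A := 1024) hL).mul hkr)
      exact h1.mono (by norm_num)
    have hx : ∀ L : ℕ, L ≤ 1024 → Rep (2 ^ 72)
        (Nat.add (Nat.mul (Nat.mul (Nat.add (Nat.mul (Nat.sub 1024 S.S1) K) (Nat.mul L kr)) A)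
          1048576) (Nat.mul 274877906944 k1))
        ((((1024 - S.S1 : ℕ) : ℤ) * K + L * Kr) * A * 1048576 + 274877906944 * k1) := by
      intro L hL
      have h1 := (((hmm L hL).mul (Rep.nat (A := 2 ^ 20) hA20.le)).mul
        (Rep.nat (n := 1048576) (le_refl _))).add
        ((Rep.nat (n := 274877906944) (le_refl _)).mul (Rep.nat (A := 2 ^ 20) hk120.le))
      exact h1.mono (by norm_num)
    have hcsl : fin.cs.length = S.d := by rw [hfr60.2.length_eq, hfl]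
    obtain ⟨zb, hb1, hb2, hb3⟩ := mkb0_rep hL1le a (hx S.L1 hL1le) hkr hki hfr60.2
      (by rw [hcsl]; omega) (r1 := u1) (r2 := u2) (rs := us)
      (hrho1 u1 (by rw [hu]; simp)) (hrho1 u2 (by rw [hu]; simp))
      (fun r hr => hrho1 r (by rw [hu]; simp [hr])) hnoks
      (by rw [hcsl]; simp at hd; omega)
    obtain ⟨zc, hc1, hc2, hc3⟩ := mkb0_rep hL2le a (hx S.L2 hL2le) hkr hki hfr60.2
      (by rw [hcsl]; omega) (r1 := v1) (r2 := v2) (rs := vs)
      (hrho2 v1 (by rw [hv]; simp)) (hrho2 v2 (by rw [hv]; simp))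
      (fun r hr => hrho2 r (by rw [hv]; simp [hr])) hnoks
      (by rw [hcsl]; simp at hd; omega)
    rw [hcsl] at hb2 hb3 hc2 hc3
    rw [hu, hv] at hA3
    have hmono : ∀ {x : CN} {y : ZN}, RepC (2 ^ 74) x y → RepC (2 ^ 100 + S.nA * Cc) x y := by
      intro x y hxy
      exact hxy.mono (le_trans (by norm_num) (Nat.le_add_right _ _))
    obtain ⟨e1, e2, hK', hfinal⟩ := runB_sound S.d S.d (2 ^ 100 + S.nA * Cc) _ zs' _ _ zb zc 0 0 _
      (by
        calc 2 ^ 100 + S.nA * Cc + S.d * Cc ≤ 2 ^ 100 + 60 * 2 ^ 80 + 60 * 2 ^ 80 := by omega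
          _ ≤ 2 ^ 200 := by norm_num) hA1 hA2
      (hb1.imp (fun _ _ h => hmono h)) (hc1.imp (fun _ _ h => hmono h)) hzs' hb2 hc2 hA3
    obtain ⟨hf1, hf2⟩ := hfinal (dn a S.d) (mem_dn ha _) (dn_length _ _)
    obtain ⟨hK1, hK2⟩ := cond_true hK'
    have hidx : 1 + (c1 :: cs').length + 1 = (c1 :: cs').length + 1 + 1 := by omega
    rw [hidx, hg3] at hg6
    have hDQ : DQ dz (dn a (S.nA + S.d)) =
        ((q * 268435456 : ℕ) : ℝ) * nsq (dn a (S.nA + S.d)) -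
          2 ^ 28 * sD a ((c1 :: cs').length + 1 + 1) Ds := by
      rw [hg6, hq28v]
      ring
    set Err : ℝ := (S.nA : ℝ) * (3 * (S.d * S.d)) * 2 ^ 20 +
      S.d * (3 * (S.d * S.d) * 2 ^ 20 + 3 * S.d * 2 ^ 10) with hErr
    have hrun1 : -(2 ^ 20 * Qf (bldZ z 0 (zer S.d) dz) (dn a (S.nA + S.d))) -
        2 ^ 10 * Lf zb (dn a S.d) ≤ e1 + Err := by
      rw [hErr]
      push_cast at hf1
      linarith
    have hrun2 : -(2 ^ 20 * Qf (bldZ z 0 (zer S.d) dz) (dn a (S.nA + S.d))) -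
        2 ^ 10 * Lf zc (dn a S.d) ≤ e2 + Err := by
      rw [hErr]
      push_cast at hf2
      linarith
    obtain ⟨hform1, -, -⟩ := GG_form z S.d (S.nA + S.d) hzl hdN dz hg5 ((S.L1 : ℝ) / 1024) a
    obtain ⟨hform2, -, -⟩ := GG_form z S.d (S.nA + S.d) hzl hdN dz hg5 ((S.L2 : ℝ) / 1024) a
    have hnn : (2 : ℝ) ^ 44 * nsq (psiC z) = c0 := by
      rw [hn, ← hc0]
      push_cast
      ring
    have hD8 : 2 ^ 64 * (cert.curv * ((S.L2 : ℝ) / 1024 - (S.L1 : ℝ) / 1024) ^ 2 / 8) + Err ≤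
        ((Nat.add (curvN (Nat.mul (Nat.sub S.L2 S.L1) (Nat.sub S.L2 S.L1)) q K k1 A c0)
          (Nat.mul (Nat.mul (Nat.add S.nA (Nat.add S.d 1))
            (Nat.mul (Nat.add S.d 1) (Nat.add S.d 1))) 4194304) : ℕ) : ℝ) := by
      have h1 := curvN_le (L1 := S.L1) (L2 := S.L2) (q := q) (K := K) (k1 := k1) (A := A)
        hL12.le hnn
      have h2 := err_le S.nA S.d
      have h3 : ((Nat.add (curvN (Nat.mul (Nat.sub S.L2 S.L1) (Nat.sub S.L2 S.L1)) q K k1 A c0)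
          (Nat.mul (Nat.mul (Nat.add S.nA (Nat.add S.d 1))
            (Nat.mul (Nat.add S.d 1) (Nat.add S.d 1))) 4194304) : ℕ) : ℝ) =
          ((curvN (Nat.mul (Nat.sub S.L2 S.L1) (Nat.sub S.L2 S.L1)) q K k1 A c0 : ℕ) : ℝ) +
            ((S.nA : ℝ) + (S.d + 1)) * ((S.d + 1) * (S.d + 1)) * 4194304 := by
        generalize curvN (Nat.mul (Nat.sub S.L2 S.L1) (Nat.sub S.L2 S.L1)) q K k1 A c0 = v
        simp only [Nat.add_eq, Nat.mul_eq]
        push_cast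
        ring
      rw [h3]
      exact add_le_add h1 h2
    set cu := Nat.add (curvN (Nat.mul (Nat.sub S.L2 S.L1) (Nat.sub S.L2 S.L1)) q K k1 A c0)
          (Nat.mul (Nat.mul (Nat.add S.nA (Nat.add S.d 1))
            (Nat.mul (Nat.add S.d 1) (Nat.add S.d 1))) 4194304) with hcu
    -- the constants
    have hdrop : (c1 :: cs').length - 3 = (c1 :: cs').length + 1 - 4 := by omega
    have main : ∀ (L tau e' : ℕ) (ks : List ℕ), L ≤ 1024 →
        Nat.ble (Nat.add (Nat.add e' cu)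
                  (Nat.add (cst ks tau L (Nat.sub 1024 S.S1) (Nat.sub 1024 S.S2) q K k1 A
                    (Nat.add (Nat.mul (Nat.sub 1024 S.S1) K) (Nat.mul L kr)) c0 Ds)
                    (Nat.mul 36028797018963968 L))) 36893488147419103231 = true →
        ∃ cs0 : ℕ, ((((1048576 - (L : ℤ) * L) * ((q : ℤ) * 268435456 +
          (finZ z 0 (zer S.d)).1 +
          (2 * (((1024 - S.S1 : ℕ) : ℤ) * K * 262144 +
            (((1024 - S.S1 : ℕ) : ℤ) * K + L * Kr) * (A * A)) +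
            2 * k1 * (((1024 - S.S2 : ℕ) : ℤ) * 262144))) : ℤ) : ℝ) ≤ cs0) ∧
          ((e' : ℝ) + cu + ((ksum ks Ds : ℕ) +
            (((Nat.div (Nat.mul tau 1099511627776) q : ℕ) : ℝ) + 1) + cs0) +
              36028797018963968 * L < 36893488147419103232) := by
      intro L tau e' ks hL hble
      have h1 := Nat.le_of_ble_eq_true hble
      rw [cst_eq] at h1
      have h2 := cst_rep (L := L) (C1 := 1024 - S.S1) (C2 := 1024 - S.S2) hL hC1le hC2le hq20.le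
        hK20.le hk120.le hA20.le hc060 (hmm L hL)
      rw [← hc0]
      refine ⟨_, by exact_mod_cast h2, ?_⟩
      simp only [hC1, hC2] at h1 ⊢
      generalize Nat.mod (Nat.mul (Nat.sub 1048576 (Nat.mul L L)) _) M = m at *
      generalize Nat.div (Nat.mul tau 1099511627776) q = w at *
      generalize ksum ks Ds = kk at *
      simp only [Nat.add_eq, Nat.mul_eq] at h1
      have h3 : e' + cu + (kk + (w + 1 + m) + 36028797018963968 * L) <
        36893488147419103232 := by omega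
      have h4 : (((e' + cu + (kk + (w + 1 + m) + 36028797018963968 * L) : ℕ)) : ℝ) <
        ((36893488147419103232 : ℕ) : ℝ) := Nat.cast_lt.2 h3
      push_cast at h4
      linarith
    obtain ⟨m1, hm1, hm1'⟩ := main S.L1 S.tau1 e1 _ hL1le hK1
    obtain ⟨m2, hm2, hm2'⟩ := main S.L2 S.tau2 e2 _ hL2le hK2
    constructor
    · have := end_bound (d := S.d) (nA := S.nA) (S1 := S.S1) (S2 := S.S2) (zb := (finZ z 0 (zer S.d)).2)
        hq hD1 (by omega) hS2 hd (by rw [← hu]; exact hrl1) hform1 hn hDQ hb3 hrun1 hm1 hm1' hD8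
      unfold Slice.e1 mkE
      rw [hu, ← hdrop]
      exact this
    · have := end_bound (d := S.d) (nA := S.nA) (S1 := S.S1) (S2 := S.S2) (zb := (finZ z 0 (zer S.d)).2)
        hq hD1 (by omega) hS2 hd (by rw [← hv]; exact hrl2) hform2 hn hDQ hc3 hrun2 hm2 hm2' hD8
      unfold Slice.e2 mkE
      rw [hv, ← hdrop]
      exact this

theorem leaf_sound {S : Slice} (hok : S.ok = true) (hbd : S.bd = true) (cs : List RT)
    (code : ℕ) (h : leafOK S cs code = true) : 3 ≤ cs.length ∧ cs.length + 1 ≤ S.d ∧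
    ∃ c : Cert, c.Good (S.N - (cs.length + 1)) ∧ ∀ a : ℕ → ℂ, (∀ n, ‖a n‖ ≤ 1) →
      FF c ((S.S1 : ℝ) / 1024) ((S.S2 : ℝ) / 1024) S.N (S.e1 (cs.length + 1))
          (1 :: cs.map RT.nu) a +
        c.curv * ((S.L2 : ℝ) / 1024 - (S.L1 : ℝ) / 1024) ^ 2 / 8 < 2 * (1 - (S.L1 : ℝ) / 1024) ∧
      FF c ((S.S1 : ℝ) / 1024) ((S.S2 : ℝ) / 1024) S.N (S.e2 (cs.length + 1))
          (1 :: cs.map RT.nu) a +
        c.curv * ((S.L2 : ℝ) / 1024 - (S.L1 : ℝ) / 1024) ^ 2 / 8 < 2 * (1 - (S.L2 : ℝ) / 1024) := by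
  unfold leafOK at h
  obtain ⟨hnoks, h⟩ := cond_true h
  obtain ⟨hlen3, h⟩ := cond_true h
  obtain ⟨hlend, h⟩ := cond_true h
  rw [lenN_eq] at hlen3 hlend
  have h3 : 3 ≤ cs.length := Nat.le_of_ble_eq_true hlen3
  have hd : cs.length + 1 ≤ S.d := Nat.le_of_ble_eq_true hlend
  refine ⟨h3, hd, ?_⟩
  beta_reduce at h
  rw [dropK_eq cs S.kap1 h3, dropK_eq cs S.kap2 h3] at h
  obtain ⟨-, hkl1⟩ := okEnd_len (Slice.ok_spec hok).2.2.2.2.2.1
  obtain ⟨z, hz1, hz2⟩ := decP_rep (Nat.add S.d 1)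
    (shr (S.kap1.drop (cs.length - 3)) (Nat.div code 1329227995784915872903807060280344576))
  obtain ⟨hd1, hd2⟩ := decD_spec (S.kap1.drop (cs.length - 3))
    (Nat.div code 1329227995784915872903807060280344576)
  refine leafD_sound hok hbd h3 hd hnoks (fld_lt _) (fld_lt _) (fld_lt _) (fld_lt _)
    (fldO_rep _) (fldO_rep _) hd2 ?_ hz2 hz1 h
  rw [hd1, List.length_drop, hkl1]
  omega

end Pool.Agent.BFC
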