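import Mathlib

/-!
# Integers as residues modulo `2 ^ 256`

`Rep A X x`: the natural number `X` is congruent to the integer `x` modulo `2 ^ 256` and
`|x| ≤ A`. Negative integers are represented by large natural numbers, so that the kernel only
evaluates operations on natural numbers.
-/

set_option autoImplicit false

namespace Pool.Agent.BFC

/-- The modulus `2 ^ 256`. -/
def M : ℕ := 115792089237316195423570985008687907853269984665640564039457584007913129639936

lemma M_eq : M = 2 ^ 256 := by norm_num [M]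

/-- `X` represents the integer `x`, which is bounded by `A`. -/
def Rep (A : ℕ) (X : ℕ) (x : ℤ) : Prop := (M : ℤ) ∣ (X : ℤ) - x ∧ |x| ≤ (A : ℤ)

namespace Rep

variable {A B X Y : ℕ} {x y : ℤ}

lemma mono (h : Rep A X x) (hA : A ≤ B) : Rep B X x :=
  ⟨h.1, h.2.trans (by exact_mod_cast hA)⟩

lemma nat {n A : ℕ} (h : n ≤ A) : Rep A n (n : ℤ) :=
  ⟨by simp, by rw [abs_of_nonneg (by positivity)]; exact_mod_cast h⟩

lemma add (h : Rep A X x) (h' : Rep B Y y) : Rep (A + B) (Nat.add X Y) (x + y) := by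
  refine ⟨?_, ?_⟩
  · obtain ⟨k, hk⟩ := h.1
    obtain ⟨j, hj⟩ := h'.1
    refine ⟨k + j, ?_⟩
    simp only [Nat.add_eq]
    push_cast
    linear_combination hk + hj
  · push_cast
    exact (abs_add_le _ _).trans (add_le_add h.2 h'.2)

lemma mul (h : Rep A X x) (h' : Rep B Y y) : Rep (A * B) (Nat.mul X Y) (x * y) := by
  refine ⟨?_, ?_⟩
  · obtain ⟨k, hk⟩ := h.1
    obtain ⟨j, hj⟩ := h'.1
    refine ⟨k * Y + j * x, ?_⟩
    simp only [Nat.mul_eq]
    push_cast
    linear_combination (Y : ℤ) * hk + x * hj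
  · push_cast
    rw [abs_mul]
    exact mul_le_mul h.2 h'.2 (abs_nonneg _) (by positivity)

lemma mod (h : Rep A X x) : Rep A (Nat.mod X M) x := by
  refine ⟨?_, h.2⟩
  obtain ⟨k, hk⟩ := h.1
  refine ⟨k - (X / M : ℕ), ?_⟩
  have h1 : (X : ℤ) = (M : ℤ) * ((X / M : ℕ) : ℤ) + ((X % M : ℕ) : ℤ) := by
    exact_mod_cast (Nat.div_add_mod X M).symm
  have h2 : ((Nat.mod X M : ℕ) : ℤ) = ((X % M : ℕ) : ℤ) := rfl
  rw [h2]
  linear_combination hk - h1

/-- A representative below `M` of a nonnegative integer below `M` is that integer. -/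
lemma mod_eq (h : Rep A X x) (h0 : 0 ≤ x) (h1 : x < M) : ((Nat.mod X M : ℕ) : ℤ) = x := by
  obtain ⟨k, hk⟩ := h.mod.1
  have h2 : Nat.mod X M < M := Nat.mod_lt _ (by norm_num [M])
  have h3 : (0 : ℤ) ≤ ((Nat.mod X M : ℕ) : ℤ) := by positivity
  have h4 : ((Nat.mod X M : ℕ) : ℤ) < M := by exact_mod_cast h2
  have h5 : k = 0 := by
    have h6 : (M : ℤ) * k < M * 1 := by linarith
    have h7 : (M : ℤ) * (-1) < M * k := by linarith
    have hM : (0 : ℤ) < M := by norm_num [M]
    have h8 := lt_of_mul_lt_mul_left h6 hM.le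
    have h9 := lt_of_mul_lt_mul_left h7 hM.le
    omega
  rw [h5] at hk
  linarith

/-- Comparison: if the representative below `M` is at most `t < M / 2`, so is the integer. -/
lemma le_of_mod_le {t : ℕ} (h : Rep A X x) (hA : A < 2 ^ 255) (ht : Nat.mod X M ≤ t) :
    x ≤ (t : ℤ) := by
  by_cases h0 : 0 ≤ x
  · rw [← h.mod_eq h0 ?_]
    · exact_mod_cast ht
    · have h1 := h.2
      rw [abs_of_nonneg h0] at h1
      have h2 : (A : ℤ) < M := by
        rw [M_eq]
        exact_mod_cast hA.trans (by norm_num)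
      linarith
  · push Not at h0
    exact h0.le.trans (by positivity)

/-- The exact value is recovered from the residue when it is known to be small. -/
lemma eq_of_mod_le {t : ℕ} (h : Rep A X x) (hA : A < 2 ^ 255) (ht : Nat.mod X M ≤ t)
    (ht' : t < 2 ^ 255) : x = ((Nat.mod X M : ℕ) : ℤ) := by
  by_cases h0 : 0 ≤ x
  · rw [h.mod_eq h0 ?_]
    have h1 := h.2
    rw [abs_of_nonneg h0] at h1
    have h2 : (A : ℤ) < M := by
      rw [M_eq]
      exact_mod_cast hA.trans (by norm_num)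
    linarith
  · exfalso
    push Not at h0
    obtain ⟨k, hk⟩ := h.mod.1
    have h1 := h.2
    rw [abs_of_neg h0] at h1
    have h2 : (0 : ℤ) ≤ ((Nat.mod X M : ℕ) : ℤ) := by positivity
    have h3 : ((Nat.mod X M : ℕ) : ℤ) ≤ t := by exact_mod_cast ht
    have hM : (M : ℤ) = 2 ^ 255 + 2 ^ 255 := by rw [M_eq]; norm_num
    have h4 : (A : ℤ) < 2 ^ 255 := by exact_mod_cast hA
    have h5 : (t : ℤ) < 2 ^ 255 := by exact_mod_cast ht'
    have h6 : 0 < (M : ℤ) * k := by rw [← hk]; linarith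
    have h7 : (M : ℤ) * k < M * 1 := by rw [← hk]; linarith
    have hM0 : (0 : ℤ) < M := by rw [hM]; norm_num
    have h8 := lt_of_mul_lt_mul_left h7 hM0.le
    have h9 : 0 < k := by
      by_contra hcon
      push Not at hcon
      have : (M : ℤ) * k ≤ 0 := mul_nonpos_of_nonneg_of_nonpos hM0.le hcon
      linarith
    omega

end Rep

end Pool.Agent.BFC
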