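import Pool.Agent.Lib.BFC.Form

/-!
# Soundness of the elimination
-/

set_option autoImplicit false

open scoped ComplexConjugate

namespace Pool.Agent.BFC

lemma uplZ_length (P : ℤ) (v : ZN) : ∀ us ms : List ZN, us.length ≤ ms.length →
    (uplZ P v us ms).length = ms.length := by
  intro us
  induction us with
  | nil => intro ms _; rfl
  | cons u us ih =>
    intro ms h
    cases ms with
    | nil => simp at h
    | cons m ms => simp [uplZ, ih ms (by simpa using h)]

lemma upbZ_length (P : ℤ) (b : ZN) : ∀ us bs : List ZN, us.length ≤ bs.length →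
    (upbZ P b us bs).length = bs.length := by
  intro us
  induction us with
  | nil => intro bs _; rfl
  | cons u us ih =>
    intro bs h
    cases bs with
    | nil => simp at h
    | cons m ms => simp [upbZ, ih ms (by simpa using h)]

lemma uprZ_length (P : ℤ) : ∀ (us : List ZN) (rs : List ZRow), us.length ≤ rs.length →
    (uprZ P us rs).length = rs.length := by
  intro us
  induction us with
  | nil => intro rs _; rfl
  | cons u us ih =>
    intro rs h
    cases rs with
    | nil => simp at h
    | cons r rs => simp [uprZ, ih rs (by simpa using h)]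

lemma Sh_uprZ (P : ℤ) (k : ℕ) : ∀ (us : List ZN) (rs : List ZRow),
    us.length ≤ min k rs.length → Sh k rs → Sh k (uprZ P us rs) := by
  intro us
  induction us with
  | nil => intro rs _ h; exact h
  | cons u us ih =>
    intro rs hl h
    cases rs with
    | nil => simp at hl
    | cons r rs =>
      obtain ⟨h1, h2⟩ := h
      have hl1 : us.length ≤ min k rs.length := by simp at hl ⊢; omega
      refine ⟨?_, ih rs hl1 h2⟩
      show (uplZ P (ngcZ u) us r.off).length = min k (uprZ P us rs).length
      rw [uplZ_length _ _ _ _ (by omega), uprZ_length _ _ _ (by omega), h1]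

lemma okP_sound {P : ℕ} (h : okP P = true) : P ≤ Bd2 ∧ Pm ≤ P := by
  unfold okP at h
  cases h1 : Nat.ble P Bd2 with
  | false => rw [h1] at h; simp at h
  | true =>
    rw [h1] at h
    exact ⟨Nat.le_of_ble_eq_true h1, Nat.le_of_ble_eq_true (by simpa using h)⟩

lemma cond_true {a b : Bool} (h : cond a b false = true) : a = true ∧ b = true := by
  cases a <;> simp_all

lemma runA_zero (rs : List Row) (K : List Row → Bool) : runA 0 rs K = K rs := rfl
lemma runA_nil (n : ℕ) (K : List Row → Bool) : runA (n + 1) [] K = false := rfl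
lemma runA_cons (n : ℕ) (r : Row) (rs : List Row) (K : List Row → Bool) :
    runA (n + 1) (r :: rs) K = cond (okP (Nat.mod r.d M)) (cond (inl r.off)
      (runA n (upr (Nat.mod r.d M) (Nat.mul Cc (Nat.mod r.d M)) r.off rs) K) false) false := rfl

/-- The pivot is the exact value. -/
lemma pivot_eq {A : ℕ} {X : ℕ} {x : ℤ} (hA : A ≤ 2 ^ 200) (h : Rep A X x)
    (hP : okP (Nat.mod X M) = true) : x = ((Nat.mod X M : ℕ) : ℤ) := by
  refine h.eq_of_mod_le (lt_of_le_of_lt hA (by norm_num)) (okP_sound hP).1 ?_
  norm_num [Bd2]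

theorem runA_sound (k : ℕ) : ∀ (n A : ℕ) (rs : List Row) (zs : List ZRow)
    (K : List Row → Bool), A + n * Cc ≤ 2 ^ 200 → List.Forall₂ (RepR A) rs zs → Sh k zs →
    runA n rs K = true →
    ∃ (rs' : List Row) (zs' : List ZRow), List.Forall₂ (RepR (A + n * Cc)) rs' zs' ∧
      Sh k zs' ∧ K rs' = true ∧ zs.length = zs'.length + n ∧
      ∀ xs : List ℂ, (∀ x ∈ xs, ‖x‖ ≤ 1) → xs.length = zs.length →
        Qf zs' (xs.drop n) ≤ Qf zs xs + n * (3 * (k * k)) := by
  intro n
  induction n with
  | zero =>
    intro A rs zs K _ hR hS hrun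
    refine ⟨rs, zs, by simpa using hR, hS, hrun, by simp, ?_⟩
    intro xs _ _
    simp
  | succ n ih =>
    intro A rs zs K hA hR hS hrun
    cases hR with
    | nil => rw [runA_nil] at hrun; simp at hrun
    | @cons r z rs zs hr hrs =>
      rw [runA_cons] at hrun
      obtain ⟨hP, hrun⟩ := cond_true hrun
      obtain ⟨hI, hrun⟩ := cond_true hrun
      set P := Nat.mod r.d M with hPdef
      obtain ⟨hP2, hP1⟩ := okP_sound hP
      have hCA : A ≤ 2 ^ 200 := by
        have : A ≤ A + (n + 1) * Cc := Nat.le_add_right _ _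
        omega
      have hz : z.d = (P : ℤ) := pivot_eq hCA hr.1 hP
      have hu := inl_sound hCA hr.2 hI
      obtain ⟨hS1, hS2⟩ := hS
      have hlen : z.off.length ≤ min k zs.length := hS1.le
      have hrep := upr_rep hP1 hP2 hu hrs
      have hP0 : (0 : ℤ) < (P : ℤ) := by
        have : 0 < P := lt_of_lt_of_le (by norm_num [Pm]) hP1
        exact_mod_cast this
      have hAC : A + Cc + n * Cc = A + (n + 1) * Cc := by ring
      obtain ⟨rs', zs', h1, h2, h3, h4, h5⟩ := ih (A + Cc) _ (uprZ P z.off zs) K
        (by rw [hAC]; exact hA) hrep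
        (Sh_uprZ P k _ _ hlen hS2) hrun
      rw [uprZ_length _ _ _ (by omega)] at h4
      refine ⟨rs', zs', ?_, h2, h3, ?_, ?_⟩
      · rw [hAC] at h1
        exact h1
      · simp only [List.length_cons]
        omega
      · intro xs hx hxl
        cases xs with
        | nil => simp at hxl
        | cons x xs =>
          have hx' : ∀ y ∈ xs, ‖y‖ ≤ 1 := fun y hy => hx y (List.mem_cons_of_mem _ hy)
          have hxl' : xs.length = zs.length := by simpa using hxl
          have h6 := h5 xs hx' (by rw [uprZ_length _ _ _ (by omega)]; exact hxl')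
          have h7 := uprZ_le P hP0 k z.off zs xs hx' hS2 hlen hxl'
          have h8 := square_le P hP0 x (dotZ z.off xs)
          rw [List.drop_succ_cons, Qf_cons, hz]
          have h9 : (z.off.length : ℝ) ≤ k := by exact_mod_cast (by omega : z.off.length ≤ k)
          have h10 : (k : ℝ) * z.off.length ≤ k * k :=
            mul_le_mul_of_nonneg_left h9 (by positivity)
          push_cast at h6 h7 h8 ⊢
          nlinarith [h6, h7, h8, h10]

lemma runB_zero (rs : List Row) (bs cs : List CN) (e1 e2 : ℕ) (K : ℕ → ℕ → Bool) :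
    runB 0 rs bs cs e1 e2 K = K e1 e2 := rfl
lemma runB_nil (n : ℕ) (bs cs : List CN) (e1 e2 : ℕ) (K : ℕ → ℕ → Bool) :
    runB (n + 1) [] bs cs e1 e2 K = false := rfl
lemma runB_cons (n : ℕ) (r : Row) (rs : List Row) (b c : CN) (bs cs : List CN) (e1 e2 : ℕ)
    (K : ℕ → ℕ → Bool) :
    runB (n + 1) (r :: rs) (b :: bs) (c :: cs) e1 e2 K =
      cond (okP (Nat.mod r.d M)) (cond (inl r.off) (cond (inb b.re) (cond (inb b.im)
          (cond (inb c.re) (cond (inb c.im)
            (runB n (upr (Nat.mod r.d M) (Nat.mul Cc (Nat.mod r.d M)) r.off rs)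
              (upb (Nat.mod r.d M) (Nat.mul Cc (Nat.mod r.d M)) b r.off bs)
              (upb (Nat.mod r.d M) (Nat.mul Cc (Nat.mod r.d M)) c r.off cs)
              (Nat.add e1 (sqP (Nat.mod r.d M) b)) (Nat.add e2 (sqP (Nat.mod r.d M) c)) K)
                false) false) false) false) false) false := rfl

/-- The square of a linear term divided by the pivot. -/
lemma sqP_le {P : ℕ} (hP1 : Pm ≤ P) {b : CN} {z : ZN} (h : RepC Bb b z) :
    ‖z.toC‖ ^ 2 / P ≤ sqP P b := by
  have hP0 : 0 < P := lt_of_lt_of_le (by norm_num [Pm]) hP1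
  have h1 := (h.1.mul h.1).add (h.2.mul h.2)
  have h2 : 0 ≤ z.re * z.re + z.im * z.im :=
    add_nonneg (mul_self_nonneg _) (mul_self_nonneg _)
  have h3 : z.re * z.re + z.im * z.im < M := by
    have h4 := h1.2
    rw [abs_of_nonneg h2] at h4
    refine lt_of_le_of_lt h4 ?_
    norm_num [Bb, M]
  have h4 := h1.mod_eq h2 h3
  unfold sqP
  set Q := Nat.mod (Nat.add (Nat.mul b.re b.re) (Nat.mul b.im b.im)) M with hQ
  have h5 : ‖z.toC‖ ^ 2 = (Q : ℝ) := by
    rw [← Complex.normSq_eq_norm_sq, Complex.normSq_apply]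
    simp only [ZN.toC]
    have h6 : ((Q : ℤ) : ℝ) = ((z.re * z.re + z.im * z.im : ℤ) : ℝ) := by rw [h4]
    push_cast at h6
    rw [h6]
  rw [h5, div_le_iff₀ (by exact_mod_cast hP0)]
  have h7 : Q ≤ (Q / P + 1) * P := by
    have h8 := Nat.div_add_mod Q P
    have h9 := Nat.mod_lt Q hP0
    nlinarith
  have h8 : (Q : ℝ) ≤ (((Q / P + 1) * P : ℕ) : ℝ) := Nat.cast_le.2 h7
  have h9 : (Nat.add (Nat.div Q P) 1) = Q / P + 1 := rfl
  rw [h9]
  push_cast at h8 ⊢
  exact h8

theorem runB_sound (k : ℕ) : ∀ (n A : ℕ) (rs : List Row) (zs : List ZRow)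
    (bs cs : List CN) (zb zc : List ZN) (e1 e2 : ℕ)
    (K : ℕ → ℕ → Bool), A + n * Cc ≤ 2 ^ 200 → List.Forall₂ (RepR A) rs zs → Sh k zs →
    List.Forall₂ (RepC A) bs zb → List.Forall₂ (RepC A) cs zc → zs.length = n →
    zb.length = n → zc.length = n →
    runB n rs bs cs e1 e2 K = true →
    ∃ e1' e2' : ℕ, K e1' e2' = true ∧
      ∀ xs : List ℂ, (∀ x ∈ xs, ‖x‖ ≤ 1) → xs.length = n →
        (e1 : ℝ) - e1' ≤ 2 ^ 20 * Qf zs xs + 2 ^ 10 * Lf zb xs +
          n * (3 * (k * k) * 2 ^ 20 + 3 * k * 2 ^ 10) ∧
        (e2 : ℝ) - e2' ≤ 2 ^ 20 * Qf zs xs + 2 ^ 10 * Lf zc xs +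
          n * (3 * (k * k) * 2 ^ 20 + 3 * k * 2 ^ 10) := by
  intro n
  induction n with
  | zero =>
    intro A rs zs bs cs zb zc e1 e2 K _ _ _ _ _ hz hzb hzc hrun
    refine ⟨e1, e2, hrun, ?_⟩
    intro xs _ hxl
    have : xs = [] := List.length_eq_zero_iff.1 hxl
    subst this
    simp [Qf_nil, Lf_nil]
  | succ n ih =>
    intro A rs zs bs cs zb zc e1 e2 K hA hR hS hB hC hz hzb hzc hrun
    cases hR with
    | nil => simp at hz
    | @cons r z rs zs hr hrs =>
      cases hB with
      | nil => simp at hzb
      | @cons b b' bs zb hb hbs =>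
        cases hC with
        | nil => simp at hzc
        | @cons c c' cs zc hc hcs =>
          rw [runB_cons] at hrun
          obtain ⟨hP, hrun⟩ := cond_true hrun
          obtain ⟨hI, hrun⟩ := cond_true hrun
          obtain ⟨hb1, hrun⟩ := cond_true hrun
          obtain ⟨hb2, hrun⟩ := cond_true hrun
          obtain ⟨hc1, hrun⟩ := cond_true hrun
          obtain ⟨hc2, hrun⟩ := cond_true hrun
          set P := Nat.mod r.d M with hPdef
          obtain ⟨hP2, hP1⟩ := okP_sound hP
          have hCA : A ≤ 2 ^ 200 := by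
            have : A ≤ A + (n + 1) * Cc := Nat.le_add_right _ _
            omega
          have hzd : z.d = (P : ℤ) := pivot_eq hCA hr.1 hP
          have hu := inl_sound hCA hr.2 hI
          have hbb : RepC Bb b b' := ⟨inb_sound hb.1 hCA hb1, inb_sound hb.2 hCA hb2⟩
          have hcc : RepC Bb c c' := ⟨inb_sound hc.1 hCA hc1, inb_sound hc.2 hCA hc2⟩
          obtain ⟨hS1, hS2⟩ := hS
          have hz' : zs.length = n := by simpa using hz
          have hzb' : zb.length = n := by simpa using hzb
          have hzc' : zc.length = n := by simpa using hzc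
          have hlen : z.off.length ≤ min k zs.length := hS1.le
          have hP0 : (0 : ℤ) < (P : ℤ) := by
            have : 0 < P := lt_of_lt_of_le (by norm_num [Pm]) hP1
            exact_mod_cast this
          have hAC : A + Cc + n * Cc = A + (n + 1) * Cc := by ring
          obtain ⟨e1', e2', h1, h2⟩ := ih (A + Cc) _ (uprZ P z.off zs) _ _
            (upbZ P b' z.off zb) (upbZ P c' z.off zc) _ _ K
            (by rw [hAC]; exact hA)
            (upr_rep hP1 hP2 hu hrs) (Sh_uprZ P k _ _ hlen hS2)
            (upb_rep hP1 hP2 hbb hu hbs) (upb_rep hP1 hP2 hcc hu hcs)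
            (by rw [uprZ_length _ _ _ (by omega)]; exact hz')
            (by rw [upbZ_length _ _ _ _ (by omega)]; exact hzb')
            (by rw [upbZ_length _ _ _ _ (by omega)]; exact hzc') hrun
          refine ⟨e1', e2', h1, ?_⟩
          intro xs hx hxl
          cases xs with
          | nil => simp at hxl
          | cons x xs =>
            have hx' : ∀ y ∈ xs, ‖y‖ ≤ 1 := fun y hy => hx y (List.mem_cons_of_mem _ hy)
            have hxl' : xs.length = n := by simpa using hxl
            obtain ⟨h3, h4⟩ := h2 xs hx' hxl'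
            have h7 := uprZ_le P hP0 k z.off zs xs hx' hS2 hlen (by omega)
            have h9 : (z.off.length : ℝ) ≤ k := by exact_mod_cast (by omega : z.off.length ≤ k)
            have h10 : (k : ℝ) * z.off.length ≤ k * k :=
              mul_le_mul_of_nonneg_left h9 (by positivity)
            have key : ∀ (w : ZN) (wb : List ZN) (e e' : ℕ) (W : CN), RepC Bb W w →
                wb.length = n →
                ((Nat.add e (sqP P W) : ℕ) : ℝ) - e' ≤
                  2 ^ 20 * Qf (uprZ P z.off zs) xs + 2 ^ 10 * Lf (upbZ P w z.off wb) xs +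
                    n * (3 * (k * k) * 2 ^ 20 + 3 * k * 2 ^ 10) →
                (e : ℝ) - e' ≤ 2 ^ 20 * Qf (z :: zs) (x :: xs) +
                  2 ^ 10 * Lf (w :: wb) (x :: xs) +
                    ((n + 1 : ℕ) : ℝ) * (3 * (k * k) * 2 ^ 20 + 3 * k * 2 ^ 10) := by
              intro w wb e e' W hW hwb h
              have h11 := upbZ_le P hP0 w z.off wb xs hx' (by omega) (by omega)
              have h12 := sqP_le hP1 hW
              have h13 := square_le P hP0 x (dotZ z.off xs + w.toC / 2 ^ 10)
              have hP0' : (0 : ℝ) < P := by exact_mod_cast hP0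
              have h14 : ‖dotZ z.off xs + w.toC / 2 ^ 10‖ ^ 2 = ‖dotZ z.off xs‖ ^ 2 +
                  2 * (conj (dotZ z.off xs) * w.toC).re / 2 ^ 10 + ‖w.toC‖ ^ 2 / 2 ^ 20 := by
                rw [← Complex.normSq_eq_norm_sq, Complex.normSq_add,
                  Complex.normSq_eq_norm_sq, Complex.normSq_eq_norm_sq]
                have h15 : ‖w.toC / 2 ^ 10‖ ^ 2 = ‖w.toC‖ ^ 2 / 2 ^ 20 := by
                  rw [norm_div, div_pow]
                  norm_num
                have h16 : (dotZ z.off xs * conj (w.toC / 2 ^ 10)).re =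
                    (conj (dotZ z.off xs) * w.toC).re / 2 ^ 10 := by
                  rw [← Complex.conj_re (dotZ z.off xs * conj (w.toC / 2 ^ 10))]
                  rw [map_mul, Complex.conj_conj]
                  have h17 : (2 : ℂ) ^ 10 = (((2 : ℝ) ^ 10 : ℝ) : ℂ) := by norm_num
                  rw [← mul_div_assoc, h17, Complex.div_ofReal_re]
                rw [h15, h16]
                ring
              have h15 : (conj x * (dotZ z.off xs + w.toC / 2 ^ 10)).re =
                  (conj x * dotZ z.off xs).re + (conj x * w.toC).re / 2 ^ 10 := by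
                have h17 : (2 : ℂ) ^ 10 = (((2 : ℝ) ^ 10 : ℝ) : ℂ) := by norm_num
                rw [mul_add, Complex.add_re, ← mul_div_assoc, h17, Complex.div_ofReal_re]
              rw [h14, h15] at h13
              have h16 : (‖dotZ z.off xs‖ ^ 2 +
                  2 * (conj (dotZ z.off xs) * w.toC).re / 2 ^ 10 + ‖w.toC‖ ^ 2 / 2 ^ 20) / (P : ℤ) =
                  ‖dotZ z.off xs‖ ^ 2 / (P : ℤ) +
                  (2 * (conj (dotZ z.off xs) * w.toC).re / (P : ℤ)) / 2 ^ 10 +
                    (‖w.toC‖ ^ 2 / P) / 2 ^ 20 := by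
                push_cast
                ring
              rw [h16] at h13
              rw [Qf_cons, Lf_cons, hzd]
              have h18 : ((Nat.add e (sqP P W) : ℕ) : ℝ) = (e : ℝ) + sqP P W := by
                simp only [Nat.add_eq]
                push_cast
                ring
              rw [h18] at h
              clear_value P
              clear h18 h14 h15 h16
              push_cast at h13 h7 h11 ⊢
              generalize ((sqP P W : ℕ) : ℝ) = s at h h12
              generalize ((e : ℕ) : ℝ) = e0 at h ⊢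
              generalize ((e' : ℕ) : ℝ) = e1 at h ⊢
              generalize (‖dotZ z.off xs‖ ^ 2 / (P : ℝ)) = A1 at h13 h7
              generalize (2 * (conj (dotZ z.off xs) * w.toC).re / (P : ℝ)) = A2 at h13 h11
              generalize (‖w.toC‖ ^ 2 / (P : ℝ)) = A3 at h13 h12
              generalize (Qf (uprZ (P : ℤ) z.off zs) xs) = q1 at h h7
              generalize (Lf (upbZ (P : ℤ) w z.off wb) xs) = l1 at h h11
              have h19 : (z.off.length : ℝ) ≤ k := h9
              linarith [h13, h7, h11, h12, h, h10, h19]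
            exact ⟨key b' zb e1 e1' b hbb hzb' h3, key c' zc e2 e2' c hcc hzc' h4⟩

end Pool.Agent.BFC
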