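import Pool.Agent.Lib.BFC.Elim

/-!
# The elimination with integers, and the simulation by residues
-/

set_option autoImplicit false

open scoped ComplexConjugate

namespace Pool.Agent.BFC

/-- A Gaussian integer. -/
structure ZN where
  re : ℤ
  im : ℤ

/-- The complex number. -/
noncomputable def ZN.toC (z : ZN) : ℂ := ⟨(z.re : ℝ), (z.im : ℝ)⟩

/-- A row of integers. -/
structure ZRow where
  d : ℤ
  off : List ZN

/-- `m + v u / P` -/
def upeZ (P : ℤ) (v m u : ZN) : ZN :=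
  ⟨m.re + (v.re * u.re - v.im * u.im) / P, m.im + (v.re * u.im + v.im * u.re) / P⟩

/-- `- conj u` -/
def ngcZ (u : ZN) : ZN := ⟨-u.re, u.im⟩

def uplZ (P : ℤ) (v : ZN) : List ZN → List ZN → List ZN
  | [], ms => ms
  | _ :: _, [] => []
  | u :: us, m :: ms => upeZ P v m u :: uplZ P v us ms

def uprZ (P : ℤ) : List ZN → List ZRow → List ZRow
  | [], rs => rs
  | _ :: _, [] => []
  | u :: us, r :: rs =>
    ⟨r.d + (-(u.re * u.re) - u.im * u.im) / P, uplZ P (ngcZ u) us r.off⟩ :: uprZ P us rs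

def upbZ (P : ℤ) (b : ZN) : List ZN → List ZN → List ZN
  | [], bs => bs
  | _ :: _, [] => []
  | u :: us, c :: bs => upeZ P (ngcZ u) c b :: upbZ P b us bs

/-! ## Representation -/

/-- A residue pair represents a Gaussian integer. -/
def RepC (A : ℕ) (X : CN) (z : ZN) : Prop := Rep A X.re z.re ∧ Rep A X.im z.im

/-- A row represents a row. -/
def RepR (A : ℕ) (X : Row) (z : ZRow) : Prop :=
  Rep A X.d z.d ∧ List.Forall₂ (RepC A) X.off z.off

lemma RepC.mono {A B : ℕ} {X : CN} {z : ZN} (h : RepC A X z) (hA : A ≤ B) : RepC B X z :=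
  ⟨h.1.mono hA, h.2.mono hA⟩

lemma RepR.mono {A B : ℕ} {X : Row} {z : ZRow} (h : RepR A X z) (hA : A ≤ B) : RepR B X z :=
  ⟨h.1.mono hA, h.2.imp (fun _ _ h => h.mono hA)⟩

/-! ### Unfolding of the functions on residues -/

lemma upl_nil (P CP na b nb : ℕ) (ms : List CN) : upl P CP na b nb [] ms = ms := rfl
lemma upl_cons_nil (P CP na b nb : ℕ) (u : CN) (us : List CN) :
    upl P CP na b nb (u :: us) [] = [] := rfl
lemma upl_cons (P CP na b nb : ℕ) (u m : CN) (us ms : List CN) :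
    upl P CP na b nb (u :: us) (m :: ms) = upe P CP na b nb m u :: upl P CP na b nb us ms := rfl
lemma upr_nil (P CP : ℕ) (rs : List Row) : upr P CP [] rs = rs := rfl
lemma upr_cons_nil (P CP : ℕ) (u : CN) (us : List CN) : upr P CP (u :: us) [] = [] := rfl
lemma upr_cons (P CP : ℕ) (u : CN) (us : List CN) (r : Row) (rs : List Row) :
    upr P CP (u :: us) (r :: rs) =
      ⟨upc P CP r.d (Nat.add (Nat.mul (ngr u.re) u.re) (Nat.mul (ngr u.im) u.im)),
        upl P CP (ngr u.re) u.im (ngr u.im) us r.off⟩ :: upr P CP us rs := rfl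
lemma upb_nil (P CP : ℕ) (b : CN) (bs : List CN) : upb P CP b [] bs = bs := rfl
lemma upb_cons_nil (P CP : ℕ) (b u : CN) (us : List CN) : upb P CP b (u :: us) [] = [] := rfl
lemma upb_cons (P CP : ℕ) (b u c : CN) (us bs : List CN) :
    upb P CP b (u :: us) (c :: bs) =
      upe P CP (ngr u.re) u.im (ngr u.im) c b :: upb P CP b us bs := rfl

lemma inl_cons {x : CN} {l : List CN} (h : inl (x :: l) = true) :
    inr x.re = true ∧ inr x.im = true ∧ inl l = true := by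
  have h1 : cond (inr x.re) (cond (inr x.im) (inl l) false) false = true := h
  cases hx : inr x.re <;> cases hy : inr x.im <;> simp_all

/-! ### Range checks -/

lemma inr_sound {A X : ℕ} {x : ℤ} (h : Rep A X x) (hA : A ≤ 2 ^ 200) (hr : inr X = true) :
    Rep Bd X x := by
  have h1 : Nat.mod (Nat.add X Bd) M ≤ Bd2 := by
    simpa [inr] using hr
  have h2 : Rep (A + Bd) (Nat.add X Bd) (x + (Bd : ℕ)) := h.add (Rep.nat (le_refl Bd))
  have hA' : A + Bd < 2 ^ 255 := by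
    have : Bd < 2 ^ 50 := by norm_num [Bd]
    calc A + Bd < 2 ^ 200 + 2 ^ 50 := by omega
      _ < 2 ^ 255 := by norm_num
  have h3 := h2.eq_of_mod_le hA' h1 (by norm_num [Bd2])
  have h4 : ((Nat.mod (Nat.add X Bd) M : ℕ) : ℤ) ≤ (Bd2 : ℕ) := Int.ofNat_le.2 h1
  have h5 : (0 : ℤ) ≤ ((Nat.mod (Nat.add X Bd) M : ℕ) : ℤ) := Int.natCast_nonneg _
  have h6 : ((Bd2 : ℕ) : ℤ) = 2 * (Bd : ℕ) := by norm_num [Bd2, Bd]
  refine ⟨h.1, abs_le.2 ⟨by linarith, by linarith⟩⟩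

lemma inb_sound {A X : ℕ} {x : ℤ} (h : Rep A X x) (hA : A ≤ 2 ^ 200) (hr : inb X = true) :
    Rep Bb X x := by
  have h1 : Nat.mod (Nat.add X Bb) M ≤ Bb2 := by
    simpa [inb] using hr
  have h2 : Rep (A + Bb) (Nat.add X Bb) (x + (Bb : ℕ)) := h.add (Rep.nat (le_refl Bb))
  have hA' : A + Bb < 2 ^ 255 := by
    have : Bb < 2 ^ 60 := by norm_num [Bb]
    calc A + Bb < 2 ^ 200 + 2 ^ 60 := by omega
      _ < 2 ^ 255 := by norm_num
  have h3 := h2.eq_of_mod_le hA' h1 (by norm_num [Bb2])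
  have h4 : ((Nat.mod (Nat.add X Bb) M : ℕ) : ℤ) ≤ (Bb2 : ℕ) := Int.ofNat_le.2 h1
  have h5 : (0 : ℤ) ≤ ((Nat.mod (Nat.add X Bb) M : ℕ) : ℤ) := Int.natCast_nonneg _
  have h6 : ((Bb2 : ℕ) : ℤ) = 2 * (Bb : ℕ) := by norm_num [Bb2, Bb]
  refine ⟨h.1, abs_le.2 ⟨by linarith, by linarith⟩⟩

lemma inl_sound {A : ℕ} (hA : A ≤ 2 ^ 200) : ∀ {l : List CN} {z : List ZN},
    List.Forall₂ (RepC A) l z → inl l = true → List.Forall₂ (RepC Bd) l z := by
  intro l z h
  induction h with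
  | nil => intro _; exact List.Forall₂.nil
  | @cons a b l z h1 h2 ih =>
    intro hl
    obtain ⟨h3, h4, h5⟩ := inl_cons hl
    exact List.Forall₂.cons ⟨inr_sound h1.1 hA h3, inr_sound h1.2 hA h4⟩ (ih h5)

/-- Negation. -/
lemma ngr_rep {X : ℕ} {x : ℤ} (h : Rep Bd X x) : Rep Bd (ngr X) (-x) := by
  have h2 : Rep (Bd + Bd) (Nat.add X Bd) (x + (Bd : ℕ)) := h.add (Rep.nat (le_refl Bd))
  have h3 := h.2
  have h4 : ((Nat.mod (Nat.add X Bd) M : ℕ) : ℤ) = x + (Bd : ℕ) := by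
    refine h2.mod_eq (by linarith [neg_abs_le x]) ?_
    have h5 : x + (Bd : ℕ) ≤ (Bd : ℕ) + (Bd : ℕ) := by linarith [le_abs_self x]
    refine lt_of_le_of_lt h5 ?_
    norm_num [Bd, M]
  have h6 : Nat.mod (Nat.add X Bd) M ≤ MpB := by
    have : Nat.mod (Nat.add X Bd) M < M := Nat.mod_lt _ (by norm_num [M])
    exact this.le.trans (by norm_num [M, MpB])
  refine ⟨⟨1, ?_⟩, by rwa [abs_neg]⟩
  have h7 : ((ngr X : ℕ) : ℤ) = (MpB : ℕ) - ((Nat.mod (Nat.add X Bd) M : ℕ) : ℤ) := by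
    unfold ngr
    simp only [Nat.sub_eq]
    push_cast [Nat.cast_sub h6]
    rfl
  rw [h7, h4]
  have h8 : ((MpB : ℕ) : ℤ) = (M : ℕ) + (Bd : ℕ) := by norm_num [MpB, M, Bd]
  rw [h8]
  ring

/-! ### One update -/

/-- The main lemma: division of a residue. -/
lemma upc_rep {A D P m x : ℕ} {m' x' : ℤ} (hP1 : Pm ≤ P) (hP2 : P ≤ Bd2)
    (hm : Rep A m m') (hx : Rep D x x') (hD : D ≤ 2 ^ 108) :
    Rep (A + Cc) (upc P (Nat.mul Cc P) m x) (m' + x' / (P : ℤ)) := by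
  have hPm : (2 : ℕ) ^ 34 ≤ P := by
    have : Pm = 2 ^ 34 := by norm_num [Pm]
    omega
  have hP2' : P ≤ 2 ^ 49 := by
    have : Bd2 = 2 ^ 49 := by norm_num [Bd2]
    omega
  have hC : Cc = 2 ^ 80 := by norm_num [Cc]
  have hP0 : (0 : ℤ) < P := by
    have : 0 < P := lt_of_lt_of_le (by norm_num) hPm
    exact_mod_cast this
  have hCP : Nat.mul Cc P = Cc * P := rfl
  have h1 : Rep (D + Cc * P) (Nat.add x (Nat.mul Cc P)) (x' + ((Cc * P : ℕ) : ℤ)) := by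
    rw [hCP]
    exact hx.add (Rep.nat le_rfl)
  have hxa := hx.2
  have hDC : D ≤ Cc * P := by
    rw [hC]
    calc D ≤ 2 ^ 108 := hD
      _ ≤ 2 ^ 80 * 2 ^ 34 := by norm_num
      _ ≤ 2 ^ 80 * P := Nat.mul_le_mul_left _ hPm
  have hDC' : (D : ℤ) ≤ ((Cc * P : ℕ) : ℤ) := by exact_mod_cast hDC
  have h2 : 0 ≤ x' + ((Cc * P : ℕ) : ℤ) := by linarith [neg_abs_le x']
  have h3 : x' + ((Cc * P : ℕ) : ℤ) < M := by
    have h4 : x' + ((Cc * P : ℕ) : ℤ) ≤ ((Cc * P : ℕ) : ℤ) + ((Cc * P : ℕ) : ℤ) := by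
      linarith [le_abs_self x']
    refine lt_of_le_of_lt h4 ?_
    have h5 : Cc * P ≤ 2 ^ 80 * 2 ^ 49 := by
      rw [hC]; exact Nat.mul_le_mul_left _ hP2'
    have h6 : ((Cc * P : ℕ) : ℤ) ≤ 2 ^ 80 * 2 ^ 49 := by exact_mod_cast h5
    rw [M_eq]
    push_cast at h6 ⊢
    have h7 : (2 : ℤ) ^ 80 * 2 ^ 49 + 2 ^ 80 * 2 ^ 49 < 2 ^ 256 := by norm_num
    linarith
  have h4 := h1.mod_eq h2 h3
  have h5 : ((Nat.div (Nat.mod (Nat.add x (Nat.mul Cc P)) M) P : ℕ) : ℤ) =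
      x' / (P : ℤ) + (Cc : ℕ) := by
    have h6 : ((Nat.div (Nat.mod (Nat.add x (Nat.mul Cc P)) M) P : ℕ) : ℤ) =
        ((Nat.mod (Nat.add x (Nat.mul Cc P)) M : ℕ) : ℤ) / (P : ℤ) := by
      exact Int.natCast_div _ _
    rw [h6, h4]
    push_cast
    rw [Int.add_mul_ediv_right _ _ hP0.ne']
  have h7 : |x' / (P : ℤ)| ≤ (Cc : ℕ) := by
    rw [abs_le]
    constructor
    · rw [Int.le_ediv_iff_mul_le hP0]
      push_cast at hDC'
      nlinarith [neg_abs_le x']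
    · have h8 : x' ≤ (Cc : ℕ) * (P : ℤ) := by
        push_cast at hDC'
        linarith [le_abs_self x']
      calc x' / (P : ℤ) ≤ ((Cc : ℕ) * (P : ℤ)) / (P : ℤ) := Int.ediv_le_ediv hP0 h8
        _ = (Cc : ℕ) := Int.mul_ediv_cancel _ hP0.ne'
  obtain ⟨⟨k, hk⟩, hmb⟩ := hm
  refine ⟨⟨k + 1, ?_⟩, ?_⟩
  · unfold upc
    simp only [Nat.add_eq]
    push_cast
    have h9 : ((MC : ℕ) : ℤ) = (M : ℕ) - (Cc : ℕ) := by norm_num [MC, M, Cc]
    simp only [Nat.add_eq] at h5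
    rw [h5, h9]
    linear_combination hk
  · push_cast
    exact (abs_add_le _ _).trans (add_le_add hmb h7)

lemma upe_rep {A B P : ℕ} {m u : CN} {m' u' v : ZN} {na b nb : ℕ} (hP1 : Pm ≤ P)
    (hP2 : P ≤ Bd2) (hm : RepC A m m') (hu : RepC B u u') (hB : B ≤ Bb)
    (h1 : Rep Bd na v.re) (h2 : Rep Bd b v.im) (h3 : Rep Bd nb (-v.im)) :
    RepC (A + Cc) (upe P (Nat.mul Cc P) na b nb m u) (upeZ P v m' u') := by
  have hb : Bd * B + Bd * B ≤ 2 ^ 108 := by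
    have h4 : Bd = 2 ^ 48 := by norm_num [Bd]
    have h5 : Bb = 2 ^ 58 := by norm_num [Bb]
    rw [h4]
    have : B ≤ 2 ^ 58 := by omega
    calc 2 ^ 48 * B + 2 ^ 48 * B ≤ 2 ^ 48 * 2 ^ 58 + 2 ^ 48 * 2 ^ 58 := by
          have := Nat.mul_le_mul_left (2 ^ 48) this
          omega
      _ ≤ 2 ^ 108 := by norm_num
  refine ⟨?_, ?_⟩
  · have h6 := (h1.mul hu.1).add (h3.mul hu.2)
    have h7 := upc_rep hP1 hP2 hm.1 h6 hb
    have h8 : v.re * u'.re + -v.im * u'.im = v.re * u'.re - v.im * u'.im := by ring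
    rw [h8] at h7
    exact h7
  · exact upc_rep hP1 hP2 hm.2 ((h1.mul hu.2).add (h2.mul hu.1)) hb

lemma upl_rep {A P : ℕ} {v : ZN} {na b nb : ℕ} (hP1 : Pm ≤ P) (hP2 : P ≤ Bd2)
    (h1 : Rep Bd na v.re) (h2 : Rep Bd b v.im) (h3 : Rep Bd nb (-v.im))
    {us : List CN} {us' : List ZN} (hu : List.Forall₂ (RepC Bd) us us') :
    ∀ {ms : List CN} {ms' : List ZN}, List.Forall₂ (RepC A) ms ms' →
      List.Forall₂ (RepC (A + Cc)) (upl P (Nat.mul Cc P) na b nb us ms) (uplZ P v us' ms') := by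
  have hBd : Bd ≤ Bb := by norm_num [Bd, Bb]
  induction hu with
  | nil =>
    intro ms ms' h
    rw [upl_nil]
    exact h.imp (fun _ _ h => h.mono (Nat.le_add_right _ _))
  | @cons u u' us us' hu hus ih =>
    intro ms ms' h
    cases h with
    | nil => rw [upl_cons_nil]; exact List.Forall₂.nil
    | @cons m m' ms ms' hm hms =>
      rw [upl_cons]
      exact List.Forall₂.cons (upe_rep hP1 hP2 hm hu hBd h1 h2 h3) (ih hms)

lemma upr_rep {A P : ℕ} (hP1 : Pm ≤ P) (hP2 : P ≤ Bd2)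
    {us : List CN} {us' : List ZN} (hu : List.Forall₂ (RepC Bd) us us') :
    ∀ {rs : List Row} {rs' : List ZRow}, List.Forall₂ (RepR A) rs rs' →
      List.Forall₂ (RepR (A + Cc)) (upr P (Nat.mul Cc P) us rs) (uprZ P us' rs') := by
  induction hu with
  | nil =>
    intro rs rs' h
    rw [upr_nil]
    exact h.imp (fun _ _ h => h.mono (Nat.le_add_right _ _))
  | @cons u u' us us' hu hus ih =>
    intro rs rs' h
    cases h with
    | nil => rw [upr_cons_nil]; exact List.Forall₂.nil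
    | @cons r r' rs rs' hr hrs =>
      rw [upr_cons]
      refine List.Forall₂.cons ⟨?_, ?_⟩ (ih hrs)
      · have hb : Bd * Bd + Bd * Bd ≤ 2 ^ 108 := by norm_num [Bd]
        have h6 := ((ngr_rep hu.1).mul hu.1).add ((ngr_rep hu.2).mul hu.2)
        have h7 := upc_rep hP1 hP2 hr.1 h6 hb
        have h8 : -u'.re * u'.re + -u'.im * u'.im = -(u'.re * u'.re) - u'.im * u'.im := by ring
        rw [h8] at h7
        exact h7
      · exact upl_rep hP1 hP2 (v := ngcZ u') (ngr_rep hu.1) hu.2 (ngr_rep hu.2) hus hr.2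

lemma upb_rep {A P : ℕ} (hP1 : Pm ≤ P) (hP2 : P ≤ Bd2) {b : CN} {b' : ZN}
    (hb : RepC Bb b b') {us : List CN} {us' : List ZN}
    (hu : List.Forall₂ (RepC Bd) us us') :
    ∀ {bs : List CN} {bs' : List ZN}, List.Forall₂ (RepC A) bs bs' →
      List.Forall₂ (RepC (A + Cc)) (upb P (Nat.mul Cc P) b us bs) (upbZ P b' us' bs') := by
  induction hu with
  | nil =>
    intro bs bs' h
    rw [upb_nil]
    exact h.imp (fun _ _ h => h.mono (Nat.le_add_right _ _))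
  | @cons u u' us us' hu hus ih =>
    intro bs bs' h
    cases h with
    | nil => rw [upb_cons_nil]; exact List.Forall₂.nil
    | @cons c c' bs bs' hc hbs =>
      rw [upb_cons]
      exact List.Forall₂.cons (upe_rep hP1 hP2 hc hb le_rfl (v := ngcZ u') (ngr_rep hu.1) hu.2
        (ngr_rep hu.2)) (ih hbs)

end Pool.Agent.BFC
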