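import Pool.Agent.Lib.BFC.Far
import Pool.Agent.Lib.BFC.LeafS
import Pool.Agent.Lib.P187w.Hred
import Pool.Agent.Lib.BMM.Chk

/-!
# The far zone on one slice, from the data of the slice
-/

set_option autoImplicit false

open Pool.Agent.P187f6b Pool.Agent.Lib.BFC

namespace Pool.Agent.BFC

/-- The far zone on a slice with accepted trees over all root cells. -/
theorem slice_far {S : Slice} (hok : S.ok = true) (hbd : S.bd = true)
    (htree : ∀ cs ∈ rootsT 2, ∃ T, walkC (leafOK S) T cs = true) {l : ℝ}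
    (h1 : (S.L1 : ℝ) / 1024 ≤ l) (h2 : l ≤ (S.L2 : ℝ) / 1024) :
    P187w.FAR l (BMM.chord S.L1 S.L2 S.R1 S.R2 l) ((S.S1 : ℝ) / 1024) ((S.S2 : ℝ) / 1024) := by
  obtain ⟨hd4, hL, hL2, hS1, hS2, -, -⟩ := Slice.ok_spec hok
  have hLr : (S.L1 : ℝ) < S.L2 := by exact_mod_cast hL
  have hL2r : (S.L2 : ℝ) ≤ 512 := by exact_mod_cast hL2
  have hS1r : (S.S1 : ℝ) ≤ 512 := by exact_mod_cast hS1
  have hR1 := Slice.R1_mem hok
  have hR2 := Slice.R2_mem hok
  have hN : S.N = S.nA + S.d := rfl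
  have hleaf : LeafOK (leafOK S) S.N ((S.L1 : ℝ) / 1024) ((S.L2 : ℝ) / 1024)
      ((S.R1 : ℝ) / 2 ^ 24) ((S.R2 : ℝ) / 2 ^ 24) ((S.S1 : ℝ) / 1024) ((S.S2 : ℝ) / 1024) :=
    leafOK_of (E1 := S.e1) (E2 := S.e2) (d := S.d) (fun _ => rfl) (fun _ => rfl)
      (fun NP h4 hd => Slice.e1_good hok h4 hd) (fun NP h4 hd => Slice.e2_good hok h4 hd)
      (by omega) (fun cs code h => leaf_sound hok hbd cs code h)
  have h := far_slice hleaf (n := 2) htree (by positivity) (by linarith) (by positivity)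
    (by omega) hR1.1.le hR1.2 hR2.1.le hR2.2 (by positivity) (by linarith) (by linarith) h1 h2
  have e : (S.R1 : ℝ) / 2 ^ 24 + ((S.R2 : ℝ) / 2 ^ 24 - (S.R1 : ℝ) / 2 ^ 24) *
      ((l - (S.L1 : ℝ) / 1024) / ((S.L2 : ℝ) / 1024 - (S.L1 : ℝ) / 1024)) =
      BMM.chord S.L1 S.L2 S.R1 S.R2 l := by
    unfold BMM.chord
    have h3 : (S.L2 : ℝ) - S.L1 ≠ 0 := by linarith
    have h4 : (S.L2 : ℝ) / 1024 - (S.L1 : ℝ) / 1024 ≠ 0 := by
      intro h
      apply h3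
      linarith
    field_simp
  rw [e] at h
  exact h

end Pool.Agent.BFC
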